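import Pool.Agent.Lib_helper24.SQ.Sec2E

/-!
# Section 2: the final theorem from the three mean values, both parities
-/

noncomputable section

namespace Pool.Agent.SQS

open Complex MeasureTheory Filter Topology Pool.Agent.GRH
open scoped ENNReal

theorem Bad_mono {q : ℕ} [NeZero q] {κ : ℕ} {T h c c' : ℝ} (hc : c ≤ c') :
    Bad q κ T h c ⊆ Bad q κ T h c' := by
  intro χ hχ
  rw [mem_Bad] at hχ ⊢
  obtain ⟨h1, h2, x, hx, hx', hlt⟩ := hχ
  refine ⟨h1, h2, x, hx, hx', lt_of_lt_of_le hlt ?_⟩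
  have hlog : 0 ≤ Real.log q := Real.log_natCast_nonneg q
  have : ⌈c * Real.log q⌉₊ ≤ ⌈c' * Real.log q⌉₊ := Nat.ceil_mono (by gcongr)
  exact_mod_cast this

theorem final_of_means {C : ℝ} (hC : 0 ≤ C)
    (hM : ∀ κ : ℕ, κ ≤ 1 → ∃ Q₀ : ℕ, ∀ (q : ℕ) [NeZero q], Q₀ ≤ q →
      ∃ β : ℕ → ℝ, ∃ N : ℕ, Means κ q C β N)
    (T h ε : ℝ) (hh : 0 < h) (hε : 0 < ε) :
    ∃ c : ℝ, 0 < c ∧ ∃ Q : ℕ, ∀ (q : ℕ) [NeZero q], Q ≤ q →
      (Nat.card {χ : DirichletCharacter ℂ q // χ.IsPrimitive ∧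
        ∃ x : ℝ, -T ≤ x ∧ x + h ≤ T ∧
          {t : ℝ | x < t ∧ t < x + h ∧
            Odd (analyticOrderNatAt (DirichletCharacter.completedLFunction χ)
              (1 / 2 + t * I))}.encard < ⌈c * Real.log q⌉₊} : ℝ) ≤ ε * q.totient := by
  classical
  obtain ⟨c0, hc0, Q0, hQ0⟩ := bad_kappa (κ := 0) (by norm_num) hC (hM 0 (by norm_num)) T hh
    (half_pos hε)
  obtain ⟨c1, hc1, Q1, hQ1⟩ := bad_kappa (κ := 1) (by norm_num) hC (hM 1 (by norm_num)) T hh
    (half_pos hε)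
  refine ⟨min c0 c1, lt_min hc0 hc1, max Q0 Q1, fun q _ hq => ?_⟩
  have h0 := hQ0 q ((le_max_left _ _).trans hq)
  have h1 := hQ1 q ((le_max_right _ _).trans hq)
  rw [Nat.card_eq_fintype_card, Fintype.card_subtype]
  have hsub : (Finset.univ.filter fun χ : DirichletCharacter ℂ q => χ.IsPrimitive ∧
        ∃ x : ℝ, -T ≤ x ∧ x + h ≤ T ∧
          {t : ℝ | x < t ∧ t < x + h ∧
            Odd (analyticOrderNatAt (DirichletCharacter.completedLFunction χ)
              (1 / 2 + t * I))}.encard < ⌈min c0 c1 * Real.log q⌉₊) ⊆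
      Bad q 0 T h c0 ∪ Bad q 1 T h c1 := by
    intro χ hχ
    obtain ⟨_, hp, x, hx, hx', hlt⟩ := Finset.mem_filter.1 hχ
    have hset : {t : ℝ | x < t ∧ t < x + h ∧
            Odd (analyticOrderNatAt (DirichletCharacter.completedLFunction χ)
              (1 / 2 + t * I))} = oddZ χ ∩ Set.Ioo x (x + h) := by
      ext t
      simp only [oddZ, Set.mem_ofPred_eq, Set.mem_inter_iff, Set.mem_Ioo]
      tauto
    rw [hset] at hlt
    rcases χ.even_or_odd with he | ho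
    · exact Finset.mem_union_left _ (Bad_mono (min_le_left _ _)
        (mem_Bad.2 ⟨hp, Or.inl ⟨rfl, he⟩, x, hx, hx', hlt⟩))
    · exact Finset.mem_union_right _ (Bad_mono (min_le_right _ _)
        (mem_Bad.2 ⟨hp, Or.inr ⟨rfl, ho⟩, x, hx, hx', hlt⟩))
  have h3 := (Finset.card_le_card hsub).trans (Finset.card_union_le _ _)
  have h4 : ((Finset.univ.filter fun χ : DirichletCharacter ℂ q => χ.IsPrimitive ∧
        ∃ x : ℝ, -T ≤ x ∧ x + h ≤ T ∧
          {t : ℝ | x < t ∧ t < x + h ∧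
            Odd (analyticOrderNatAt (DirichletCharacter.completedLFunction χ)
              (1 / 2 + t * I))}.encard < ⌈min c0 c1 * Real.log q⌉₊).card : ℝ) ≤
      (Bad q 0 T h c0).card + (Bad q 1 T h c1).card := by exact_mod_cast h3
  refine h4.trans ?_
  linarith

end Pool.Agent.SQS
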