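import Pool.Agent.Lib_helper92.SQ.Defs
import Pool.Agent.Lib_helper24.SQ.Sec2F

/-!
# Bridge between the general densities `fd`, `Dd` and `dF`, `dD`
-/

noncomputable section

namespace Pool.Agent.SQS

open Complex MeasureTheory Filter Topology Pool.Agent.GRH Pool.Agent.SQ
open scoped ENNReal

theorem be_zero_at (L : ℝ) : be L 0 = 0 := ArithmeticFunction.map_zero

theorem sum_range_Ico {M : Type*} [AddCommMonoid M] (f : ℕ → M) (N : ℕ) (h0 : f 0 = 0) :
    ∑ k ∈ Finset.range N, f k = ∑ k ∈ Finset.Ico 1 N, f k := by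
  rcases Nat.eq_zero_or_pos N with rfl | hN
  · simp
  · rw [Finset.range_eq_Ico, ← Finset.sum_Ioo_add_eq_sum_Ico hN, h0, add_zero]
    rfl

theorem dF_eq_fd {q : ℕ} (κ : ℕ) (L : ℝ) (χ : DirichletCharacter ℂ q) (v : ℝ) :
    dF κ L χ v = fd κ (fun n => be L n) (NN L) χ v := by
  unfold dF fd
  rw [sum_range_Ico _ _ (by simp)]
  refine Finset.sum_congr rfl fun k hk => ?_
  rw [sum_range_Ico _ _ (by simp)]
  refine Finset.sum_congr rfl fun l hl => ?_
  rw [Real.sqrt_mul (by positivity)]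
  have : v - Real.log q / 2 + Real.log k - Real.log l =
      v + (Real.log k - Real.log l - Real.log q / 2) := by ring
  rw [this]
  ring

theorem be_big {L : ℝ} (hL : 0 < L) {n : ℕ} (hn : NN L ≤ n) : be L n = 0 := by
  have h1 : Real.exp L ≤ n := (Nat.le_ceil _).trans (by exact_mod_cast hn)
  have h2 : L ≤ Real.log n := by
    rw [Real.le_log_iff_exp_le (lt_of_lt_of_le (Real.exp_pos L) h1)]
    exact h1
  have h3 : 1 - Real.log n / L ≤ 0 := by
    have : 1 ≤ Real.log n / L := by rwa [one_le_div hL]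
    linarith
  show al n * max 0 (1 - Real.log n / L) = 0
  rw [max_eq_left h3, mul_zero]

theorem bb_sum_eq {L : ℝ} (hL : 0 < L) {m : ℕ} (hm : 0 < m) :
    bb L m = ∑ k ∈ Finset.Ico 1 (NN L), ∑ l ∈ Finset.Ico 1 (NN L),
      if k * l ∣ m then be L k * be L l else 0 := by
  classical
  have e1 : bb L m = ∑ i ∈ m.divisors, ∑ x ∈ i.divisorsAntidiagonal, be L x.1 * be L x.2 := by
    unfold bb
    rw [ArithmeticFunction.coe_zeta_mul_apply]
    refine Finset.sum_congr rfl fun i _ => ?_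
    unfold lam
    rw [ArithmeticFunction.mul_apply]
  set S : Finset (ℕ × ℕ) := (Finset.Icc 1 m ×ˢ Finset.Icc 1 m).filter fun x => x.1 * x.2 ∣ m
    with hS
  have e2 : ∑ x ∈ S, be L x.1 * be L x.2 =
      ∑ i ∈ m.divisors, ∑ x ∈ i.divisorsAntidiagonal, be L x.1 * be L x.2 := by
    rw [← Finset.sum_fiberwise_of_maps_to (t := m.divisors) (g := fun x : ℕ × ℕ => x.1 * x.2)]
    · refine Finset.sum_congr rfl fun i hi => ?_
      refine Finset.sum_congr ?_ fun _ _ => rfl
      ext ⟨a, b⟩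
      simp only [hS, Finset.mem_filter, Finset.mem_product, Finset.mem_Icc,
        Nat.mem_divisorsAntidiagonal]
      rw [Nat.mem_divisors] at hi
      constructor
      · rintro ⟨_, h⟩
        exact ⟨h, fun h0 => by rw [h0] at hi; exact hi.2 (Nat.eq_zero_of_zero_dvd hi.1)⟩
      · rintro ⟨h, h0⟩
        have hab : a * b ∣ m := h ▸ hi.1
        have ha : a ∣ m := (Nat.dvd_mul_right a b).trans hab
        have hb : b ∣ m := (Nat.dvd_mul_left b a).trans hab
        exact ⟨⟨⟨⟨Nat.pos_of_dvd_of_pos ha hm, Nat.le_of_dvd hm ha⟩,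
          ⟨Nat.pos_of_dvd_of_pos hb hm, Nat.le_of_dvd hm hb⟩⟩, hab⟩, h⟩
    · intro x hx
      rw [hS, Finset.mem_filter] at hx
      exact Nat.mem_divisors.2 ⟨hx.2, hm.ne'⟩
  have e3 : ∑ k ∈ Finset.Ico 1 (NN L), ∑ l ∈ Finset.Ico 1 (NN L),
      (if k * l ∣ m then be L k * be L l else 0) =
      ∑ x ∈ (Finset.Ico 1 (NN L) ×ˢ Finset.Ico 1 (NN L)).filter (fun x => x.1 * x.2 ∣ m),
        be L x.1 * be L x.2 := by
    rw [Finset.sum_filter, Finset.sum_product]
  rw [e1, ← e2, e3]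
  symm
  refine Finset.sum_subset ?_ ?_
  · intro x hx
    rw [Finset.mem_filter, Finset.mem_product, Finset.mem_Ico, Finset.mem_Ico] at hx
    rw [hS, Finset.mem_filter, Finset.mem_product, Finset.mem_Icc, Finset.mem_Icc]
    have ha : x.1 ∣ m := (Nat.dvd_mul_right _ _).trans hx.2
    have hb : x.2 ∣ m := (Nat.dvd_mul_left _ _).trans hx.2
    exact ⟨⟨⟨hx.1.1.1, Nat.le_of_dvd hm ha⟩, ⟨hx.1.2.1, Nat.le_of_dvd hm hb⟩⟩, hx.2⟩
  · intro x hx hx'
    rw [hS, Finset.mem_filter, Finset.mem_product, Finset.mem_Icc, Finset.mem_Icc] at hx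
    rw [Finset.mem_filter, Finset.mem_product, Finset.mem_Ico, Finset.mem_Ico] at hx'
    by_cases h1 : x.1 < NN L
    · by_cases h2 : x.2 < NN L
      · exact absurd ⟨⟨⟨hx.1.1.1, h1⟩, ⟨hx.1.2.1, h2⟩⟩, hx.2⟩ hx'
      · rw [be_big hL (not_lt.1 h2), mul_zero]
    · rw [be_big hL (not_lt.1 h1), zero_mul]

theorem tsum_mul_right_dvd (F : ℕ → ℂ) {a : ℕ} (ha : 0 < a) :
    ∑' n : ℕ, F (n * a) = ∑' m : ℕ, if a ∣ m then F m else 0 := by
  have hinj : Function.Injective (fun n : ℕ => n * a) := fun x y h =>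
    Nat.eq_of_mul_eq_mul_right ha h
  have h1 := hinj.tsum_eq (f := fun m : ℕ => if a ∣ m then F m else 0) (by
    intro m hm
    rw [Function.mem_support] at hm
    by_cases h : a ∣ m
    · obtain ⟨c, rfl⟩ := h
      exact ⟨c, mul_comm _ _⟩
    · simp [h] at hm)
  rw [← h1]
  refine tsum_congr fun n => ?_
  simp

theorem chiG_summable {q : ℕ} {κ : ℕ} (hκ : κ ≤ 1) (χ : DirichletCharacter ℂ q) {δ : ℝ}
    (hδ : 0 < δ) : Summable (fun m : ℕ => χ m * (G κ (m * δ) : ℂ)) := by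
  refine Summable.of_norm_bounded (g := fun n : ℕ => 1 / (1 + ((n : ℝ) * δ) ^ 2))
    (ell_aux_summable hδ) fun n => ?_
  rw [norm_mul, Complex.norm_real, Real.norm_eq_abs]
  calc ‖χ n‖ * |G κ (n * δ)| ≤ 1 * (1 / (1 + ((n : ℝ) * δ) ^ 2)) :=
        mul_le_mul (χ.norm_le_one _) (G_le hκ (by positivity)) (abs_nonneg _) zero_le_one
    _ = _ := one_mul _

theorem dD_eq_Dd {q : ℕ} (hq : 2 ≤ q) {κ : ℕ} (hκ : κ ≤ 1) {L : ℝ} (hL : 0 < L)
    (χ : DirichletCharacter ℂ q) (u : ℝ) :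
    dD κ L χ u = Dd κ (fun n => be L n) (NN L) χ u := by
  have hδ : 0 < Real.exp u := Real.exp_pos u
  set F : ℕ → ℂ := fun m => χ m * (G κ (m * Real.exp u) : ℂ) with hF
  have hFs : Summable F := chiG_summable hκ χ hδ
  have hF0 : F 0 = 0 := by
    have : ¬ IsUnit ((0 : ℕ) : ZMod q) := by
      rw [ZMod.isUnit_iff_coprime, Nat.coprime_zero_left]; omega
    simp only [hF]
    rw [χ.map_nonunit this, zero_mul]
  have term : ∀ k ∈ Finset.Ico 1 (NN L), ∀ l ∈ Finset.Ico 1 (NN L),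
      ((be L k * be L l / (√k * √l) : ℝ) : ℂ) * (χ k * χ l) *
        dens κ 1 χ (u + (Real.log k + Real.log l)) =
      2 * (Real.exp (u / 2) : ℂ) *
        ∑' m : ℕ, ((if k * l ∣ m then be L k * be L l else 0 : ℝ) : ℂ) * F m := by
    intro k hk l hl
    have hk0 : 0 < k := (Finset.mem_Ico.1 hk).1
    have hl0 : 0 < l := (Finset.mem_Ico.1 hl).1
    have hk0' : (0 : ℝ) < k := by exact_mod_cast hk0
    have hl0' : (0 : ℝ) < l := by exact_mod_cast hl0
    have e1 : Real.exp ((u + (Real.log k + Real.log l)) / 2) = Real.exp (u / 2) * (√k * √l) := by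
      rw [Real.sqrt_eq_rpow, Real.sqrt_eq_rpow, Real.rpow_def_of_pos hk0', Real.rpow_def_of_pos hl0',
        ← Real.exp_add, ← Real.exp_add]
      congr 1; ring
    have e2 : Real.exp (u + (Real.log k + Real.log l)) = k * l * Real.exp u := by
      rw [Real.exp_add, Real.exp_add, Real.exp_log hk0', Real.exp_log hl0']; ring
    have e3 : T κ 1 χ (Real.exp (u + (Real.log k + Real.log l))) =
        ∑' n : ℕ, χ n * (G κ (n * (k * l * Real.exp u)) : ℂ) := by
      rw [e2]
      unfold T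
      refine tsum_congr fun n => ?_
      rw [if_pos (Nat.coprime_one_right n)]
    have e4 : (χ k * χ l) * ∑' n : ℕ, χ n * (G κ (n * (k * l * Real.exp u)) : ℂ) =
        ∑' n : ℕ, F (n * (k * l)) := by
      rw [← tsum_mul_left]
      refine tsum_congr fun n => ?_
      simp only [hF]
      push_cast
      rw [map_mul, map_mul]
      have : (n : ℝ) * (k * l * Real.exp u) = n * (k * l) * Real.exp u := by ring
      rw [this]
      ring
    rw [tsum_mul_right_dvd F (Nat.mul_pos hk0 hl0)] at e4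
    have e5 : ∑' m : ℕ, ((if k * l ∣ m then be L k * be L l else 0 : ℝ) : ℂ) * F m =
        ((be L k * be L l : ℝ) : ℂ) * ∑' m : ℕ, if k * l ∣ m then F m else 0 := by
      rw [← tsum_mul_left]
      refine tsum_congr fun m => ?_
      split_ifs <;> simp
    rw [e5, ← e4]
    unfold dens
    rw [e1, e3]
    generalize (∑' n : ℕ, χ n * (G κ (n * (k * l * Real.exp u)) : ℂ)) = TT
    have hk1 : ((√k : ℝ) : ℂ) ≠ 0 := by
      have : 0 < √(k : ℝ) := Real.sqrt_pos.2 hk0'
      exact_mod_cast this.ne'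
    have hl1 : ((√l : ℝ) : ℂ) ≠ 0 := by
      have : 0 < √(l : ℝ) := Real.sqrt_pos.2 hl0'
      exact_mod_cast this.ne'
    push_cast
    field_simp
  unfold Dd
  rw [Finset.sum_congr rfl fun k hk => Finset.sum_congr rfl fun l hl => term k hk l hl]
  simp_rw [← Finset.mul_sum]
  unfold dD
  congr 1
  have hsm : ∀ k l : ℕ, Summable fun m : ℕ =>
      ((if k * l ∣ m then be L k * be L l else 0 : ℝ) : ℂ) * F m := by
    intro k l
    refine Summable.of_norm_bounded (g := fun m => |be L k * be L l| * ‖F m‖)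
      (hFs.norm.mul_left _) fun m => ?_
    rw [norm_mul]
    refine mul_le_mul_of_nonneg_right ?_ (norm_nonneg _)
    split_ifs
    · rw [Complex.norm_real, Real.norm_eq_abs]
    · simp only [ofReal_zero, norm_zero]
      positivity
  have hsum : ∀ k ∈ Finset.Ico 1 (NN L), ∑ l ∈ Finset.Ico 1 (NN L), ∑' m : ℕ,
      ((if k * l ∣ m then be L k * be L l else 0 : ℝ) : ℂ) * F m =
      ∑' m : ℕ, ∑ l ∈ Finset.Ico 1 (NN L),
        ((if k * l ∣ m then be L k * be L l else 0 : ℝ) : ℂ) * F m := fun k _ =>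
    (Summable.tsum_finsetSum fun l _ => hsm k l).symm
  rw [Finset.sum_congr rfl hsum,
    ← Summable.tsum_finsetSum (fun k _ => summable_sum fun l _ => hsm k l)]
  refine tsum_congr fun m => ?_
  rcases Nat.eq_zero_or_pos m with rfl | hm
  · simp [hF0]
  · rw [bb_sum_eq hL hm]
    simp_rw [← Finset.sum_mul]
    simp only [hF]
    push_cast
    ring

end Pool.Agent.SQS
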