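import Pool.Agent.Lib_helper24.SQ.Sec2F

/-!
# Two-parameter form: exceptional characters for `≤ h/H` odd zeros in some interval of length `h`
-/

noncomputable section

namespace Pool.Agent.SQS

open Complex MeasureTheory Filter Topology Pool.Agent.GRH
open scoped ENNReal

open Classical in
/-- primitive characters of parity `κ` with at most `m` odd critical zeros in some interval
`(x, x+h) ⊆ [-T, T]` -/
def BadS (q : ℕ) [NeZero q] (κ : ℕ) (T h : ℝ) (m : ℕ) : Finset (DirichletCharacter ℂ q) :=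
  Finset.univ.filter (fun χ => χ.IsPrimitive ∧ IsPar κ χ ∧
    ∃ x : ℝ, -T ≤ x ∧ x + h ≤ T ∧ (oddZ χ ∩ Set.Ioo x (x + h)).encard ≤ m)

theorem mem_BadS {q : ℕ} [NeZero q] {κ : ℕ} {T h : ℝ} {m : ℕ} {χ : DirichletCharacter ℂ q} :
    χ ∈ BadS q κ T h m ↔ χ.IsPrimitive ∧ IsPar κ χ ∧
      ∃ x : ℝ, -T ≤ x ∧ x + h ≤ T ∧ (oddZ χ ∩ Set.Ioo x (x + h)).encard ≤ m := by
  classical
  unfold BadS
  rw [Finset.mem_filter]
  simp

theorem badS_card {q : ℕ} [NeZero q] (hq : 2 ≤ q) {κ : ℕ} (hκ : κ ≤ 1) (β : ℕ → ℝ) (N : ℕ)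
    {T h c H Lc A1 A2 : ℝ} {m : ℕ} (hc : 0 ≤ c) (hH : 0 < H) (hL : 0 < Lc)
    (hA1 : 0 ≤ A1)
    (hlow : ∀ t : ℝ, -T ≤ t → t ≤ T →
      c * H ≤ ‖∫ s in t..(t + H), Gammaℝ (1 / 2 + κ + s * I)‖)
    (hHh : H ≤ h / 8) (hm : m * H ≤ 3 / 8 * h)
    (M1 : ∀ v, 0 ≤ v → v ≤ Lc → ∑ χ ∈ BadS q κ T h m, ‖fd κ β N χ v‖ ^ 2 ≤ A1)
    (M2 : ∑ χ ∈ BadS q κ T h m, ∫ v in Set.Ioi 0, ‖fd κ β N χ v‖ ^ 2 ≤ A2)
    (M3 : ∀ u, |u| ≤ Lc → ∑ χ ∈ BadS q κ T h m, ‖Dd κ β N χ u - dens₁ κ u‖ ^ 2 ≤ A1) :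
    (BadS q κ T h m).card * ((c * H) ^ 2 * (h / 2)) ≤
      2 * (4 * Real.pi * (A1 * (2 * Real.pi * H) + 4 / Lc ^ 2 * A2)) +
      2 * (2 * Real.pi * (A1 * (2 * Real.pi * H) +
        4 / Lc ^ 2 * (4 * A2 + (BadS q κ T h m).card * (2 * ∫ u, ‖dens₁ κ u‖ ^ 2)))) := by
  have hS : ∀ χ ∈ BadS q κ T h m, χ.IsPrimitive ∧ χ ≠ 1 ∧ IsPar κ χ := by
    intro χ hχ
    obtain ⟨h1, h2, _⟩ := mem_BadS.1 hχ
    exact ⟨h1, prim_ne_one hq h1, h2⟩
  have hU := U_sum hq β N (BadS q κ T h m) hS hH.le hL hA1 M1 M2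
  have hV := V_sum hq hκ β N (BadS q κ T h m) hS hH.le hL hA1 M3 M2
  have hone : ∀ χ ∈ BadS q κ T h m, (c * H) ^ 2 * (h / 2) ≤
      2 * (∫ t, ‖hat (fun u => fd κ β N χ u * win H u) t‖ ^ 2) +
      2 * ∫ t, ‖hat (fun u => (Dd κ β N χ u - dens₁ κ u) * win H u) t‖ ^ 2 := by
    intro χ hχ
    obtain ⟨h1, h2, x, hx, hx', hlt⟩ := mem_BadS.1 hχ
    have hfin : (oddZ χ ∩ Set.Ioo x (x + h)).Finite := by
      rw [← Set.encard_lt_top_iff]
      exact hlt.trans_lt (ENat.natCast_lt_top _)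
    refine bad_one hq β N χ h1 (prim_ne_one hq h1) h2 hc hH hlow hx hx' hHh hfin.toFinset
      (fun t ht => by simpa using ht) ?_
    rw [hfin.encard_eq_coe_toFinset_card] at hlt
    have h3 : hfin.toFinset.card ≤ m := by exact_mod_cast hlt
    have h4 : (hfin.toFinset.card : ℝ) ≤ m := by exact_mod_cast h3
    refine le_trans ?_ hm
    gcongr
  calc (BadS q κ T h m).card * ((c * H) ^ 2 * (h / 2))
      = ∑ χ ∈ BadS q κ T h m, (c * H) ^ 2 * (h / 2) := by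
        rw [Finset.sum_const, nsmul_eq_mul]
    _ ≤ ∑ χ ∈ BadS q κ T h m,
        (2 * (∫ t, ‖hat (fun u => fd κ β N χ u * win H u) t‖ ^ 2) +
          2 * ∫ t, ‖hat (fun u => (Dd κ β N χ u - dens₁ κ u) * win H u) t‖ ^ 2) :=
        Finset.sum_le_sum hone
    _ ≤ _ := by
        rw [Finset.sum_add_distrib, ← Finset.mul_sum, ← Finset.mul_sum]
        gcongr

theorem badS_card_le_totient {q : ℕ} [NeZero q] (κ : ℕ) (T h : ℝ) (m : ℕ) :
    ((BadS q κ T h m).card : ℝ) ≤ q.totient := by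
  have h1 : (BadS q κ T h m).card ≤ Fintype.card (DirichletCharacter ℂ q) :=
    Finset.card_le_univ _
  have h2 : Fintype.card (DirichletCharacter ℂ q) = q.totient := by
    rw [← Nat.card_eq_fintype_card]
    exact DirichletCharacter.card_eq_totient_of_hasEnoughRootsOfUnity ℂ q
  rw [h2] at h1
  exact_mod_cast h1

/-- one modulus, one parity, window `Hs` -/
theorem badS_window {κ q : ℕ} [NeZero q] (hq : 2 ≤ q) (hκ : κ ≤ 1) {C : ℝ} (hC : 0 ≤ C)
    {β : ℕ → ℝ} {N : ℕ} (hM : Means κ q C β N) {T h c₀ Hs K : ℝ} {m : ℕ} (hc₀ : 0 < c₀)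
    (hHs : 0 < Hs) (hh : 0 < h)
    (hlow : ∀ t : ℝ, -T ≤ t → t ≤ T →
      c₀ * Hs ≤ ‖∫ s in t..(t + Hs), Gammaℝ (1 / 2 + κ + s * I)‖)
    (hHh : Hs ≤ h / 8) (hm : m * Hs ≤ 3 / 8 * h)
    (hK : K = 2 * (4 * Real.pi * (C * (2 * Real.pi) + 4 * 64 ^ 2 * C)) +
      2 * (2 * Real.pi * (C * (2 * Real.pi) + 4 * 64 ^ 2 * (4 * C + 2 * ∫ u, ‖dens₁ κ u‖ ^ 2))))
    (hHL : 1 ≤ Hs * Real.log q) :
    ((BadS q κ T h m).card : ℝ) ≤ 4 * K / c₀ ^ 2 * q.totient / (h * Hs * Real.log q) := by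
  have hpi := Real.pi_pos
  set E : ℝ := ∫ u, ‖dens₁ κ u‖ ^ 2 with hE
  have hE0 : 0 ≤ E := integral_nonneg fun u => by positivity
  have hK0 : 0 ≤ K := by rw [hK]; positivity
  set L : ℝ := Real.log q with hL
  have hL0 : 0 < L := by
    by_contra hcon
    push Not at hcon
    have : Hs * L ≤ 0 := mul_nonpos_of_nonneg_of_nonpos hHs.le hcon
    linarith
  have hfin : ∀ χ ∈ BadS q κ T h m, χ.IsPrimitive ∧ χ ≠ 1 ∧ IsPar κ χ := by
    intro χ hχ
    obtain ⟨h1, h2, _⟩ := mem_BadS.1 hχ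
    exact ⟨h1, prim_ne_one hq h1, h2⟩
  have hφ : (0 : ℝ) ≤ q.totient := by positivity
  have hsub : ∀ g : DirichletCharacter ℂ q → ℝ, (∀ χ, 0 ≤ g χ) →
      ∑ χ ∈ BadS q κ T h m, g χ ≤ ∑ χ : DirichletCharacter ℂ q, g χ := fun g hg =>
    Finset.sum_le_sum_of_subset_of_nonneg (Finset.subset_univ _) fun χ _ _ => hg χ
  have key := badS_card hq hκ β N (T := T) (h := h) (c := c₀) (m := m) (H := Hs)
    (Lc := L / 64) (A1 := C * q.totient / L) (A2 := C * q.totient) hc₀.le hHs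
    (by positivity) (by positivity) hlow hHh hm
    (fun v h1 h2 => (hsub _ fun χ => by positivity).trans (hM.M1 v h1 h2))
    (by
      rw [← integral_finsetSum _ fun χ hχ =>
        (fd_nice hq β N χ (hfin χ hχ).2.1 (hfin χ hχ).2.2).sq.integrableOn]
      refine le_trans ?_ hM.M2
      refine setIntegral_mono_on (integrable_finsetSum _ fun χ hχ =>
        (fd_nice hq β N χ (hfin χ hχ).2.1 (hfin χ hχ).2.2).sq.integrableOn) hM.M2i
        measurableSet_Ioi fun v _ => hsub _ fun χ => by positivity)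
    (fun u h1 => (hsub _ fun χ => by positivity).trans (hM.M3 u h1))
  have hcard : ((BadS q κ T h m).card : ℝ) ≤ q.totient := badS_card_le_totient κ T h m
  set n : ℝ := ((BadS q κ T h m).card : ℝ) with hn
  have hn0 : 0 ≤ n := by positivity
  have step : n * ((c₀ * Hs) ^ 2 * (h / 2)) ≤ K * q.totient * (Hs / L + 1 / L ^ 2) := by
    refine key.trans ?_
    have h64 : (4 : ℝ) / (L / 64) ^ 2 = 4 * 64 ^ 2 * (1 / L ^ 2) := by
      field_simp
    rw [h64]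
    have e1 : C * q.totient / L * (2 * Real.pi * Hs) =
        C * (2 * Real.pi) * q.totient * (Hs / L) := by
      field_simp
    rw [e1, hK]
    exact alg_bound hpi.le hC hφ (by positivity) (by positivity) hE0 hcard
  have hHL' : Hs / L + 1 / L ^ 2 ≤ 2 * (Hs / L) := by
    have : 1 / L ^ 2 ≤ Hs / L := by
      rw [div_le_div_iff₀ (by positivity) hL0]
      nlinarith
    linarith
  have step2 : n * ((c₀ * Hs) ^ 2 * (h / 2)) ≤ K * q.totient * (2 * (Hs / L)) :=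
    step.trans (by gcongr)
  rw [le_div_iff₀ (by positivity)]
  have e2 : n * ((c₀ * Hs) ^ 2 * (h / 2)) = (n * (h * Hs * L)) * (c₀ ^ 2 * Hs / (2 * L)) := by
    field_simp
  have e3 : K * q.totient * (2 * (Hs / L)) =
      (4 * K / c₀ ^ 2 * q.totient) * (c₀ ^ 2 * Hs / (2 * L)) := by
    field_simp
    ring
  rw [e2, e3] at step2
  exact le_of_mul_le_mul_right step2 (by positivity)

/-- Theorem A for one parity -/
theorem badS_kappa {κ : ℕ} (hκ : κ ≤ 1) {C : ℝ} (hC : 0 ≤ C)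
    (hM : ∃ Q₀ : ℕ, ∀ (q : ℕ) [NeZero q], Q₀ ≤ q → ∃ β : ℕ → ℝ, ∃ N : ℕ, Means κ q C β N)
    (T : ℝ) : ∃ C' : ℝ, 0 < C' ∧ ∀ (q : ℕ) [NeZero q], 2 ≤ q → ∀ h H : ℝ, 0 < H → H ≤ h →
      ((BadS q κ T h ⌊h / H⌋₊).card : ℝ) ≤ C' * q.totient / (h * H * Real.log q) := by
  obtain ⟨Q₀, hM⟩ := hM
  obtain ⟨c₀, hc₀, H₀, hH₀, hlow⟩ := gamma_low κ T
  have hpi := Real.pi_pos
  obtain ⟨K, hK⟩ : ∃ K : ℝ, K = 2 * (4 * Real.pi * (C * (2 * Real.pi) + 4 * 64 ^ 2 * C)) +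
      2 * (2 * Real.pi * (C * (2 * Real.pi) + 4 * 64 ^ 2 *
        (4 * C + 2 * ∫ u, ‖dens₁ κ u‖ ^ 2))) := ⟨_, rfl⟩
  have hE0 : 0 ≤ ∫ u, ‖dens₁ κ u‖ ^ 2 := integral_nonneg fun u => by positivity
  have hK0 : 0 ≤ K := by rw [hK]; positivity
  set U : ℝ := |T| + 1 with hU
  have hU0 : 0 < U := by positivity
  -- constants
  set B : ℝ := (4 * K / c₀ ^ 2 + 2 * U) * (8 + 2 * U / H₀) with hB
  have hB0 : 0 < B := by positivity
  set C' : ℝ := B + (2 * U) ^ 2 * (Real.log (max Q₀ 2 : ℕ) + 1) with hC'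
  have hlogQ : 0 ≤ Real.log (max Q₀ 2 : ℕ) := Real.log_natCast_nonneg _
  have hC'0 : 0 < C' := by positivity
  refine ⟨C', hC'0, fun q _ hq h H hH hHh => ?_⟩
  have hh : 0 < h := lt_of_lt_of_le hH hHh
  have hφ : (0 : ℝ) ≤ q.totient := by positivity
  have hlog0 : 0 < Real.log q := Real.log_pos (by exact_mod_cast hq)
  set m : ℕ := ⌊h / H⌋₊ with hm
  -- if h > 2T nothing to prove
  by_cases hT : h ≤ 2 * U
  swap
  · have : BadS q κ T h m = ∅ := by
      rw [Finset.eq_empty_iff_forall_notMem]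
      intro χ hχ
      obtain ⟨_, _, x, hx, hx', _⟩ := mem_BadS.1 hχ
      have := le_abs_self T
      have := neg_abs_le T
      push Not at hT
      rw [hU] at hT
      linarith
    rw [this]
    simp only [Finset.card_empty, Nat.cast_zero]
    positivity
  have hcard : ((BadS q κ T h m).card : ℝ) ≤ q.totient := badS_card_le_totient κ T h m
  have hH2 : H ≤ 2 * U := hHh.trans hT
  have hhH : h * H ≤ (2 * U) ^ 2 := by
    rw [sq]; exact mul_le_mul hT hH2 hH.le (by positivity)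
  by_cases hqQ : Q₀ ≤ q
  swap
  · -- small q
    refine hcard.trans ?_
    rw [le_div_iff₀ (by positivity), mul_comm]
    refine mul_le_mul_of_nonneg_right ?_ hφ
    have h1 : Real.log q ≤ Real.log (max Q₀ 2 : ℕ) := by
      apply Real.log_le_log (by positivity)
      have : q ≤ max Q₀ 2 := by omega
      exact_mod_cast this
    calc h * H * Real.log q ≤ (2 * U) ^ 2 * (Real.log (max Q₀ 2 : ℕ) + 1) := by
          apply mul_le_mul hhH (by linarith) hlog0.le (by positivity)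
      _ ≤ C' := by rw [hC']; linarith
  obtain ⟨β, N, hMq⟩ := hM q hqQ
  set Hs : ℝ := min (H / 8) H₀ with hHs
  have hHs0 : 0 < Hs := lt_min (by positivity) hH₀
  have hHs8 : Hs ≤ H / 8 := min_le_left _ _
  have hHsH₀ : Hs ≤ H₀ := min_le_right _ _
  have hinv : 1 / Hs ≤ (8 + 2 * U / H₀) / H := by
    rcases min_choice (H / 8) H₀ with h1 | h1
    · rw [hHs, h1, div_le_div_iff₀ (by positivity) hH]
      have : 0 ≤ 2 * U / H₀ * (H / 8) := by positivity
      nlinarith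
    · rw [hHs, h1, div_le_div_iff₀ hH₀ hH]
      have e : (8 + 2 * U / H₀) * H₀ = 8 * H₀ + 2 * U := by field_simp
      rw [e]
      linarith
  have main : ((BadS q κ T h m).card : ℝ) ≤
      (4 * K / c₀ ^ 2 + 2 * U) * q.totient / (h * Hs * Real.log q) := by
    by_cases hHL : 1 ≤ Hs * Real.log q
    · have h1 := badS_window hq hκ hC hMq (T := T) (h := h) (c₀ := c₀) (Hs := Hs) (K := K) (m := m)
        hc₀ hHs0 hh (fun t ht ht' => hlow t ht ht' Hs hHs0.le hHsH₀) (by linarith) (by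
          have h2 : (m : ℝ) ≤ h / H := Nat.floor_le (by positivity)
          calc (m : ℝ) * Hs ≤ (h / H) * (H / 8) := by gcongr
            _ = h / 8 := by field_simp
            _ ≤ 3 / 8 * h := by linarith) hK hHL
      refine h1.trans ?_
      gcongr
      linarith
    · push Not at hHL
      refine hcard.trans ?_
      rw [le_div_iff₀ (by positivity)]
      calc (q.totient : ℝ) * (h * Hs * Real.log q) = q.totient * h * (Hs * Real.log q) := by ring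
        _ ≤ q.totient * (2 * U) * 1 := by gcongr
        _ ≤ (4 * K / c₀ ^ 2 + 2 * U) * q.totient := by
          have : 0 ≤ 4 * K / c₀ ^ 2 * q.totient := by positivity
          nlinarith
  refine main.trans ?_
  have e1 : (4 * K / c₀ ^ 2 + 2 * U) * q.totient / (h * Hs * Real.log q) =
      (4 * K / c₀ ^ 2 + 2 * U) * q.totient / (h * Real.log q) * (1 / Hs) := by
    field_simp
  rw [e1]
  calc (4 * K / c₀ ^ 2 + 2 * U) * q.totient / (h * Real.log q) * (1 / Hs)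
      ≤ (4 * K / c₀ ^ 2 + 2 * U) * q.totient / (h * Real.log q) * ((8 + 2 * U / H₀) / H) := by
        gcongr
    _ = B * q.totient / (h * H * Real.log q) := by
        rw [hB]; field_simp
    _ ≤ C' * q.totient / (h * H * Real.log q) := by
        gcongr
        rw [hC']
        have : 0 ≤ (2 * U) ^ 2 * (Real.log (max Q₀ 2 : ℕ) + 1) := by positivity
        linarith

/-- Theorem A -/
theorem thmA_of_means {C : ℝ} (hC : 0 ≤ C)
    (hM : ∀ κ : ℕ, κ ≤ 1 → ∃ Q₀ : ℕ, ∀ (q : ℕ) [NeZero q], Q₀ ≤ q →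
      ∃ β : ℕ → ℝ, ∃ N : ℕ, Means κ q C β N)
    (T : ℝ) : ∃ C' : ℝ, 0 < C' ∧ ∀ (q : ℕ) [NeZero q], 2 ≤ q → ∀ h H : ℝ, 0 < H → H ≤ h →
      (Nat.card {χ : DirichletCharacter ℂ q // χ.IsPrimitive ∧
        ∃ x : ℝ, -T ≤ x ∧ x + h ≤ T ∧
          {t : ℝ | x < t ∧ t < x + h ∧
            Odd (analyticOrderNatAt (DirichletCharacter.completedLFunction χ)
              (1 / 2 + t * I))}.encard ≤ ⌊h / H⌋₊} : ℝ) ≤
        C' * q.totient / (h * H * Real.log q) := by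
  classical
  obtain ⟨C0, hC0, h0⟩ := badS_kappa (κ := 0) (by norm_num) hC (hM 0 (by norm_num)) T
  obtain ⟨C1, hC1, h1⟩ := badS_kappa (κ := 1) (by norm_num) hC (hM 1 (by norm_num)) T
  refine ⟨C0 + C1, by positivity, fun q _ hq h H hH hHh => ?_⟩
  have h0' := h0 q hq h H hH hHh
  have h1' := h1 q hq h H hH hHh
  rw [Nat.card_eq_fintype_card, Fintype.card_subtype]
  have hsub : (Finset.univ.filter fun χ : DirichletCharacter ℂ q => χ.IsPrimitive ∧
        ∃ x : ℝ, -T ≤ x ∧ x + h ≤ T ∧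
          {t : ℝ | x < t ∧ t < x + h ∧
            Odd (analyticOrderNatAt (DirichletCharacter.completedLFunction χ)
              (1 / 2 + t * I))}.encard ≤ ⌊h / H⌋₊) ⊆
      BadS q 0 T h ⌊h / H⌋₊ ∪ BadS q 1 T h ⌊h / H⌋₊ := by
    intro χ hχ
    obtain ⟨_, hp, x, hx, hx', hlt⟩ := Finset.mem_filter.1 hχ
    have hset : {t : ℝ | x < t ∧ t < x + h ∧
            Odd (analyticOrderNatAt (DirichletCharacter.completedLFunction χ)
              (1 / 2 + t * I))} = oddZ χ ∩ Set.Ioo x (x + h) := by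
      ext t
      simp only [oddZ, Set.mem_ofPred_eq, Set.mem_inter_iff, Set.mem_Ioo]
      tauto
    rw [hset] at hlt
    rcases χ.even_or_odd with he | ho
    · exact Finset.mem_union_left _ (mem_BadS.2 ⟨hp, Or.inl ⟨rfl, he⟩, x, hx, hx', hlt⟩)
    · exact Finset.mem_union_right _ (mem_BadS.2 ⟨hp, Or.inr ⟨rfl, ho⟩, x, hx, hx', hlt⟩)
  have h3 := (Finset.card_le_card hsub).trans (Finset.card_union_le _ _)
  have h4 : ((Finset.univ.filter fun χ : DirichletCharacter ℂ q => χ.IsPrimitive ∧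
        ∃ x : ℝ, -T ≤ x ∧ x + h ≤ T ∧
          {t : ℝ | x < t ∧ t < x + h ∧
            Odd (analyticOrderNatAt (DirichletCharacter.completedLFunction χ)
              (1 / 2 + t * I))}.encard ≤ ⌊h / H⌋₊).card : ℝ) ≤
      (BadS q 0 T h ⌊h / H⌋₊).card + (BadS q 1 T h ⌊h / H⌋₊).card := by exact_mod_cast h3
  refine h4.trans ?_
  have e : (C0 + C1) * q.totient / (h * H * Real.log q) =
      C0 * q.totient / (h * H * Real.log q) + C1 * q.totient / (h * H * Real.log q) := by ring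
  rw [e]
  linarith

end Pool.Agent.SQS
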