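import Pool.Agent.Lib_helper24.SQ.Bridge
import Pool.Agent.Lib_helper24.SQ.Sec2G

/-!
# Final theorem from the wanted mean values of `Lib_helper92/SQ/Wanted.lean`
-/

noncomputable section

namespace Pool.Agent.SQS

open Complex MeasureTheory Filter Topology Pool.Agent.GRH Pool.Agent.SQ
open scoped ENNReal

/-- the three mean values give `Means` for all large moduli -/
theorem means_of_wanted
    (mean_f1 : ∃ C : ℝ, 0 ≤ C ∧ ∀ κ : ℕ, κ ≤ 1 → ∀ (L : ℝ) (q : ℕ) [NeZero q], 1 ≤ L →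
      32 * L = Real.log q → ∀ v : ℝ, 0 ≤ v → v ≤ L / 2 →
        ∑ χ : DirichletCharacter ℂ q, ‖dF κ L χ v‖ ^ 2 ≤ C * q.totient / L)
    (mean_f2 : ∃ C : ℝ, 0 ≤ C ∧ ∀ κ : ℕ, κ ≤ 1 → ∀ (L : ℝ) (q : ℕ) [NeZero q], 1 ≤ L →
      32 * L = Real.log q →
        IntegrableOn (fun v => ∑ χ : DirichletCharacter ℂ q, ‖dF κ L χ v‖ ^ 2) (Set.Ioi 0) ∧
        ∫ v in Set.Ioi (0 : ℝ), ∑ χ : DirichletCharacter ℂ q, ‖dF κ L χ v‖ ^ 2 ≤
          C * q.totient)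
    (mean_D : ∃ C : ℝ, 0 ≤ C ∧ ∀ κ : ℕ, κ ≤ 1 → ∀ (L : ℝ) (q : ℕ) [NeZero q], 1 ≤ L →
      32 * L = Real.log q → ∀ u : ℝ, |u| ≤ L / 2 →
        ∑ χ : DirichletCharacter ℂ q, ‖dD κ L χ u - dens₁ κ u‖ ^ 2 ≤ C * q.totient / L) :
    ∃ C : ℝ, 0 ≤ C ∧ ∀ κ : ℕ, κ ≤ 1 → ∃ Q₀ : ℕ, ∀ (q : ℕ) [NeZero q], Q₀ ≤ q →
      ∃ β : ℕ → ℝ, ∃ N : ℕ, Means κ q C β N := by
  obtain ⟨C1, hC1, h1⟩ := mean_f1
  obtain ⟨C2, hC2, h2⟩ := mean_f2
  obtain ⟨C3, hC3, h3⟩ := mean_D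
  set C : ℝ := 32 * (C1 + C2 + C3) with hC
  have hC0 : 0 ≤ C := by positivity
  refine ⟨C, hC0, fun κ hκ => ?_⟩
  have htend : Tendsto (fun q : ℕ => Real.log q) atTop atTop :=
    Real.tendsto_log_atTop.comp tendsto_natCast_atTop_atTop
  obtain ⟨Q₁, hQ₁⟩ := (tendsto_atTop.1 htend 32).exists_forall_of_atTop
  refine ⟨max 2 Q₁, fun q _ hq => ?_⟩
  have hq2 : 2 ≤ q := (le_max_left _ _).trans hq
  have hlog := hQ₁ q ((le_max_right _ _).trans hq)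
  set L : ℝ := Real.log q / 32 with hL
  have hL1 : 1 ≤ L := by rw [hL]; linarith
  have hL0 : 0 < L := by linarith
  have hL32 : 32 * L = Real.log q := by rw [hL]; ring
  refine ⟨fun n => be L n, NN L, ?_⟩
  have hφ : (0 : ℝ) ≤ q.totient := by positivity
  have hle : ∀ C' : ℝ, 0 ≤ C' → C' ≤ C1 + C2 + C3 → C' * q.totient / L ≤
      C * q.totient / Real.log q := by
    intro C' h0 h'
    rw [← hL32]
    have : C * q.totient / (32 * L) = (C1 + C2 + C3) * q.totient / L := by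
      rw [hC]; field_simp
    rw [this]
    gcongr
  refine ⟨fun v hv hv' => ?_, ?_, ?_, fun u hu => ?_⟩
  · have := h1 κ hκ L q hL1 hL32 v hv (by rw [hL]; linarith)
    simp only [dF_eq_fd] at this
    exact this.trans (hle C1 hC1 (by linarith))
  · have := (h2 κ hκ L q hL1 hL32).1
    simpa only [dF_eq_fd] using this
  · have := (h2 κ hκ L q hL1 hL32).2
    simp only [dF_eq_fd] at this
    refine this.trans ?_
    gcongr
    rw [hC]; linarith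
  · have := h3 κ hκ L q hL1 hL32 u (by rw [hL]; linarith)
    simp only [dD_eq_Dd hq2 hκ hL0] at this
    exact this.trans (hle C3 hC3 (by linarith))

end Pool.Agent.SQS
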