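import Mathlib

open MeasureTheory Complex Real FourierTransform SchwartzMap
open scoped ContDiff ENNReal ComplexInnerProductSpace

noncomputable section

namespace Pool.Agent.SQS

/-- multiplication formula for an integrable function and a Schwartz function. -/
theorem mult_formula (h : ℝ → ℂ) (h1 : Integrable h) (ψ : 𝓢(ℝ, ℂ)) :
    ∫ x, (ψ x) • (𝓕 h) x = ∫ x, ((𝓕 ψ) x) • h x := by
  have := VectorFourier.integral_fourierIntegral_smul_eq_flip (L := innerₗ ℝ) (μ := volume)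
    (ν := volume) continuous_fourierChar continuous_inner h1 ψ.integrable
  have e1 : ∫ x, (ψ x) • (𝓕 h) x
      = ∫ (ξ : ℝ), VectorFourier.fourierIntegral Real.fourierChar volume (innerₗ ℝ) h ξ • ψ ξ := by
    refine integral_congr_ae (Filter.Eventually.of_forall fun x => ?_)
    simp only [smul_eq_mul]
    rw [mul_comm]; rfl
  rw [e1, this]
  refine integral_congr_ae (Filter.Eventually.of_forall fun x => ?_)
  simp only [smul_eq_mul]
  rw [mul_comm]
  congr 1
  rw [SchwartzMap.fourier_coe]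
  rw [Real.fourier_eq]
  simp [VectorFourier.fourierIntegral]

theorem ae_eq_of_schwartz (a b : ℝ → ℂ) (ha : LocallyIntegrable a) (hb : LocallyIntegrable b)
    (h : ∀ ψ : 𝓢(ℝ, ℂ), ∫ x, ψ x • a x = ∫ x, ψ x • b x) (hai : ∀ ψ : 𝓢(ℝ, ℂ), Integrable (fun x => ψ x • a x))
    (hbi : ∀ ψ : 𝓢(ℝ, ℂ), Integrable (fun x => ψ x • b x)) : a =ᵐ[volume] b := by
  have : ∀ᵐ x, (a - b) x = 0 := by
    apply ae_eq_zero_of_integral_contDiff_smul_eq_zero (ha.sub hb)
    intro g g_smooth g_cpt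
    have hg₁ : HasCompactSupport (Complex.ofRealCLM ∘ g) := g_cpt.comp_left rfl
    have hg₂ : ContDiff ℝ ∞ (Complex.ofRealCLM ∘ g) := by fun_prop
    have := h (hg₁.toSchwartzMap hg₂)
    have e : ∫ x, g x • (a - b) x = ∫ x, ((hg₁.toSchwartzMap hg₂) x • a x - (hg₁.toSchwartzMap hg₂) x • b x) := by
      refine integral_congr_ae (Filter.Eventually.of_forall fun x => ?_)
      simp [smul_sub]
    rw [e, integral_sub (hai _) (hbi _), this, sub_self]
  filter_upwards [this] with x hx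
  simpa [sub_eq_zero] using hx

theorem smul_memLp_integrable (g : Lp ℂ 2 (volume : Measure ℝ)) (ψ : 𝓢(ℝ, ℂ)) :
    Integrable (fun x => ψ x • (g : ℝ → ℂ) x) := by
  have h1 : MemLp (g : ℝ → ℂ) 2 volume := Lp.memLp g
  have h2 : MemLp (fun x => ψ x) 2 volume := ψ.memLp 2
  have := MemLp.integrable_mul h2 h1
  exact this

theorem smul_bdd_integrable (h : ℝ → ℂ) (h1 : Integrable h) (ψ : 𝓢(ℝ, ℂ)) :
    Integrable (fun x => ψ x • (𝓕 h) x) := by
  have hc : Continuous (𝓕 h) := by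
    exact VectorFourier.fourierIntegral_continuous continuous_fourierChar continuous_inner h1
  have hb : ∀ x, ‖(𝓕 h) x‖ ≤ ∫ y, ‖h y‖ := fun x =>
    VectorFourier.norm_fourierIntegral_le_integral_norm _ _ _ _ _
  have := ψ.integrable (μ := volume)
  exact this.mul_bdd hc.aestronglyMeasurable (Filter.Eventually.of_forall hb)

theorem smul_int_integrable (h : ℝ → ℂ) (h1 : Integrable h) (ψ : 𝓢(ℝ, ℂ)) :
    Integrable (fun x => ψ x • h x) := by
  have hb : ∃ C, ∀ x, ‖ψ x‖ ≤ C := by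
    obtain ⟨C, hC⟩ := ψ.decay 0 0
    exact ⟨C, fun x => by simpa using hC.2 x⟩
  obtain ⟨C, hC⟩ := hb
  exact h1.bdd_mul ψ.continuous.aestronglyMeasurable (Filter.Eventually.of_forall hC)

/-- Plancherel for `L¹ ∩ L²`. -/
theorem planch1 (h : ℝ → ℂ) (h1 : Integrable h) (h2 : MemLp h 2) :
    MemLp (𝓕 h) 2 ∧ eLpNorm (𝓕 h) 2 volume = eLpNorm h 2 volume := by
  set g : Lp ℂ 2 (volume : Measure ℝ) := 𝓕 (h2.toLp h) with hg
  have key : (𝓕 h) =ᵐ[volume] (g : ℝ → ℂ) := by
    refine ae_eq_of_schwartz _ _ ?_ ?_ ?_ (smul_bdd_integrable h h1) (smul_memLp_integrable g)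
    · exact (VectorFourier.fourierIntegral_continuous continuous_fourierChar continuous_inner
        h1).locallyIntegrable
    · exact (Lp.memLp g).locallyIntegrable (by norm_num)
    · intro ψ
      rw [mult_formula h h1]
      have e := congrArg (fun T => T ψ) (Lp.fourier_toTemperedDistribution_eq (h2.toLp h))
      simp only [TemperedDistribution.fourier_apply, Lp.toTemperedDistribution_apply] at e
      rw [← hg] at e
      rw [← e]
      refine integral_congr_ae ?_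
      filter_upwards [h2.coeFn_toLp] with x hx
      rw [hx]
  have hg2 : MemLp (g : ℝ → ℂ) 2 volume := Lp.memLp g
  refine ⟨(memLp_congr_ae key).2 hg2, ?_⟩
  rw [eLpNorm_congr_ae key]
  have e := Lp.norm_fourier_eq (h2.toLp h)
  rw [← hg, Lp.norm_def, Lp.norm_def] at e
  have e2 := (ENNReal.toReal_eq_toReal_iff' (Lp.eLpNorm_ne_top g) (Lp.eLpNorm_ne_top _)).1 e
  rw [e2, eLpNorm_congr_ae h2.coeFn_toLp]

/-- Plancherel for `h ∈ L¹` with square integrable transform. -/
theorem planch2 (h : ℝ → ℂ) (h1 : Integrable h) (h2 : MemLp (𝓕 h) 2) :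
    MemLp h 2 ∧ eLpNorm (𝓕 h) 2 volume = eLpNorm h 2 volume := by
  set g : Lp ℂ 2 (volume : Measure ℝ) := 𝓕⁻ (h2.toLp (𝓕 h)) with hg
  have key : h =ᵐ[volume] (g : ℝ → ℂ) := by
    refine ae_eq_of_schwartz _ _ ?_ ?_ ?_ (smul_int_integrable h h1) (smul_memLp_integrable g)
    · exact h1.locallyIntegrable
    · exact (Lp.memLp g).locallyIntegrable (by norm_num)
    · intro ψ
      have e := congrArg (fun T => T ψ) (Lp.fourierInv_toTemperedDistribution_eq (h2.toLp (𝓕 h)))
      simp only [TemperedDistribution.fourierInv_apply, Lp.toTemperedDistribution_apply] at e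
      rw [← hg] at e
      rw [← e]
      have e3 := mult_formula h h1 (𝓕⁻ ψ)
      rw [FourierTransform.fourier_fourierInv_eq] at e3
      rw [← e3]
      refine integral_congr_ae ?_
      filter_upwards [h2.coeFn_toLp] with x hx
      rw [hx]
  have hg2 : MemLp (g : ℝ → ℂ) 2 volume := Lp.memLp g
  have hh2 : MemLp h 2 volume := (memLp_congr_ae key).2 hg2
  exact ⟨hh2, (planch1 h h1 hh2).2⟩

/-- our normalisation. -/
def hat (h : ℝ → ℂ) (t : ℝ) : ℂ := ∫ u : ℝ, h u * cexp (t * u * I)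

theorem hat_eq (h : ℝ → ℂ) (t : ℝ) : hat h t = (𝓕 h) (-(t / (2 * π))) := by
  rw [Real.fourier_real_eq_integral_exp_smul, hat]
  refine integral_congr_ae (Filter.Eventually.of_forall fun u => ?_)
  simp only [smul_eq_mul]
  rw [mul_comm]
  congr 2
  push_cast
  have : (π : ℂ) ≠ 0 := by exact_mod_cast Real.pi_ne_zero
  field_simp

theorem hat_eq_comp (h : ℝ → ℂ) : hat h = fun t => (𝓕 h) (t * (-(2 * π)⁻¹)) := by
  funext t
  rw [hat_eq, div_eq_mul_inv, mul_neg]

theorem hat_fourier (h : ℝ → ℂ) : (fun x => hat h (-(2 * π) * x)) = 𝓕 h := by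
  funext x
  rw [hat_eq]
  have := Real.pi_ne_zero
  field_simp

theorem sq_of_memLp (h : ℝ → ℂ) (h2 : MemLp h 2) : Integrable (fun u => ‖h u‖ ^ 2) := by
  simpa using h2.integrable_norm_rpow (by norm_num) (by norm_num)

theorem memLp_of_sq (h : ℝ → ℂ) (hm : AEStronglyMeasurable h volume)
    (h2 : Integrable (fun u => ‖h u‖ ^ 2)) : MemLp h 2 := by
  rw [← integrable_norm_rpow_iff hm (by norm_num) (by norm_num)]
  simpa using h2

theorem int_sq_eq (a b : ℝ → ℂ) (ha : MemLp a 2) (hb : MemLp b 2)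
    (h : eLpNorm a 2 volume = eLpNorm b 2 volume) : ∫ x, ‖a x‖ ^ 2 = ∫ x, ‖b x‖ ^ 2 := by
  have ea := ha.eLpNorm_eq_integral_rpow_norm (by norm_num) (by norm_num)
  have eb := hb.eLpNorm_eq_integral_rpow_norm (by norm_num) (by norm_num)
  rw [ea, eb] at h
  have pa : 0 ≤ ∫ x, ‖a x‖ ^ 2 := integral_nonneg fun x => by positivity
  have pb : 0 ≤ ∫ x, ‖b x‖ ^ 2 := integral_nonneg fun x => by positivity
  simp only [ENNReal.toReal_ofNat, Real.rpow_ofNat] at h
  rw [ENNReal.ofReal_eq_ofReal_iff (by positivity) (by positivity)] at h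
  have := congrArg (fun z : ℝ => z ^ 2) h
  beta_reduce at this
  rw [← Real.rpow_natCast, ← Real.rpow_natCast, ← Real.rpow_mul pa, ← Real.rpow_mul pb] at this
  norm_num at this
  exact this

theorem PL1 (h : ℝ → ℂ) (h1 : Integrable h) (h2 : Integrable (fun u => ‖h u‖ ^ 2)) :
    Integrable (fun t => ‖hat h t‖ ^ 2) ∧ ∫ t, ‖hat h t‖ ^ 2 = 2 * π * ∫ u, ‖h u‖ ^ 2 := by
  have hm := memLp_of_sq h h1.1 h2
  obtain ⟨hF, he⟩ := planch1 h h1 hm
  have hFi := sq_of_memLp _ hF
  have e := int_sq_eq _ _ hF hm he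
  rw [hat_eq_comp]
  have hne : (-(2 * π)⁻¹ : ℝ) ≠ 0 := by
    have := Real.pi_pos; simp [Real.pi_ne_zero]
  constructor
  · exact hFi.comp_mul_right' hne
  · have e0 := MeasureTheory.Measure.integral_comp_mul_right (fun x => ‖(𝓕 h) x‖ ^ 2) (-(2 * π)⁻¹)
    beta_reduce at e0
    rw [e0, e]
    have := Real.pi_pos
    rw [smul_eq_mul]
    congr 1
    rw [inv_neg, inv_inv, abs_neg, abs_of_pos (by positivity)]

theorem PL2 (h : ℝ → ℂ) (h1 : Integrable h) (h2 : Integrable (fun t => ‖hat h t‖ ^ 2)) :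
    Integrable (fun u => ‖h u‖ ^ 2) ∧ ∫ t, ‖hat h t‖ ^ 2 = 2 * π * ∫ u, ‖h u‖ ^ 2 := by
  have hne : (-(2 * π) : ℝ) ≠ 0 := by
    have := Real.pi_pos; simp [Real.pi_ne_zero]
  have hFi : Integrable (fun x => ‖(𝓕 h) x‖ ^ 2) := by
    rw [← hat_fourier h]
    exact h2.comp_mul_left' hne
  have hc : Continuous (𝓕 h) := by
    exact VectorFourier.fourierIntegral_continuous continuous_fourierChar continuous_inner h1
  have hF := memLp_of_sq _ hc.aestronglyMeasurable hFi
  have := planch2 h h1 hF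
  have hi := sq_of_memLp _ this.1
  exact ⟨hi, (PL1 h h1 hi).2⟩

end Pool.Agent.SQS
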