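import Pool.Agent.Lib_helper24.SQ.S123

/-!
# S1: `∑_χ |∫ f W|² ≤ C φ(q)/L ∫ |W|²` for windows supported in `|v| ≤ L/2`; S2 the same for `D - D₁`
-/

noncomputable section

namespace Pool.Agent.SQS

open Complex MeasureTheory Filter Topology Pool.Agent.GRH Pool.Agent.SQ
open scoped ENNReal

theorem norm_sum_conj_self {ι : Type*} (s : Finset ι) (g : ι → ℂ) :
    ‖∑ i ∈ s, g i * starRingEnd ℂ (g i)‖ = ∑ i ∈ s, ‖g i‖ ^ 2 := by
  have : ∑ i ∈ s, g i * starRingEnd ℂ (g i) = ((∑ i ∈ s, ‖g i‖ ^ 2 : ℝ) : ℂ) := by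
    push_cast
    refine Finset.sum_congr rfl fun i _ => ?_
    rw [Complex.mul_conj, Complex.normSq_eq_norm_sq]
    push_cast; rfl
  rw [this, Complex.norm_real, Real.norm_of_nonneg (Finset.sum_nonneg fun i _ => by positivity)]

theorem S1 (hcf : CrossF) (hds : DiagSmall) (hdn : DiagNonneg) : ∃ C : ℝ, 0 ≤ C ∧
    ∀ κ : ℕ, κ ≤ 1 → ∀ (L : ℝ) (q : ℕ) [NeZero q], 1 ≤ L → 32 * L = Real.log q →
      ∀ W : ℝ → ℂ, Measurable W → (∃ B, ∀ v, ‖W v‖ ≤ B) → (∀ v, L / 2 < |v| → W v = 0) →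
        ∀ S : Finset (DirichletCharacter ℂ q), (∀ χ ∈ S, χ.IsPrimitive ∧ IsPar κ χ) →
          ∑ χ ∈ S, ‖∫ v, fd κ (fun n => be L n) (NN L) χ v * W v‖ ^ 2 ≤
            C * q.totient / L * ∫ v, ‖W v‖ ^ 2 := by
  obtain ⟨C, hC, h⟩ := crossF_le hcf hdn
  obtain ⟨C2, hC2, h2⟩ := hds
  have hK0 : 0 ≤ ∫ u, kk u := integral_nonneg kk_nonneg
  refine ⟨4 * (C + C2) * ∫ u, kk u, by positivity, ?_⟩
  intro κ hκ L q _ hL hLq W hWm hWb hWs S hS
  have hq2 := two_le_of_log hL hLq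
  have hqpos : (0 : ℝ) < q := by positivity
  have hL0 : 0 < L := by linarith
  have hφ : (0 : ℝ) < q.totient := by exact_mod_cast Nat.totient_pos.2 (by omega)
  obtain ⟨Bw, hBw⟩ := hWb
  set f : DirichletCharacter ℂ q → ℝ → ℂ := fun χ => fd κ (fun n => be L n) (NN L) χ with hf
  -- covariance bound on `[0, L/2]`
  set A : ℝ := (C + C2) * q.totient / L with hA
  have hA0 : 0 ≤ A := by positivity
  have hcov : ∀ v ∈ Set.Icc 0 (L / 2), ∀ v' ∈ Set.Icc 0 (L / 2),
      ‖∑ χ : DirichletCharacter ℂ q, f χ v * starRingEnd ℂ (f χ v')‖ ≤ A * kk (v - v') := by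
    intro v hv v' hv'
    have h3 := (h κ hκ L q hL hLq v v' hv.1 hv'.1).1
    have h4 := h2 κ hκ L q hL hLq (Real.exp (yy v v') / √q) (by positivity) (by
      gcongr
      exact yy_le hv.2 hv'.2)
    have h5 := exp_le_kk hv.1 hv'.1
    have h6 := inv_q_le hL hLq
    have hk := kk_nonneg (v - v')
    refine h3.trans ?_
    calc q.totient * (kk (v - v') * Diag κ q L (Real.exp (yy v v') / √q) +
          C * Real.exp (-(v + v') / 2) / q)
        = q.totient * (kk (v - v') * Diag κ q L (Real.exp (yy v v') / √q) +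
          C * Real.exp (-(v + v') / 2) * (1 / q)) := by ring
      _ ≤ q.totient * (kk (v - v') * (C2 / L) + C * kk (v - v') * (1 / L)) := by gcongr
      _ = A * kk (v - v') := by rw [hA]; ring
  have hbd : ∀ χ : DirichletCharacter ℂ q, ∀ v ∈ Set.Icc 0 (L / 2),
      ‖f χ v‖ ≤ √(A * kk 0) := by
    intro χ v hv
    apply Real.le_sqrt_of_sq_le
    have h3 := hcov v hv v hv
    rw [norm_sum_conj_self, sub_self] at h3
    refine le_trans ?_ h3
    exact Finset.single_le_sum (f := fun χ => ‖f χ v‖ ^ 2) (fun _ _ => by positivity)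
      (Finset.mem_univ χ)
  have hfm : ∀ χ, Measurable (f χ) := fun χ => fd_measurable hκ _ _ χ
  -- Schur for windows supported in `[0, L/2]`
  have hschur : ∀ V : ℝ → ℂ, Measurable V → (∃ B, ∀ v, ‖V v‖ ≤ B) →
      (∀ v, v ∉ Set.Icc 0 (L / 2) → V v = 0) →
      ∑ χ : DirichletCharacter ℂ q, ‖∫ v, f χ v * V v‖ ^ 2 ≤
        A * (∫ u, kk u) * ∫ v, ‖V v‖ ^ 2 := by
    intro V hVm hVb hVs
    exact schur Finset.univ f (Set.Icc 0 (L / 2)) measurableSet_Icc (by simp)
      (fun χ _ => hfm χ) (B := √(A * kk 0)) (fun χ _ v hv => hbd χ v hv) V hVm hVb hVs kk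
      kk_integrable kk_measurable kk_nonneg hA0 hcov
  -- the two halves
  set W1 : ℝ → ℂ := fun v => if 0 ≤ v then W v else 0 with hW1
  set W2 : ℝ → ℂ := fun v => if 0 < v then starRingEnd ℂ (W (-v)) else 0 with hW2
  have hW1m : Measurable W1 :=
    Measurable.ite measurableSet_Ici hWm measurable_const
  have hW2m : Measurable W2 :=
    Measurable.ite measurableSet_Ioi
      (Complex.continuous_conj.measurable.comp (hWm.comp measurable_neg)) measurable_const
  have hBw0 : 0 ≤ Bw := (norm_nonneg _).trans (hBw 0)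
  have hW1b : ∀ v, ‖W1 v‖ ≤ Bw := by
    intro v; simp only [hW1]; split_ifs
    · exact hBw v
    · simpa using hBw0
  have hW2b : ∀ v, ‖W2 v‖ ≤ Bw := by
    intro v; simp only [hW2]; split_ifs
    · rw [RCLike.norm_conj]; exact hBw _
    · simpa using hBw0
  have hW1s : ∀ v, v ∉ Set.Icc 0 (L / 2) → W1 v = 0 := by
    intro v hv
    simp only [hW1]
    split_ifs with h0
    · apply hWs
      rw [abs_of_nonneg h0]
      by_contra hcon
      exact hv ⟨h0, not_lt.1 hcon⟩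
    · rfl
  have hW2s : ∀ v, v ∉ Set.Icc 0 (L / 2) → W2 v = 0 := by
    intro v hv
    simp only [hW2]
    split_ifs with h0
    · rw [hWs, map_zero]
      rw [abs_neg, abs_of_pos h0]
      by_contra hcon
      exact hv ⟨h0.le, not_lt.1 hcon⟩
    · rfl
  have hWi : Integrable (fun v => ‖W v‖ ^ 2) := by
    have e : (fun v => ‖W v‖ ^ 2) = (Set.Icc (-(L / 2)) (L / 2)).indicator
        (fun v => ‖W v‖ ^ 2) := by
      funext v
      by_cases hv : v ∈ Set.Icc (-(L / 2)) (L / 2)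
      · rw [Set.indicator_of_mem hv]
      · rw [Set.indicator_of_notMem hv, hWs]
        · simp
        · by_contra hcon
          exact hv (abs_le.1 (not_lt.1 hcon))
    rw [e, integrable_indicator_iff measurableSet_Icc]
    refine Measure.integrableOn_of_bounded (M := Bw ^ 2) (by simp)
      (hWm.norm.pow_const 2).aestronglyMeasurable ?_
    filter_upwards with v
    rw [Real.norm_of_nonneg (by positivity)]
    exact pow_le_pow_left₀ (norm_nonneg _) (hBw v) 2
  have hI1 : ∫ v, ‖W1 v‖ ^ 2 ≤ ∫ v, ‖W v‖ ^ 2 := by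
    refine integral_mono_of_nonneg (Eventually.of_forall fun v => by positivity) hWi
      (Eventually.of_forall fun v => ?_)
    simp only [hW1]; split_ifs
    · exact le_rfl
    · simp
  have hI2 : ∫ v, ‖W2 v‖ ^ 2 ≤ ∫ v, ‖W v‖ ^ 2 := by
    have e : ∫ v, ‖W v‖ ^ 2 = ∫ v, ‖W (-v)‖ ^ 2 := (integral_neg_eq_self (fun v => ‖W v‖ ^ 2) volume).symm
    rw [e]
    refine integral_mono_of_nonneg (Eventually.of_forall fun v => by positivity) hWi.comp_neg
      (Eventually.of_forall fun v => ?_)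
    simp only [hW2]; split_ifs
    · rw [RCLike.norm_conj]
    · simp
  have hone : ∀ χ ∈ S, ‖∫ v, f χ v * W v‖ ^ 2 ≤
      2 * ‖∫ v, f χ v * W1 v‖ ^ 2 + 2 * ‖∫ v, f χ v * W2 v‖ ^ 2 := by
    intro χ hχ
    obtain ⟨hp, hpar⟩ := hS χ hχ
    have hχ1 := prim_ne_one hq2 hp
    obtain ⟨ω, hω, hsym⟩ := fd_symm' hq2 (fun n => be L n) (NN L) χ hp hχ1 hpar
    have hn := fd_nice hq2 (fun n => be L n) (NN L) χ hχ1 hpar
    have hfi : ∀ V : ℝ → ℂ, Measurable V → (∀ v, ‖V v‖ ≤ Bw) →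
        Integrable (fun v => f χ v * V v) := fun V hV hVb =>
      hn.int.mul_bdd (c := Bw) hV.aestronglyMeasurable (Eventually.of_forall hVb)
    set W3 : ℝ → ℂ := fun v => if v < 0 then W v else 0 with hW3
    have hW3m : Measurable W3 := Measurable.ite measurableSet_Iio hWm measurable_const
    have hW3b : ∀ v, ‖W3 v‖ ≤ Bw := by
      intro v; simp only [hW3]; split_ifs
      · exact hBw v
      · simpa using hBw0
    have e1 : ∫ v, f χ v * W v = (∫ v, f χ v * W1 v) + ∫ v, f χ v * W3 v := by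
      rw [← integral_add (hfi W1 hW1m hW1b) (hfi W3 hW3m hW3b)]
      congr 1; funext v
      simp only [hW1, hW3]
      rcases lt_or_ge v 0 with h0 | h0
      · rw [if_neg (not_le.2 h0), if_pos h0]; ring
      · rw [if_pos h0, if_neg (not_lt.2 h0)]; ring
    have e2 : ∫ v, f χ v * W3 v = ω * starRingEnd ℂ (∫ v, f χ v * W2 v) := by
      rw [← integral_conj, ← integral_const_mul]
      rw [← integral_neg_eq_self (fun v => ω * starRingEnd ℂ (f χ v * W2 v)) volume]
      refine integral_congr_ae ?_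
      filter_upwards [hsym] with v hv
      simp only [hW3, hW2]
      rcases lt_or_ge v 0 with h0 | h0
      · rw [if_pos h0, if_pos (by linarith), map_mul, Complex.conj_conj, neg_neg]
        show fd κ (fun n => be L n) (NN L) χ v * W v = _
        rw [hv]; ring
      · rw [if_neg (not_lt.2 h0), if_neg (by linarith)]; simp
    have e3 : ‖∫ v, f χ v * W v‖ ≤ ‖∫ v, f χ v * W1 v‖ + ‖∫ v, f χ v * W2 v‖ := by
      rw [e1, e2]
      refine (norm_add_le _ _).trans ?_
      rw [norm_mul, hω, one_mul, RCLike.norm_conj]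
    have e4 : ‖∫ v, f χ v * W v‖ ^ 2 ≤ (‖∫ v, f χ v * W1 v‖ + ‖∫ v, f χ v * W2 v‖) ^ 2 := by
      gcongr
    nlinarith [sq_nonneg (‖∫ v, f χ v * W1 v‖ - ‖∫ v, f χ v * W2 v‖)]
  have hs1 := hschur W1 hW1m ⟨Bw, hW1b⟩ hW1s
  have hs2 := hschur W2 hW2m ⟨Bw, hW2b⟩ hW2s
  have hWnn : 0 ≤ ∫ v, ‖W v‖ ^ 2 := integral_nonneg fun v => by positivity
  calc ∑ χ ∈ S, ‖∫ v, f χ v * W v‖ ^ 2
      ≤ ∑ χ ∈ S, (2 * ‖∫ v, f χ v * W1 v‖ ^ 2 + 2 * ‖∫ v, f χ v * W2 v‖ ^ 2) :=
        Finset.sum_le_sum hone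
    _ ≤ ∑ χ : DirichletCharacter ℂ q,
          (2 * ‖∫ v, f χ v * W1 v‖ ^ 2 + 2 * ‖∫ v, f χ v * W2 v‖ ^ 2) :=
        Finset.sum_le_sum_of_subset_of_nonneg (Finset.subset_univ _)
          fun χ _ _ => by positivity
    _ ≤ 2 * (A * (∫ u, kk u) * ∫ v, ‖W v‖ ^ 2) + 2 * (A * (∫ u, kk u) * ∫ v, ‖W v‖ ^ 2) := by
        rw [Finset.sum_add_distrib, ← Finset.mul_sum, ← Finset.mul_sum]
        have h5 := hs1.trans (mul_le_mul_of_nonneg_left hI1 (by positivity))
        have h6 := hs2.trans (mul_le_mul_of_nonneg_left hI2 (by positivity))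
        linarith
    _ = _ := by rw [hA]; ring

theorem S2 (hcd : CrossD) : ∃ C : ℝ, 0 ≤ C ∧
    ∀ κ : ℕ, κ ≤ 1 → ∀ (L : ℝ) (q : ℕ) [NeZero q], 1 ≤ L → 32 * L = Real.log q →
      ∀ W : ℝ → ℂ, Measurable W → (∃ B, ∀ v, ‖W v‖ ≤ B) → (∀ v, L / 2 < |v| → W v = 0) →
        ∀ S : Finset (DirichletCharacter ℂ q),
          ∑ χ ∈ S, ‖∫ u, (Dd κ (fun n => be L n) (NN L) χ u - dens₁ κ u) * W u‖ ^ 2 ≤
            C * q.totient / L * ∫ v, ‖W v‖ ^ 2 := by
  obtain ⟨C, hC, h⟩ := hcd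
  have hK0 : 0 ≤ ∫ u, kk u := integral_nonneg kk_nonneg
  refine ⟨C * ((∫ u, kk u) + 2), by positivity, ?_⟩
  intro κ hκ L q _ hL hLq W hWm hWb hWs S
  have hq2 := two_le_of_log hL hLq
  have hL0 : 0 < L := by linarith
  set g : DirichletCharacter ℂ q → ℝ → ℂ := fun χ u =>
    Dd κ (fun n => be L n) (NN L) χ u - dens₁ κ u with hg
  set A : ℝ := C * q.totient / L with hA
  have hA0 : 0 ≤ A := by positivity
  set k : ℝ → ℝ := fun s => kk s + (Set.Icc (-L) L).indicator (fun _ => 1 / L) s with hk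
  have hind0 : ∀ s, 0 ≤ (Set.Icc (-L) L).indicator (fun _ => 1 / L) s := fun s =>
    Set.indicator_nonneg (fun _ _ => by positivity) s
  have hk0 : ∀ s, 0 ≤ k s := fun s => add_nonneg (kk_nonneg s) (hind0 s)
  have hindi : Integrable ((Set.Icc (-L) L).indicator (fun _ : ℝ => 1 / L)) := by
    rw [integrable_indicator_iff measurableSet_Icc]
    exact integrableOn_const (by simp)
  have hki : Integrable k := kk_integrable.add hindi
  have hkm : Measurable k :=
    kk_measurable.add (measurable_const.indicator measurableSet_Icc)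
  have hkint : ∫ s, k s = (∫ s, kk s) + 2 := by
    have e1 : ∫ s, (Set.Icc (-L) L).indicator (fun _ : ℝ => 1 / L) s = 2 := by
      rw [integral_indicator measurableSet_Icc, setIntegral_const, Real.volume_real_Icc_of_le
        (by linarith), smul_eq_mul]
      field_simp
      ring
    rw [← e1]
    exact integral_add kk_integrable hindi
  have hcov : ∀ v ∈ Set.Icc (-(L / 2)) (L / 2), ∀ v' ∈ Set.Icc (-(L / 2)) (L / 2),
      ‖∑ χ : DirichletCharacter ℂ q, g χ v * starRingEnd ℂ (g χ v')‖ ≤ A * k (v - v') := by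
    intro v hv v' hv'
    have h3 := h κ hκ L q hL hLq v v' (abs_le.2 hv) (abs_le.2 hv')
    simp only [dD_eq_Dd hq2 hκ hL0] at h3
    refine h3.trans ?_
    have h4 := cosh_rpow_le (v - v')
    have h5 : v - v' ∈ Set.Icc (-L) L := ⟨by linarith [hv.1, hv'.2], by linarith [hv.2, hv'.1]⟩
    simp only [hk]
    rw [Set.indicator_of_mem h5]
    calc C * q.totient * ((Real.cosh (v - v')) ^ (-(1 / 2 : ℝ)) / L + 1 / L ^ 2)
        ≤ C * q.totient * (kk (v - v') / L + 1 / L ^ 2) := by gcongr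
      _ = A * (kk (v - v') + 1 / L) := by rw [hA]; field_simp
  have hbd : ∀ χ : DirichletCharacter ℂ q, ∀ v ∈ Set.Icc (-(L / 2)) (L / 2),
      ‖g χ v‖ ≤ √(A * k 0) := by
    intro χ v hv
    apply Real.le_sqrt_of_sq_le
    have h3 := hcov v hv v hv
    rw [norm_sum_conj_self, sub_self] at h3
    refine le_trans ?_ h3
    exact Finset.single_le_sum (f := fun χ => ‖g χ v‖ ^ 2) (fun _ _ => by positivity)
      (Finset.mem_univ χ)
  have hgm : ∀ χ, Measurable (g χ) := fun χ =>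
    (Dd_measurable hκ _ _ χ).sub (dens₁_measurable κ)
  have hs := schur Finset.univ g (Set.Icc (-(L / 2)) (L / 2)) measurableSet_Icc (by simp)
      (fun χ _ => hgm χ) (B := √(A * k 0)) (fun χ _ v hv => hbd χ v hv) W hWm hWb
      (fun v hv => hWs v (by
        by_contra hcon
        exact hv (abs_le.1 (not_lt.1 hcon)))) k hki hkm hk0 hA0 hcov
  calc ∑ χ ∈ S, ‖∫ u, g χ u * W u‖ ^ 2
      ≤ ∑ χ : DirichletCharacter ℂ q, ‖∫ u, g χ u * W u‖ ^ 2 :=
        Finset.sum_le_sum_of_subset_of_nonneg (Finset.subset_univ _)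
          fun χ _ _ => by positivity
    _ ≤ _ := hs
    _ = _ := by rw [hkint, hA]; ring

end Pool.Agent.SQS
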