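import Mathlib

/-!
# Abstract Schur bound for finite families of functions on `ℝ`
-/

noncomputable section

namespace Pool.Agent.SQS

open Complex MeasureTheory Filter Topology
open scoped ENNReal

theorem sum_sq_le {ι : Type*} (s : Finset ι) (h : ι → ℝ → ℂ)
    (hi : ∀ i ∈ s, Integrable (h i)) :
    ENNReal.ofReal (∑ i ∈ s, ‖∫ v, h i v‖ ^ 2) ≤
      ∫⁻ v, ∫⁻ v', ‖∑ i ∈ s, h i v * starRingEnd ℂ (h i v')‖ₑ := by
  have hconj : ∀ i ∈ s, Integrable (fun v => starRingEnd ℂ (h i v)) := fun i his =>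
    (Complex.conjLIE.toContinuousLinearEquiv : ℂ ≃L[ℝ] ℂ).integrable_comp_iff.2 (hi i his)
  have e1 : ∀ v, ∫ v', ∑ i ∈ s, h i v * starRingEnd ℂ (h i v') =
      ∑ i ∈ s, h i v * starRingEnd ℂ (∫ v', h i v') := by
    intro v
    rw [integral_finsetSum _ fun i his => (hconj i his).const_mul _]
    refine Finset.sum_congr rfl fun i _ => ?_
    rw [integral_const_mul, integral_conj]
  have e2 : ∫ v, ∫ v', ∑ i ∈ s, h i v * starRingEnd ℂ (h i v') =
      ((∑ i ∈ s, ‖∫ v, h i v‖ ^ 2 : ℝ) : ℂ) := by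
    simp_rw [e1]
    rw [integral_finsetSum _ fun i his => (hi i his).mul_const _]
    push_cast
    refine Finset.sum_congr rfl fun i _ => ?_
    rw [integral_mul_const, Complex.mul_conj, Complex.normSq_eq_norm_sq]
    push_cast; rfl
  have h0 : 0 ≤ ∑ i ∈ s, ‖∫ v, h i v‖ ^ 2 := Finset.sum_nonneg fun i _ => by positivity
  have e3 : ENNReal.ofReal (∑ i ∈ s, ‖∫ v, h i v‖ ^ 2) =
      ‖∫ v, ∫ v', ∑ i ∈ s, h i v * starRingEnd ℂ (h i v')‖ₑ := by
    rw [e2, ← ofReal_norm, Complex.norm_real, Real.norm_of_nonneg h0]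
  rw [e3]
  refine (enorm_integral_le_lintegral_enorm _).trans ?_
  exact lintegral_mono fun v => enorm_integral_le_lintegral_enorm _

/-- Schur bound -/
theorem schur {ι : Type*} (s : Finset ι) (g : ι → ℝ → ℂ) (J : Set ℝ)
    (hJ : MeasurableSet J) (hJf : volume J ≠ ∞) (hgm : ∀ i ∈ s, Measurable (g i)) {B : ℝ}
    (hgb : ∀ i ∈ s, ∀ v ∈ J, ‖g i v‖ ≤ B)
    (W : ℝ → ℂ) (hWm : Measurable W) (hWb : ∃ B, ∀ v, ‖W v‖ ≤ B) (hWJ : ∀ v, v ∉ J → W v = 0)
    (k : ℝ → ℝ) (hk : Integrable k) (hkm : Measurable k) (hk0 : ∀ s, 0 ≤ k s) {A : ℝ} (hA : 0 ≤ A)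
    (H : ∀ v ∈ J, ∀ v' ∈ J, ‖∑ i ∈ s, g i v * starRingEnd ℂ (g i v')‖ ≤ A * k (v - v')) :
    ∑ i ∈ s, ‖∫ v, g i v * W v‖ ^ 2 ≤ A * (∫ u, k u) * ∫ v, ‖W v‖ ^ 2 := by
  obtain ⟨Bw, hBw⟩ := hWb
  have hBw0 : 0 ≤ Bw := (norm_nonneg _).trans (hBw 0)
  -- integrability of `W` type functions
  have hind : ∀ (f : ℝ → ℂ) (C : ℝ), Measurable f → (∀ v ∈ J, ‖f v‖ ≤ C) →
      (∀ v, v ∉ J → f v = 0) → Integrable f := by
    intro f C hf hfb hfJ
    have h1 : f = J.indicator f := by
      funext v
      by_cases hv : v ∈ J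
      · rw [Set.indicator_of_mem hv]
      · rw [Set.indicator_of_notMem hv, hfJ v hv]
    rw [h1, integrable_indicator_iff hJ]
    refine Measure.integrableOn_of_bounded (M := C) hJf hf.aestronglyMeasurable ?_
    filter_upwards [ae_restrict_mem hJ] with v hv using hfb v hv
  have hint : ∀ i ∈ s, Integrable (fun v => g i v * W v) := by
    intro i his
    refine hind _ (B * Bw) ((hgm i his).mul hWm) (fun v hv => ?_) fun v hv => ?_
    · rw [norm_mul]
      exact mul_le_mul (hgb i his v hv) (hBw v) (norm_nonneg _)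
        ((norm_nonneg _).trans (hgb i his v hv))
    · rw [hWJ v hv, mul_zero]
  have hW2 : Integrable (fun v => ‖W v‖ ^ 2) := by
    have hWi : Integrable W := hind W Bw hWm (fun v _ => hBw v) hWJ
    have : (fun v => ‖W v‖ ^ 2) = fun v => ‖W v‖ * ‖W v‖ := by funext v; ring
    rw [this]
    exact hWi.norm.bdd_mul (c := Bw) hWm.norm.aestronglyMeasurable
      (Eventually.of_forall fun v => by rw [norm_norm]; exact hBw v)
  set w : ℝ → ℝ≥0∞ := fun v => ENNReal.ofReal (‖W v‖ ^ 2) with hw
  set κ : ℝ → ℝ≥0∞ := fun u => ENNReal.ofReal (k u) with hκ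
  have hwm : Measurable w := (hWm.norm.pow_const 2).ennreal_ofReal
  have hκm : Measurable κ := hkm.ennreal_ofReal
  have hκl : ∀ v, Measurable fun v' => κ (v - v') := fun v =>
    hκm.comp (measurable_const.sub measurable_id)
  have hκr : ∀ v', Measurable fun v => κ (v - v') := fun v' =>
    hκm.comp (measurable_id.sub measurable_const)
  have hwint : ∫⁻ v, w v = ENNReal.ofReal (∫ v, ‖W v‖ ^ 2) :=
    (ofReal_integral_eq_lintegral_ofReal hW2 (Eventually.of_forall fun v => by positivity)).symm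
  have hκint : ∫⁻ v, κ v = ENNReal.ofReal (∫ v, k v) :=
    (ofReal_integral_eq_lintegral_ofReal hk (Eventually.of_forall fun v => hk0 v)).symm
  have hpt : ∀ v v', ‖∑ i ∈ s, (g i v * W v) * starRingEnd ℂ (g i v' * W v')‖ₑ ≤
      ENNReal.ofReal (A / 2) * (κ (v - v') * w v + κ (v - v') * w v') := by
    intro v v'
    have h1 : ‖∑ i ∈ s, (g i v * W v) * starRingEnd ℂ (g i v' * W v')‖ ≤
        A / 2 * (k (v - v') * ‖W v‖ ^ 2 + k (v - v') * ‖W v'‖ ^ 2) := by
      have e : ∑ i ∈ s, (g i v * W v) * starRingEnd ℂ (g i v' * W v') =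
          (W v * starRingEnd ℂ (W v')) * ∑ i ∈ s, g i v * starRingEnd ℂ (g i v') := by
        rw [Finset.mul_sum]
        refine Finset.sum_congr rfl fun i _ => ?_
        rw [map_mul]; ring
      rw [e, norm_mul, norm_mul, RCLike.norm_conj]
      by_cases hv : v ∈ J
      · by_cases hv' : v' ∈ J
        · have h2 := H v hv v' hv'
          calc ‖W v‖ * ‖W v'‖ * ‖∑ i ∈ s, g i v * starRingEnd ℂ (g i v')‖
              ≤ ‖W v‖ * ‖W v'‖ * (A * k (v - v')) := by gcongr
            _ = (A * k (v - v')) * (‖W v‖ * ‖W v'‖) := by ring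
            _ ≤ (A * k (v - v')) * ((‖W v‖ ^ 2 + ‖W v'‖ ^ 2) / 2) := by
                have := hk0 (v - v')
                gcongr
                nlinarith [sq_nonneg (‖W v‖ - ‖W v'‖)]
            _ = _ := by ring
        · rw [hWJ v' hv', norm_zero, mul_zero, zero_mul]
          have := hk0 (v - v')
          positivity
      · rw [hWJ v hv, norm_zero, zero_mul, zero_mul]
        have := hk0 (v - v')
        positivity
    rw [← ofReal_norm]
    refine (ENNReal.ofReal_le_ofReal h1).trans (le_of_eq ?_)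
    have hk' := hk0 (v - v')
    rw [ENNReal.ofReal_mul (by positivity), ENNReal.ofReal_add (by positivity) (by positivity),
      ENNReal.ofReal_mul hk', ENNReal.ofReal_mul hk']
  have key : ENNReal.ofReal (∑ i ∈ s, ‖∫ v, g i v * W v‖ ^ 2) ≤
      ENNReal.ofReal (A * (∫ u, k u) * ∫ v, ‖W v‖ ^ 2) := by
    refine (sum_sq_le s (fun i v => g i v * W v) hint).trans ?_
    calc ∫⁻ v, ∫⁻ v', ‖∑ i ∈ s, (g i v * W v) * starRingEnd ℂ (g i v' * W v')‖ₑ
        ≤ ∫⁻ v, ∫⁻ v', ENNReal.ofReal (A / 2) * (κ (v - v') * w v + κ (v - v') * w v') :=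
          lintegral_mono fun v => lintegral_mono fun v' => hpt v v'
      _ = ENNReal.ofReal (A / 2) * ((∫⁻ v, ∫⁻ v', κ (v - v') * w v) +
            ∫⁻ v, ∫⁻ v', κ (v - v') * w v') := by
          have hm1 : ∀ v, Measurable fun v' => κ (v - v') * w v := fun v =>
            (hκl v).mul_const _
          have hm2 : ∀ v, Measurable fun v' => κ (v - v') * w v' := fun v =>
            (hκl v).mul hwm
          have hm3 : ∀ v, Measurable fun v' => κ (v - v') * w v + κ (v - v') * w v' := fun v =>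
            (hm1 v).add (hm2 v)
          have : ∀ v, ∫⁻ v', ENNReal.ofReal (A / 2) * (κ (v - v') * w v + κ (v - v') * w v') =
              ENNReal.ofReal (A / 2) * ((∫⁻ v', κ (v - v') * w v) + ∫⁻ v', κ (v - v') * w v') := by
            intro v
            rw [lintegral_const_mul _ (hm3 v), lintegral_add_left (hm1 v)]
          simp_rw [this]
          have hM1 : Measurable fun v => ∫⁻ v', κ (v - v') * w v := by
            refine Measurable.lintegral_prod_right' (f := fun p : ℝ × ℝ => κ (p.1 - p.2) * w p.1) ?_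
            exact (hκm.comp (measurable_fst.sub measurable_snd)).mul (hwm.comp measurable_fst)
          have hM2 : Measurable fun v => ∫⁻ v', κ (v - v') * w v' := by
            refine Measurable.lintegral_prod_right' (f := fun p : ℝ × ℝ => κ (p.1 - p.2) * w p.2) ?_
            exact (hκm.comp (measurable_fst.sub measurable_snd)).mul (hwm.comp measurable_snd)
          have hM3 : Measurable fun v => (∫⁻ v', κ (v - v') * w v) + ∫⁻ v', κ (v - v') * w v' :=
            hM1.add hM2
          rw [lintegral_const_mul _ hM3, lintegral_add_left hM1]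
      _ = ENNReal.ofReal (A / 2) * ((∫⁻ u, κ u) * (∫⁻ v, w v) + (∫⁻ u, κ u) * ∫⁻ v, w v) := by
          congr 2
          · have : ∀ v, ∫⁻ v', κ (v - v') * w v = (∫⁻ u, κ u) * w v := by
              intro v
              rw [lintegral_mul_const _ (hκl v),
                lintegral_sub_left_eq_self κ v]
            simp_rw [this]
            rw [lintegral_const_mul _ hwm]
          · rw [lintegral_lintegral_swap]
            · have : ∀ v', ∫⁻ v, κ (v - v') * w v' = (∫⁻ u, κ u) * w v' := by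
                intro v'
                rw [lintegral_mul_const _ (hκr v'),
                  lintegral_sub_right_eq_self κ v']
              simp_rw [this]
              rw [lintegral_const_mul _ hwm]
            · exact ((hκm.comp (measurable_fst.sub measurable_snd)).mul
                (hwm.comp measurable_snd)).aemeasurable
      _ = ENNReal.ofReal (A * (∫ u, k u) * ∫ v, ‖W v‖ ^ 2) := by
          have hK0 : 0 ≤ ∫ u, k u := integral_nonneg hk0
          have hW0 : 0 ≤ ∫ v, ‖W v‖ ^ 2 := integral_nonneg fun v => by positivity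
          rw [hwint, hκint, ← ENNReal.ofReal_mul hK0, ← ENNReal.ofReal_add (by positivity)
            (by positivity), ← ENNReal.ofReal_mul (by positivity)]
          congr 1; ring
  have hK0 : 0 ≤ ∫ u, k u := integral_nonneg hk0
  have hW0 : 0 ≤ ∫ v, ‖W v‖ ^ 2 := integral_nonneg fun v => by positivity
  exact (ENNReal.ofReal_le_ofReal_iff (by positivity)).1 key

end Pool.Agent.SQS
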