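import Pool.Agent.Lib_helper24.SQ.Bridge
import Pool.Agent.Lib_helper24.SQ.Schur

/-!
# Mean squares against windows (S1, S2) and the pointwise second moment (S3)
-/

noncomputable section

namespace Pool.Agent.SQS

open Complex MeasureTheory Filter Topology Pool.Agent.GRH Pool.Agent.SQ
open scoped ENNReal

/-- statement of `cross_f` -/
def CrossF : Prop := ∃ C : ℝ, 0 ≤ C ∧ ∀ κ : ℕ, κ ≤ 1 → ∀ (L : ℝ) (q : ℕ) [NeZero q], 1 ≤ L →
    32 * L = Real.log q → ∀ v v' : ℝ, 0 ≤ v → 0 ≤ v' →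
      ‖∑ χ : DirichletCharacter ℂ q, dF κ L χ v * starRingEnd ℂ (dF κ L χ v') -
        ((q.totient * ((Real.cosh (v - v')) ^ (-(1 / 2 + (κ : ℝ))) *
          Diag κ q L (√((Real.exp v ^ 2 + Real.exp v' ^ 2) / 2) / √q)) : ℝ) : ℂ)‖ ≤
        q.totient * (C * Real.exp (-(v + v') / 2) / q)

/-- statement of `cross_D` (with an additive error) -/
def CrossD : Prop := ∃ C : ℝ, 0 ≤ C ∧ ∀ κ : ℕ, κ ≤ 1 → ∀ (L : ℝ) (q : ℕ) [NeZero q], 1 ≤ L →
    32 * L = Real.log q → ∀ u u' : ℝ, |u| ≤ L / 2 → |u'| ≤ L / 2 →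
      ‖∑ χ : DirichletCharacter ℂ q, (dD κ L χ u - dens₁ κ u) *
        starRingEnd ℂ (dD κ L χ u' - dens₁ κ u')‖ ≤
        C * q.totient * ((Real.cosh (u - u')) ^ (-(1 / 2 : ℝ)) / L + 1 / L ^ 2)

/-- statement of `diag_small` -/
def DiagSmall : Prop := ∃ C : ℝ, 0 ≤ C ∧ ∀ κ : ℕ, κ ≤ 1 → ∀ (L : ℝ) (q : ℕ), 1 ≤ L →
    32 * L = Real.log q → ∀ δ : ℝ, 0 < δ → δ ≤ Real.exp (L / 2) / √q →
      Diag κ q L δ ≤ C / L

/-- statement of `diag_nonneg` -/
def DiagNonneg : Prop := ∀ {κ q : ℕ} (_ : κ ≤ 1) (_ : 2 ≤ q) (L : ℝ) {δ : ℝ} (_ : 0 < δ),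
    0 ≤ Diag κ q L δ

/-- statement of `mean_f2` -/
def MeanF2 : Prop := ∃ C : ℝ, 0 ≤ C ∧ ∀ κ : ℕ, κ ≤ 1 → ∀ (L : ℝ) (q : ℕ) [NeZero q], 1 ≤ L →
    32 * L = Real.log q →
      IntegrableOn (fun v => ∑ χ : DirichletCharacter ℂ q, ‖dF κ L χ v‖ ^ 2) (Set.Ioi 0) ∧
      ∫ v in Set.Ioi (0 : ℝ), ∑ χ : DirichletCharacter ℂ q, ‖dF κ L χ v‖ ^ 2 ≤
        C * q.totient

/-- majorant of `cosh^{-1/2}` -/
def kk (s : ℝ) : ℝ := √2 * Real.exp (-(1 / 2) * |s|)

theorem kk_nonneg (s : ℝ) : 0 ≤ kk s := by unfold kk; positivity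

theorem kk_measurable : Measurable kk := by unfold kk; fun_prop

theorem kk_integrable : Integrable kk := by
  unfold kk
  refine Integrable.const_mul ?_ _
  have h1 : IntegrableOn (fun s : ℝ => Real.exp (-(1 / 2) * |s|)) (Set.Ioi 0) := by
    refine (integrableOn_exp_mul_Ioi (a := -(1 / 2)) (by norm_num) 0).congr_fun ?_
      measurableSet_Ioi
    intro s hs
    simp only [abs_of_pos (Set.mem_Ioi.1 hs)]
  have h2 : IntegrableOn (fun s : ℝ => Real.exp (-(1 / 2) * |s|)) (Set.Iic 0) := by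
    refine (integrableOn_exp_mul_Iic (a := 1 / 2) (by norm_num) 0).congr_fun ?_
      measurableSet_Iic
    intro s hs
    simp only [abs_of_nonpos (Set.mem_Iic.1 hs)]
    congr 1; ring
  have := h2.union h1
  rwa [Set.Iic_union_Ioi, integrableOn_univ] at this

theorem cosh_rpow_le (s : ℝ) : (Real.cosh s) ^ (-(1 / 2 : ℝ)) ≤ kk s := by
  have h1 : Real.exp |s| / 2 ≤ Real.cosh s := by
    rw [← Real.cosh_abs, Real.cosh_eq]
    have := Real.exp_pos (-|s|)
    linarith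
  have h2 : (0 : ℝ) < Real.exp |s| / 2 := by positivity
  calc (Real.cosh s) ^ (-(1 / 2 : ℝ)) ≤ (Real.exp |s| / 2) ^ (-(1 / 2 : ℝ)) :=
        Real.rpow_le_rpow_of_nonpos h2 h1 (by norm_num)
    _ = kk s := by
        unfold kk
        rw [Real.div_rpow (by positivity) (by norm_num), Real.sqrt_eq_rpow,
          Real.rpow_neg (by norm_num : (0 : ℝ) ≤ 2), div_inv_eq_mul, mul_comm, ← Real.exp_mul]
        congr 2
        ring

theorem cosh_rpow_le' {κ : ℕ} (s : ℝ) :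
    (Real.cosh s) ^ (-(1 / 2 + (κ : ℝ))) ≤ kk s := by
  refine le_trans ?_ (cosh_rpow_le s)
  exact Real.rpow_le_rpow_of_exponent_le (Real.one_le_cosh s) (by
    have : (0 : ℝ) ≤ κ := by positivity
    linarith)

theorem exp_le_kk {v v' : ℝ} (hv : 0 ≤ v) (hv' : 0 ≤ v') :
    Real.exp (-(v + v') / 2) ≤ kk (v - v') := by
  unfold kk
  have h1 : |v - v'| ≤ v + v' := by rw [abs_le]; constructor <;> linarith
  have h2 : Real.exp (-(v + v') / 2) ≤ Real.exp (-(1 / 2) * |v - v'|) :=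
    Real.exp_le_exp.2 (by linarith)
  have h3 : 1 ≤ √2 := by rw [Real.one_le_sqrt]; norm_num
  calc Real.exp (-(v + v') / 2) ≤ 1 * Real.exp (-(1 / 2) * |v - v'|) := by rw [one_mul]; exact h2
    _ ≤ _ := by gcongr

/-- `y(v,v')` with `e^{2y} = (e^{2v}+e^{2v'})/2` -/
def yy (v v' : ℝ) : ℝ := Real.log (√((Real.exp v ^ 2 + Real.exp v' ^ 2) / 2))

theorem exp_yy (v v' : ℝ) : Real.exp (yy v v') = √((Real.exp v ^ 2 + Real.exp v' ^ 2) / 2) := by
  unfold yy
  rw [Real.exp_log (by positivity)]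

theorem yy_le {v v' X : ℝ} (hv : v ≤ X) (hv' : v' ≤ X) : yy v v' ≤ X := by
  rw [← Real.exp_le_exp, exp_yy]
  apply Real.sqrt_le_iff.2
  refine ⟨(Real.exp_pos X).le, ?_⟩
  have h1 : Real.exp v ^ 2 ≤ Real.exp X ^ 2 := by gcongr
  have h2 : Real.exp v' ^ 2 ≤ Real.exp X ^ 2 := by gcongr
  linarith

theorem le_yy {v v' X : ℝ} (hv : X ≤ v) (hv' : X ≤ v') : X ≤ yy v v' := by
  rw [← Real.exp_le_exp, exp_yy]
  apply Real.le_sqrt_of_sq_le
  have h1 : Real.exp X ^ 2 ≤ Real.exp v ^ 2 := by gcongr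
  have h2 : Real.exp X ^ 2 ≤ Real.exp v' ^ 2 := by gcongr
  linarith

theorem yy_self (v : ℝ) : yy v v = v := le_antisymm (yy_le le_rfl le_rfl) (le_yy le_rfl le_rfl)

theorem yy_shift (s v' : ℝ) : yy (v' + s) v' = v' + yy s 0 := by
  have : Real.exp (yy (v' + s) v') = Real.exp (v' + yy s 0) := by
    rw [Real.exp_add, exp_yy, exp_yy, Real.exp_add]
    rw [← Real.sqrt_sq (Real.exp_pos v').le, ← Real.sqrt_mul (by positivity)]
    rw [Real.sqrt_sq (Real.exp_pos v').le]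
    congr 1
    simp only [Real.exp_zero]
    ring
  exact Real.exp_injective this

theorem yy_symm (v v' : ℝ) : yy v v' = yy v' v := by unfold yy; rw [add_comm]

theorem yy_shift' (v s : ℝ) : yy v (v + s) = v + yy s 0 := by rw [yy_symm, yy_shift]

theorem yy_measurable : Measurable (fun s => yy s 0) := by unfold yy; fun_prop

theorem fd_measurable {q κ : ℕ} (hκ : κ ≤ 1) (β : ℕ → ℝ) (N : ℕ) (χ : DirichletCharacter ℂ q) :
    Measurable (fd κ β N χ) := by
  unfold fd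
  refine Finset.measurable_sum _ fun k _ => Finset.measurable_sum _ fun l _ => ?_
  exact ((dens_measurable hκ 1 χ).comp (measurable_id.add_const _)).const_mul _

theorem Dd_measurable {q κ : ℕ} (hκ : κ ≤ 1) (β : ℕ → ℝ) (N : ℕ) (χ : DirichletCharacter ℂ q) :
    Measurable (Dd κ β N χ) := by
  unfold Dd
  refine Finset.measurable_sum _ fun k _ => Finset.measurable_sum _ fun l _ => ?_
  exact ((dens_measurable hκ 1 χ).comp (measurable_id.add_const _)).const_mul _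

theorem dens_decay {q : ℕ} (hq : 2 ≤ q) {κ : ℕ} (hκ : κ ≤ 1) (χ : DirichletCharacter ℂ q)
    (u : ℝ) : ‖dens κ 1 χ u‖ ≤ Real.pi * Real.exp (-u / 2) := by
  have hδ : 0 < Real.exp u := Real.exp_pos u
  have hT : ‖T κ 1 χ (Real.exp u)‖ ≤ Real.pi / (2 * Real.exp u) := by
    refine le_trans ?_ (X_le hδ)
    set f : ℕ → ℂ := fun n => χ n * (if n.Coprime 1 then (G κ (n * Real.exp u) : ℂ) else 0)
      with hf
    have hfle : ∀ n, ‖f n‖ ≤ 1 / (1 + ((n : ℝ) * Real.exp u) ^ 2) := by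
      intro n
      simp only [hf]
      rw [if_pos (Nat.coprime_one_right n), norm_mul, Complex.norm_real, Real.norm_eq_abs]
      calc ‖χ n‖ * |G κ (n * Real.exp u)| ≤ 1 * (1 / (1 + ((n : ℝ) * Real.exp u) ^ 2)) :=
            mul_le_mul (χ.norm_le_one _) (G_le hκ (by positivity)) (abs_nonneg _) zero_le_one
        _ = _ := one_mul _
    have hs : Summable f := Summable.of_norm_bounded (ell_aux_summable hδ) hfle
    have hf0 : f 0 = 0 := by
      have : ¬ IsUnit ((0 : ℕ) : ZMod q) := by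
        rw [ZMod.isUnit_iff_coprime, Nat.coprime_zero_left]; omega
      simp only [hf]
      rw [χ.map_nonunit this, zero_mul]
    show ‖∑' n, f n‖ ≤ X (Real.exp u)
    rw [hs.tsum_eq_zero_add, hf0, zero_add]
    refine tsum_of_norm_bounded (X_summable hδ).hasSum fun n => ?_
    have := hfle (n + 1)
    push_cast at this
    exact this
  unfold dens
  rw [norm_mul, norm_mul, Complex.norm_ofNat, Complex.norm_real, Real.norm_of_nonneg
    (Real.exp_pos _).le]
  calc 2 * Real.exp (u / 2) * ‖T κ 1 χ (Real.exp u)‖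
      ≤ 2 * Real.exp (u / 2) * (Real.pi / (2 * Real.exp u)) := by gcongr
    _ = Real.pi * (Real.exp (u / 2) / Real.exp u) := by ring
    _ = Real.pi * Real.exp (-u / 2) := by
        rw [← Real.exp_sub]; congr 2; ring

theorem fd_decay {q : ℕ} (hq : 2 ≤ q) {κ : ℕ} (hκ : κ ≤ 1) (β : ℕ → ℝ) (N : ℕ)
    (χ : DirichletCharacter ℂ q) : ∃ B : ℝ, 0 ≤ B ∧ ∀ v, ‖fd κ β N χ v‖ ≤
      B * Real.exp (-v / 2) := by
  have hpi := Real.pi_pos
  refine ⟨∑ k ∈ Finset.Ico 1 N, ∑ l ∈ Finset.Ico 1 N,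
    |β k * β l / (√k * √l)| * (Real.pi * Real.exp (-(Real.log k - Real.log l - Real.log q / 2) / 2)),
    Finset.sum_nonneg fun _ _ => Finset.sum_nonneg fun _ _ => by positivity, fun v => ?_⟩
  unfold fd
  rw [Finset.sum_mul]
  refine (norm_sum_le _ _).trans (Finset.sum_le_sum fun k _ => ?_)
  rw [Finset.sum_mul]
  refine (norm_sum_le _ _).trans (Finset.sum_le_sum fun l _ => ?_)
  rw [norm_mul, norm_mul, Complex.norm_real, Real.norm_eq_abs, norm_mul, RCLike.norm_conj]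
  have h1 := dens_decay hq hκ χ (v + (Real.log k - Real.log l - Real.log q / 2))
  have h2 : ‖χ k‖ * ‖χ l‖ ≤ 1 := by
    have := mul_le_mul (χ.norm_le_one k) (χ.norm_le_one l) (norm_nonneg _) zero_le_one
    simpa using this
  calc |β k * β l / (√k * √l)| * (‖χ k‖ * ‖χ l‖) *
        ‖dens κ 1 χ (v + (Real.log k - Real.log l - Real.log q / 2))‖
      ≤ |β k * β l / (√k * √l)| * 1 *
        (Real.pi * Real.exp (-(v + (Real.log k - Real.log l - Real.log q / 2)) / 2)) := by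
        gcongr
    _ = _ := by
        rw [mul_one, mul_assoc, mul_assoc Real.pi, ← Real.exp_add]
        congr 3
        ring

theorem two_le_of_log {L : ℝ} {q : ℕ} (hL : 1 ≤ L) (hq : 32 * L = Real.log q) : 2 ≤ q := by
  by_contra hcon
  have : Real.log q ≤ 0 := by
    apply Real.log_nonpos (by positivity)
    have : q ≤ 1 := by omega
    exact_mod_cast this
  linarith

theorem inv_q_le {L : ℝ} {q : ℕ} (hL : 1 ≤ L) (hq : 32 * L = Real.log q) :
    1 / (q : ℝ) ≤ 1 / L := by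
  have h2 := two_le_of_log hL hq
  have hq0 : (0 : ℝ) < q := by positivity
  have h3 : Real.log q + 1 ≤ q := Real.add_one_le_exp (Real.log q) |>.trans
    (le_of_eq (Real.exp_log hq0))
  gcongr
  linarith

/-- bound of the covariance of `f` -/
theorem crossF_le (hcf : CrossF) (hdn : DiagNonneg) : ∃ C : ℝ, 0 ≤ C ∧ ∀ κ : ℕ, κ ≤ 1 →
    ∀ (L : ℝ) (q : ℕ) [NeZero q], 1 ≤ L → 32 * L = Real.log q → ∀ v v' : ℝ, 0 ≤ v → 0 ≤ v' →
      ‖∑ χ : DirichletCharacter ℂ q, fd κ (fun n => be L n) (NN L) χ v *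
        starRingEnd ℂ (fd κ (fun n => be L n) (NN L) χ v')‖ ≤
        q.totient * (kk (v - v') * Diag κ q L (Real.exp (yy v v') / √q) +
          C * Real.exp (-(v + v') / 2) / q) ∧
      Diag κ q L (Real.exp v / √q) ≤
        (∑ χ : DirichletCharacter ℂ q, ‖fd κ (fun n => be L n) (NN L) χ v‖ ^ 2) / q.totient +
          C * Real.exp (-v) / q := by
  obtain ⟨C, hC, h⟩ := hcf
  refine ⟨C, hC, fun κ hκ L q _ hL hLq v v' hv hv' => ?_⟩
  have hq2 := two_le_of_log hL hLq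
  have hqpos : (0 : ℝ) < q := by positivity
  have hφ : (0 : ℝ) < q.totient := by exact_mod_cast Nat.totient_pos.2 (by omega)
  constructor
  · have h1 := h κ hκ L q hL hLq v v' hv hv'
    simp only [dF_eq_fd] at h1
    rw [← exp_yy] at h1
    have hD : 0 ≤ Diag κ q L (Real.exp (yy v v') / √q) := hdn hκ hq2 L (by positivity)
    set D := Diag κ q L (Real.exp (yy v v') / √q)
    set Z := ∑ χ : DirichletCharacter ℂ q, fd κ (fun n => be L n) (NN L) χ v *
        starRingEnd ℂ (fd κ (fun n => be L n) (NN L) χ v')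
    have h2 : ‖Z‖ ≤ q.totient * ((Real.cosh (v - v')) ^ (-(1 / 2 + (κ : ℝ))) * D) +
        q.totient * (C * Real.exp (-(v + v') / 2) / q) := by
      have h3 := norm_sub_norm_le Z
        ((q.totient * ((Real.cosh (v - v')) ^ (-(1 / 2 + (κ : ℝ))) * D) : ℝ) : ℂ)
      rw [Complex.norm_real, Real.norm_of_nonneg (by positivity)] at h3
      linarith
    refine h2.trans ?_
    rw [← mul_add]
    have h4 := cosh_rpow_le' (κ := κ) (v - v')
    gcongr
  · have h1 := h κ hκ L q hL hLq v v hv hv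
    simp only [dF_eq_fd] at h1
    rw [← exp_yy, yy_self, sub_self, Real.cosh_zero, Real.one_rpow, one_mul] at h1
    set D := Diag κ q L (Real.exp v / √q)
    have e1 : ∑ χ : DirichletCharacter ℂ q, fd κ (fun n => be L n) (NN L) χ v *
        starRingEnd ℂ (fd κ (fun n => be L n) (NN L) χ v) =
        ((∑ χ : DirichletCharacter ℂ q, ‖fd κ (fun n => be L n) (NN L) χ v‖ ^ 2 : ℝ) : ℂ) := by
      push_cast
      refine Finset.sum_congr rfl fun χ _ => ?_
      rw [Complex.mul_conj, Complex.normSq_eq_norm_sq]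
      push_cast; rfl
    rw [e1, ← Complex.ofReal_sub, Complex.norm_real, Real.norm_eq_abs, abs_le] at h1
    have h2 := h1.1
    have e2 : -(v + v) / 2 = -v := by ring
    rw [e2] at h2
    have h3 : q.totient * D ≤ (∑ χ : DirichletCharacter ℂ q,
        ‖fd κ (fun n => be L n) (NN L) χ v‖ ^ 2) + q.totient * (C * Real.exp (-v) / q) := by
      linarith
    have h4 : D ≤ ((∑ χ : DirichletCharacter ℂ q,
        ‖fd κ (fun n => be L n) (NN L) χ v‖ ^ 2) + q.totient * (C * Real.exp (-v) / q)) /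
          q.totient := by
      rw [le_div_iff₀ hφ]; linarith
    refine h4.trans (le_of_eq ?_)
    field_simp

end Pool.Agent.SQS
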