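import Pool.Agent.Lib_helper24.SQ.S1

/-!
# S3: the pointwise second moment `∑_χ |F(t)|² ≤ C φ(q)` for every `t`
-/

noncomputable section

namespace Pool.Agent.SQS

open Complex MeasureTheory Filter Topology Pool.Agent.GRH Pool.Agent.SQ
open scoped ENNReal

theorem lint_exp_half : ∫⁻ v, (Set.Ioi (0 : ℝ)).indicator
    (fun v => ENNReal.ofReal (Real.exp (-v / 2))) v = ENNReal.ofReal 2 := by
  have hi : IntegrableOn (fun v : ℝ => Real.exp (-v / 2)) (Set.Ioi 0) := by
    refine (integrableOn_exp_mul_Ioi (a := -(1 / 2)) (by norm_num) 0).congr_fun ?_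
      measurableSet_Ioi
    intro s _
    simp only
    congr 1; ring
  rw [lintegral_indicator measurableSet_Ioi,
    ← ofReal_integral_eq_lintegral_ofReal hi (Eventually.of_forall fun v => (Real.exp_pos _).le)]
  congr 1
  have e : (fun v : ℝ => Real.exp (-v / 2)) = fun v : ℝ => Real.exp (-(1 / 2) * v) := by
    funext v; congr 1; ring
  rw [e, integral_exp_mul_Ioi (by norm_num) 0]
  norm_num

theorem S3 (hcf : CrossF) (hdn : DiagNonneg) (hf2 : MeanF2) : ∃ C : ℝ, 0 ≤ C ∧
    ∀ κ : ℕ, κ ≤ 1 → ∀ (L : ℝ) (q : ℕ) [NeZero q], 1 ≤ L → 32 * L = Real.log q →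
      ∀ t : ℝ, ∀ S : Finset (DirichletCharacter ℂ q), (∀ χ ∈ S, χ.IsPrimitive ∧ IsPar κ χ) →
        ∑ χ ∈ S, ‖hat (fd κ (fun n => be L n) (NN L) χ) t‖ ^ 2 ≤ C * q.totient := by
  obtain ⟨C, hC, h⟩ := crossF_le hcf hdn
  obtain ⟨C2, hC2, h2⟩ := hf2
  have hK0 : 0 ≤ ∫ u, kk u := integral_nonneg kk_nonneg
  set K : ℝ := ∫ u, kk u with hK
  refine ⟨4 * (K * (C2 + C) + 4 * C), by positivity, ?_⟩
  intro κ hκ L q _ hL hLq t S hS
  have hq2 := two_le_of_log hL hLq
  have hqpos : (0 : ℝ) < q := by positivity
  have hq1 : (1 : ℝ) ≤ q := by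
    have : (2 : ℝ) ≤ q := by exact_mod_cast hq2
    linarith
  have hL0 : 0 < L := by linarith
  have hφ : (0 : ℝ) < q.totient := by exact_mod_cast Nat.totient_pos.2 (by omega)
  set f : DirichletCharacter ℂ q → ℝ → ℂ := fun χ => fd κ (fun n => be L n) (NN L) χ with hf
  have hfm : ∀ χ, Measurable (f χ) := fun χ => fd_measurable hκ _ _ χ
  -- mean square
  set E : ℝ → ℝ := fun y => ∑ χ : DirichletCharacter ℂ q, ‖f χ y‖ ^ 2 with hE
  have hEm : Measurable E := Finset.measurable_sum _ fun χ _ => ((hfm χ).norm.pow_const 2)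
  have hE0 : ∀ y, 0 ≤ E y := fun y => Finset.sum_nonneg fun _ _ => by positivity
  obtain ⟨hEi, hEle⟩ := h2 κ hκ L q hL hLq
  simp only [dF_eq_fd] at hEi hEle
  -- the majorant
  set M : ℝ → ℝ := fun y => E y + q.totient * (C * Real.exp (-y) / q) with hM
  have hM0 : ∀ y, 0 ≤ M y := fun y => by
    have := hE0 y
    simp only [hM]; positivity
  have hMm : Measurable M := hEm.add (by fun_prop)
  have hexpi : IntegrableOn (fun y : ℝ => Real.exp (-y)) (Set.Ioi 0) := integrableOn_exp_neg_Ioi 0
  have hMi : IntegrableOn M (Set.Ioi 0) := by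
    refine Integrable.add hEi ?_
    refine Integrable.const_mul ?_ _
    refine Integrable.div_const ?_ _
    exact hexpi.const_mul _
  have hMle : ∫ y in Set.Ioi (0 : ℝ), M y ≤ (C2 + C) * q.totient := by
    have e1 : ∫ y in Set.Ioi (0 : ℝ), M y = (∫ y in Set.Ioi (0 : ℝ), E y) +
        ∫ y in Set.Ioi (0 : ℝ), q.totient * (C * Real.exp (-y) / q) := by
      refine integral_add hEi ?_
      refine Integrable.const_mul ?_ _
      refine Integrable.div_const ?_ _
      exact hexpi.const_mul _
    have e2 : ∫ y in Set.Ioi (0 : ℝ), q.totient * (C * Real.exp (-y) / q) =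
        q.totient * (C / q) := by
      rw [integral_const_mul, integral_div, integral_const_mul, integral_exp_neg_Ioi_zero, mul_one]
    rw [e1, e2]
    have h3 : q.totient * (C / q) ≤ q.totient * C := by
      gcongr
      exact div_le_self hC hq1
    have h4 : ∫ y in Set.Ioi (0 : ℝ), E y ≤ C2 * q.totient := hEle
    linarith
  -- the half line functions
  set hh : DirichletCharacter ℂ q → ℝ → ℂ := fun χ =>
    (Set.Ioi (0 : ℝ)).indicator (fun v => f χ v * cexp (t * v * I)) with hhh
  have hhi : ∀ χ, Integrable (hh χ) := by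
    intro χ
    simp only [hhh]
    rw [integrable_indicator_iff measurableSet_Ioi]
    obtain ⟨B, hB, hBd⟩ := fd_decay hq2 hκ (fun n => be L n) (NN L) χ
    have hi : IntegrableOn (fun v : ℝ => B * Real.exp (-v / 2)) (Set.Ioi 0) := by
      refine Integrable.const_mul ?_ _
      refine (integrableOn_exp_mul_Ioi (a := -(1 / 2)) (by norm_num) 0).congr_fun ?_
        measurableSet_Ioi
      intro s _
      simp only
      congr 1; ring
    refine Integrable.mono' hi ?_ (Eventually.of_forall fun v => ?_)
    · exact ((hfm χ).mul (by fun_prop)).aestronglyMeasurable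
    · rw [norm_mul, expI_norm, mul_one]; exact hBd v
  -- `hat f = A + ω conj A`
  have hone : ∀ χ ∈ S, ‖hat (f χ) t‖ ^ 2 ≤ 4 * ‖∫ v, hh χ v‖ ^ 2 := by
    intro χ hχ
    obtain ⟨hp, hpar⟩ := hS χ hχ
    have hχ1 := prim_ne_one hq2 hp
    obtain ⟨ω, hω, hsym⟩ := fd_symm' hq2 (fun n => be L n) (NN L) χ hp hχ1 hpar
    have hn := fd_nice hq2 (fun n => be L n) (NN L) χ hχ1 hpar
    have hi := hat_integrable hn.int t
    have e1 : hat (f χ) t = (∫ v, hh χ v) + ∫ v in Set.Iic 0, f χ v * cexp (t * v * I) := by
      unfold hat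
      simp only [hhh]
      rw [integral_indicator measurableSet_Ioi, add_comm]
      exact (intervalIntegral.integral_Iic_add_Ioi hi.integrableOn hi.integrableOn).symm
    have e2 : ∫ v in Set.Iic 0, f χ v * cexp (t * v * I) =
        ω * starRingEnd ℂ (∫ v, hh χ v) := by
      have h3 := integral_comp_neg_Ioi (0 : ℝ) (fun v => f χ v * cexp (t * v * I))
      rw [neg_zero] at h3
      rw [← h3, ← integral_conj, ← integral_const_mul]
      simp only [hhh]
      rw [← integral_indicator measurableSet_Ioi]
      refine integral_congr_ae ?_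
      have hsym' : ∀ᵐ v : ℝ, fd κ (fun n => be L n) (NN L) χ (-v) =
          ω * starRingEnd ℂ (fd κ (fun n => be L n) (NN L) χ v) := by
        have := (Measure.measurePreserving_neg (volume : Measure ℝ)).quasiMeasurePreserving.ae hsym
        filter_upwards [this] with v hv
        rw [hv, neg_neg]
      filter_upwards [hsym'] with v hv
      by_cases h0 : v ∈ Set.Ioi (0 : ℝ)
      · rw [Set.indicator_of_mem h0, Set.indicator_of_mem h0, map_mul, ← Complex.exp_conj]
        show fd κ (fun n => be L n) (NN L) χ (-v) * _ = _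
        rw [hv]
        have e3 : starRingEnd ℂ ((t : ℂ) * v * I) = (t : ℂ) * ((-v : ℝ) : ℂ) * I := by
          rw [map_mul, map_mul, Complex.conj_ofReal, Complex.conj_ofReal, Complex.conj_I]
          push_cast; ring
        rw [e3]; ring
      · rw [Set.indicator_of_notMem h0, Set.indicator_of_notMem h0]; simp
    have e3 : ‖hat (f χ) t‖ ≤ 2 * ‖∫ v, hh χ v‖ := by
      rw [e1, e2]
      refine (norm_add_le _ _).trans ?_
      rw [norm_mul, hω, one_mul, RCLike.norm_conj]
      linarith
    calc ‖hat (f χ) t‖ ^ 2 ≤ (2 * ‖∫ v, hh χ v‖) ^ 2 := by gcongr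
      _ = _ := by ring
  -- bound for the half line integrals
  have hmain : ∑ χ : DirichletCharacter ℂ q, ‖∫ v, hh χ v‖ ^ 2 ≤
      (K * (C2 + C) + 4 * C) * q.totient := by
    set m : ℝ → ℝ≥0∞ := (Set.Ioi (0 : ℝ)).indicator (fun y => ENNReal.ofReal (M y)) with hm
    have hmm : Measurable m := hMm.ennreal_ofReal.indicator measurableSet_Ioi
    have hmint : ∫⁻ y, m y ≤ ENNReal.ofReal ((C2 + C) * q.totient) := by
      simp only [hm]
      rw [lintegral_indicator measurableSet_Ioi,
        ← ofReal_integral_eq_lintegral_ofReal hMi (Eventually.of_forall fun v => hM0 v)]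
      exact ENNReal.ofReal_le_ofReal hMle
    set κκ : ℝ → ℝ≥0∞ := fun u => ENNReal.ofReal (kk u) with hκκ
    have hκm : Measurable κκ := kk_measurable.ennreal_ofReal
    have hκint : ∫⁻ v, κκ v = ENNReal.ofReal K :=
      (ofReal_integral_eq_lintegral_ofReal kk_integrable
        (Eventually.of_forall fun v => kk_nonneg v)).symm
    set e : ℝ → ℝ≥0∞ := (Set.Ioi (0 : ℝ)).indicator
      (fun v => ENNReal.ofReal (Real.exp (-v / 2))) with he
    have hem : Measurable e := by
      refine Measurable.indicator ?_ measurableSet_Ioi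
      fun_prop
    have hpt : ∀ v v', ‖∑ χ : DirichletCharacter ℂ q, hh χ v * starRingEnd ℂ (hh χ v')‖ₑ ≤
        κκ (v - v') * m (yy v v') +
          ENNReal.ofReal (C * q.totient / q) * (e v * e v') := by
      intro v v'
      by_cases hv : v ∈ Set.Ioi (0 : ℝ)
      · by_cases hv' : v' ∈ Set.Ioi (0 : ℝ)
        · have hv0 : 0 < v := hv
          have hv0' : 0 < v' := hv'
          have hy : 0 < yy v v' :=
            lt_of_lt_of_le (lt_min hv0 hv0') (le_yy (min_le_left _ _) (min_le_right _ _))
          have h3 := (h κ hκ L q hL hLq v v' hv0.le hv0'.le).1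
          have h4 := (h κ hκ L q hL hLq (yy v v') v' hy.le hv0'.le).2
          have e0 : ∑ χ : DirichletCharacter ℂ q, hh χ v * starRingEnd ℂ (hh χ v') =
              (cexp (t * v * I) * starRingEnd ℂ (cexp (t * v' * I))) *
              ∑ χ : DirichletCharacter ℂ q, f χ v * starRingEnd ℂ (f χ v') := by
            rw [Finset.mul_sum]
            refine Finset.sum_congr rfl fun χ _ => ?_
            simp only [hhh]
            rw [Set.indicator_of_mem hv, Set.indicator_of_mem hv', map_mul]
            ring
          have e1 : ‖∑ χ : DirichletCharacter ℂ q, hh χ v * starRingEnd ℂ (hh χ v')‖ ≤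
              kk (v - v') * M (yy v v') +
                (C * q.totient / q) * (Real.exp (-v / 2) * Real.exp (-v' / 2)) := by
            rw [e0, norm_mul, norm_mul, RCLike.norm_conj, expI_norm, expI_norm, one_mul, one_mul]
            refine h3.trans ?_
            have hk := kk_nonneg (v - v')
            have e2 : Real.exp (-(v + v') / 2) = Real.exp (-v / 2) * Real.exp (-v' / 2) := by
              rw [← Real.exp_add]; congr 1; ring
            rw [e2]
            have h5 : q.totient * Diag κ q L (Real.exp (yy v v') / √q) ≤ M (yy v v') := by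
              have h6 := mul_le_mul_of_nonneg_left h4 hφ.le
              refine h6.trans (le_of_eq ?_)
              simp only [hM, hE, hf]
              field_simp
            calc q.totient * (kk (v - v') * Diag κ q L (Real.exp (yy v v') / √q) +
                  C * (Real.exp (-v / 2) * Real.exp (-v' / 2)) / q)
                = kk (v - v') * (q.totient * Diag κ q L (Real.exp (yy v v') / √q)) +
                  (C * q.totient / q) * (Real.exp (-v / 2) * Real.exp (-v' / 2)) := by ring
              _ ≤ _ := by gcongr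
          rw [← ofReal_norm]
          refine (ENNReal.ofReal_le_ofReal e1).trans (le_of_eq ?_)
          have hk := kk_nonneg (v - v')
          have hMy := hM0 (yy v v')
          rw [ENNReal.ofReal_add (by positivity) (by positivity), ENNReal.ofReal_mul hk,
            ENNReal.ofReal_mul (by positivity), ENNReal.ofReal_mul (by positivity)]
          simp only [hm, he]
          rw [Set.indicator_of_mem (Set.mem_Ioi.2 hy), Set.indicator_of_mem hv,
            Set.indicator_of_mem hv']
        · have : ∑ χ : DirichletCharacter ℂ q, hh χ v * starRingEnd ℂ (hh χ v') = 0 := by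
            refine Finset.sum_eq_zero fun χ _ => ?_
            simp only [hhh]
            rw [Set.indicator_of_notMem hv', map_zero, mul_zero]
          rw [this, enorm_zero]; exact zero_le
      · have : ∑ χ : DirichletCharacter ℂ q, hh χ v * starRingEnd ℂ (hh χ v') = 0 := by
          refine Finset.sum_eq_zero fun χ _ => ?_
          simp only [hhh]
          rw [Set.indicator_of_notMem hv, zero_mul]
        rw [this, enorm_zero]; exact zero_le
    have hyym : Measurable fun p : ℝ × ℝ => yy p.1 p.2 := by unfold yy; fun_prop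
    have hA1 : ∫⁻ v, ∫⁻ v', κκ (v - v') * m (yy v v') ≤
        ENNReal.ofReal (K * ((C2 + C) * q.totient)) := by
      have e1 : ∀ v, ∫⁻ v', κκ (v - v') * m (yy v v') = ∫⁻ s, κκ (-s) * m (v + yy s 0) := by
        intro v
        rw [← lintegral_add_left_eq_self (fun v' => κκ (v - v') * m (yy v v')) v]
        refine lintegral_congr fun s => ?_
        rw [yy_shift']
        congr 2; ring
      simp_rw [e1]
      rw [lintegral_lintegral_swap]
      · have e2 : ∀ s, ∫⁻ v, κκ (-s) * m (v + yy s 0) = κκ (-s) * ∫⁻ v, m v := by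
          intro s
          have hms : Measurable fun v => m (v + yy s 0) :=
            hmm.comp (measurable_id.add measurable_const)
          rw [lintegral_const_mul _ hms, lintegral_add_right_eq_self m (yy s 0)]
        simp_rw [e2]
        have hκn : Measurable fun s => κκ (-s) := hκm.comp measurable_neg
        rw [lintegral_mul_const _ hκn, lintegral_neg_eq_self κκ, hκint, ENNReal.ofReal_mul hK0]
        gcongr
      · exact ((hκm.comp (measurable_neg.comp measurable_snd)).mul
          (hmm.comp (measurable_fst.add (yy_measurable.comp measurable_snd)))).aemeasurable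
    have hA2 : ∫⁻ v, ∫⁻ v', ENNReal.ofReal (C * q.totient / q) * (e v * e v') ≤
        ENNReal.ofReal (4 * C * q.totient) := by
      have e1 : ∀ v, ∫⁻ v', ENNReal.ofReal (C * q.totient / q) * (e v * e v') =
          ENNReal.ofReal (C * q.totient / q) * e v * ENNReal.ofReal 2 := by
        intro v
        rw [← lint_exp_half, ← he, ← lintegral_const_mul _ hem]
        refine lintegral_congr fun v' => ?_
        ring
      simp_rw [e1]
      rw [lintegral_mul_const _ (hem.const_mul _), lintegral_const_mul _ hem, lint_exp_half,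
        ← ENNReal.ofReal_mul (by positivity), ← ENNReal.ofReal_mul (by positivity)]
      apply ENNReal.ofReal_le_ofReal
      have : C * q.totient / q ≤ C * q.totient := div_le_self (by positivity) hq1
      linarith
    have key : ENNReal.ofReal (∑ χ : DirichletCharacter ℂ q, ‖∫ v, hh χ v‖ ^ 2) ≤
        ENNReal.ofReal ((K * (C2 + C) + 4 * C) * q.totient) := by
      refine (sum_sq_le Finset.univ hh fun χ _ => hhi χ).trans ?_
      have hmeas1 : ∀ v, Measurable fun v' => κκ (v - v') * m (yy v v') := by
        intro v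
        exact (hκm.comp (measurable_const.sub measurable_id)).mul
          (hmm.comp (hyym.comp (measurable_const.prodMk measurable_id)))
      have hmeas2 : Measurable fun v => ∫⁻ v', κκ (v - v') * m (yy v v') := by
        refine Measurable.lintegral_prod_right' (f := fun p : ℝ × ℝ =>
          κκ (p.1 - p.2) * m (yy p.1 p.2)) ?_
        exact (hκm.comp (measurable_fst.sub measurable_snd)).mul (hmm.comp hyym)
      calc ∫⁻ v, ∫⁻ v', ‖∑ χ : DirichletCharacter ℂ q, hh χ v * starRingEnd ℂ (hh χ v')‖ₑ
          ≤ ∫⁻ v, ∫⁻ v', (κκ (v - v') * m (yy v v') +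
            ENNReal.ofReal (C * q.totient / q) * (e v * e v')) :=
            lintegral_mono fun v => lintegral_mono fun v' => hpt v v'
        _ = (∫⁻ v, ∫⁻ v', κκ (v - v') * m (yy v v')) +
            ∫⁻ v, ∫⁻ v', ENNReal.ofReal (C * q.totient / q) * (e v * e v') := by
            have : ∀ v, ∫⁻ v', (κκ (v - v') * m (yy v v') +
                ENNReal.ofReal (C * q.totient / q) * (e v * e v')) =
                (∫⁻ v', κκ (v - v') * m (yy v v')) +
                ∫⁻ v', ENNReal.ofReal (C * q.totient / q) * (e v * e v') := fun v =>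
              lintegral_add_left (hmeas1 v) _
            simp_rw [this]
            rw [lintegral_add_left hmeas2]
        _ ≤ ENNReal.ofReal (K * ((C2 + C) * q.totient)) + ENNReal.ofReal (4 * C * q.totient) :=
            add_le_add hA1 hA2
        _ = ENNReal.ofReal ((K * (C2 + C) + 4 * C) * q.totient) := by
            rw [← ENNReal.ofReal_add (by positivity) (by positivity)]
            congr 1; ring
    exact (ENNReal.ofReal_le_ofReal_iff (by positivity)).1 key
  calc ∑ χ ∈ S, ‖hat (f χ) t‖ ^ 2
      ≤ ∑ χ ∈ S, 4 * ‖∫ v, hh χ v‖ ^ 2 := Finset.sum_le_sum hone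
    _ ≤ ∑ χ : DirichletCharacter ℂ q, 4 * ‖∫ v, hh χ v‖ ^ 2 :=
        Finset.sum_le_sum_of_subset_of_nonneg (Finset.subset_univ _)
          fun χ _ _ => by positivity
    _ = 4 * ∑ χ : DirichletCharacter ℂ q, ‖∫ v, hh χ v‖ ^ 2 := by rw [Finset.mul_sum]
    _ ≤ 4 * ((K * (C2 + C) + 4 * C) * q.totient) := by gcongr
    _ = _ := by ring

end Pool.Agent.SQS
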