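import Pool.Agent.Lib_helper24.GRH.Odd
import Pool.Agent.Lib_helper24.GRH.Key
import Pool.Agent.Lib_helper24.GRH.Limit
import Pool.Agent.Lib_helper24.SQ.PL

/-!
# Section 2 of the blueprint: Fourier representations of `Λ φ²` and `q^{it/2} Λ |φ|²`
-/

noncomputable section

namespace Pool.Agent.SQS

open Complex MeasureTheory Filter Topology Pool.Agent.GRH

variable {q : ℕ}

/-- `χ` has parity `κ` -/
def IsPar (κ : ℕ) (χ : DirichletCharacter ℂ q) : Prop := (κ = 0 ∧ χ.Even) ∨ (κ = 1 ∧ χ.Odd)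

/-- the mollifier `∑_{1 ≤ n < N} β(n) χ(n) n^{-1/2-it}` -/
def moll (β : ℕ → ℝ) (N : ℕ) (χ : DirichletCharacter ℂ q) (t : ℝ) : ℂ :=
  ∑ n ∈ Finset.Ico 1 N, (β n : ℂ) * χ n * (n : ℂ) ^ (-(1 / 2 + t * I) : ℂ)

/-- the Fourier density of `q^{it/2} Λ(1/2+it,χ) |φ(t)|²` -/
def fd (κ : ℕ) (β : ℕ → ℝ) (N : ℕ) (χ : DirichletCharacter ℂ q) (v : ℝ) : ℂ :=
  ∑ k ∈ Finset.Ico 1 N, ∑ l ∈ Finset.Ico 1 N,
    ((β k * β l / (√k * √l) : ℝ) : ℂ) * (χ k * starRingEnd ℂ (χ l)) *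
      dens κ 1 χ (v + (Real.log k - Real.log l - Real.log q / 2))

/-- the Fourier density of `Λ(1/2+it,χ) φ(t)²` -/
def Dd (κ : ℕ) (β : ℕ → ℝ) (N : ℕ) (χ : DirichletCharacter ℂ q) (u : ℝ) : ℂ :=
  ∑ k ∈ Finset.Ico 1 N, ∑ l ∈ Finset.Ico 1 N,
    ((β k * β l / (√k * √l) : ℝ) : ℂ) * (χ k * χ l) *
      dens κ 1 χ (u + (Real.log k + Real.log l))

theorem dens_bdd [NeZero q] (hq : 2 ≤ q) {κ : ℕ} (hκ : κ ≤ 1) (χ : DirichletCharacter ℂ q)
    (hχ : χ ≠ 1) : ∃ B : ℝ, 0 ≤ B ∧ ∀ u, ‖dens κ 1 χ u‖ ≤ B := by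
  obtain ⟨C, hC0, hC⟩ := meanA hκ (m := 1) one_pos
  refine ⟨√(C * q.totient), Real.sqrt_nonneg _, fun u => ?_⟩
  apply Real.le_sqrt_of_sq_le
  refine le_trans ?_ (hC q hq u)
  exact Finset.single_le_sum (f := fun χ => ‖dens κ 1 χ u‖ ^ 2) (fun _ _ => by positivity)
    (Finset.mem_erase.2 ⟨hχ, Finset.mem_univ _⟩)

theorem IsPar.le {κ : ℕ} {χ : DirichletCharacter ℂ q} (h : IsPar κ χ) : κ ≤ 1 := by
  rcases h with h | h <;> omega

/-- bounded + integrable + measurable, closed under the operations we need. -/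
structure Nice (h : ℝ → ℂ) : Prop where
  meas : Measurable h
  int : Integrable h
  bdd : ∃ B : ℝ, ∀ u, ‖h u‖ ≤ B

theorem Nice.sq {h : ℝ → ℂ} (H : Nice h) : Integrable (fun u => ‖h u‖ ^ 2) := by
  obtain ⟨B, hB⟩ := H.bdd
  have : (fun u => ‖h u‖ ^ 2) = fun u => ‖h u‖ * ‖h u‖ := by funext u; ring
  rw [this]
  refine H.int.norm.bdd_mul (c := B) H.meas.norm.aestronglyMeasurable
    (Eventually.of_forall fun u => ?_)
  rw [norm_norm]; exact hB u

theorem Nice.shift {h : ℝ → ℂ} (H : Nice h) (a : ℝ) : Nice (fun u => h (u + a)) := by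
  refine ⟨H.meas.comp (measurable_id.add_const a), H.int.comp_add_right a, ?_⟩
  obtain ⟨B, hB⟩ := H.bdd
  exact ⟨B, fun u => hB _⟩

theorem Nice.const_mul {h : ℝ → ℂ} (H : Nice h) (c : ℂ) : Nice (fun u => c * h u) := by
  refine ⟨H.meas.const_mul c, H.int.const_mul c, ?_⟩
  obtain ⟨B, hB⟩ := H.bdd
  refine ⟨‖c‖ * B, fun u => ?_⟩
  rw [norm_mul]
  exact mul_le_mul_of_nonneg_left (hB u) (norm_nonneg _)

theorem Nice.add {g h : ℝ → ℂ} (G : Nice g) (H : Nice h) : Nice (fun u => g u + h u) := by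
  refine ⟨G.meas.add H.meas, G.int.add H.int, ?_⟩
  obtain ⟨B, hB⟩ := G.bdd
  obtain ⟨B', hB'⟩ := H.bdd
  exact ⟨B + B', fun u => (norm_add_le _ _).trans (add_le_add (hB u) (hB' u))⟩

theorem Nice.sub {g h : ℝ → ℂ} (G : Nice g) (H : Nice h) : Nice (fun u => g u - h u) := by
  refine ⟨G.meas.sub H.meas, G.int.sub H.int, ?_⟩
  obtain ⟨B, hB⟩ := G.bdd
  obtain ⟨B', hB'⟩ := H.bdd
  exact ⟨B + B', fun u => (norm_sub_le _ _).trans (add_le_add (hB u) (hB' u))⟩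

theorem Nice.sum {ι : Type*} (s : Finset ι) {h : ι → ℝ → ℂ} (H : ∀ i ∈ s, Nice (h i)) :
    Nice (fun u => ∑ i ∈ s, h i u) := by
  classical
  induction s using Finset.induction_on with
  | empty =>
    simp only [Finset.sum_empty]
    exact ⟨measurable_const, integrable_zero _ _ _, 0, fun _ => by simp⟩
  | insert a s ha ih =>
    simp only [Finset.sum_insert ha]
    exact (H a (Finset.mem_insert_self _ _)).add
      (ih fun i hi => H i (Finset.mem_insert_of_mem hi))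

theorem Nice.conj_neg {h : ℝ → ℂ} (H : Nice h) : Nice (fun u => starRingEnd ℂ (h (-u))) := by
  refine ⟨Complex.continuous_conj.measurable.comp (H.meas.comp measurable_neg), ?_, ?_⟩
  · have : Integrable (fun u => h (-u)) := H.int.comp_neg
    exact (Complex.conjLIE.toContinuousLinearEquiv : ℂ ≃L[ℝ] ℂ).integrable_comp_iff.2 this
  · obtain ⟨B, hB⟩ := H.bdd
    exact ⟨B, fun u => by rw [RCLike.norm_conj]; exact hB _⟩

theorem expI_norm (t u : ℝ) : ‖cexp (t * u * I)‖ = 1 := by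
  rw [show (t : ℂ) * u * I = ((t * u : ℝ) : ℂ) * I by push_cast; ring,
    Complex.norm_exp_ofReal_mul_I]

theorem hat_integrable {h : ℝ → ℂ} (H : Integrable h) (t : ℝ) :
    Integrable (fun u : ℝ => h u * cexp (t * u * I)) := by
  refine H.mul_bdd (c := 1) ?_ (Eventually.of_forall fun u => ?_)
  · exact (Continuous.aestronglyMeasurable (by fun_prop))
  · rw [expI_norm]

theorem hat_const_mul (c : ℂ) (h : ℝ → ℂ) (t : ℝ) :
    hat (fun u => c * h u) t = c * hat h t := by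
  unfold hat
  rw [← integral_const_mul]
  congr 1; funext u; ring

theorem hat_sub {g h : ℝ → ℂ} (G : Integrable g) (H : Integrable h) (t : ℝ) :
    hat (fun u => g u - h u) t = hat g t - hat h t := by
  unfold hat
  rw [← integral_sub (hat_integrable G t) (hat_integrable H t)]
  congr 1; funext u; ring

theorem hat_sum {ι : Type*} (s : Finset ι) {h : ι → ℝ → ℂ} (H : ∀ i ∈ s, Integrable (h i))
    (t : ℝ) : hat (fun u => ∑ i ∈ s, h i u) t = ∑ i ∈ s, hat (h i) t := by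
  unfold hat
  rw [← integral_finsetSum _ fun i hi => hat_integrable (H i hi) t]
  congr 1; funext u; rw [Finset.sum_mul]

theorem hat_shift (h : ℝ → ℂ) (a t : ℝ) :
    hat (fun u => h (u + a)) t = cexp (-(t * a * I)) * hat h t := by
  unfold hat
  have h' := integral_add_right_eq_self (μ := volume)
    (fun u : ℝ => h u * cexp (t * (u - a) * I)) a
  have h1 : (fun u : ℝ => h (u + a) * cexp (t * u * I)) =
      fun u : ℝ => h (u + a) * cexp (t * (((u + a : ℝ) : ℂ) - a) * I) := by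
    funext u
    congr 2
    push_cast
    ring
  rw [h1, h', ← integral_const_mul]
  congr 1
  funext u
  rw [mul_left_comm, ← Complex.exp_add]
  congr 2
  ring

theorem hat_conj_neg (h : ℝ → ℂ) (t : ℝ) :
    hat (fun u => starRingEnd ℂ (h (-u))) t = starRingEnd ℂ (hat h t) := by
  unfold hat
  rw [← integral_conj]
  rw [← integral_neg_eq_self]
  congr 1
  funext u
  simp only [neg_neg, map_mul]
  congr 1
  rw [← Complex.exp_conj]
  congr 1
  simp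

theorem dens_nice [NeZero q] (hq : 2 ≤ q) {κ : ℕ} (χ : DirichletCharacter ℂ q)
    (hχ : χ ≠ 1) (hκ : IsPar κ χ) : Nice (dens κ 1 χ) := by
  refine ⟨dens_measurable hκ.le 1 χ, (rep χ hχ κ hκ).1, ?_⟩
  obtain ⟨B, _, hB⟩ := dens_bdd hq hκ.le χ hχ
  exact ⟨B, hB⟩

theorem dens₁_nice {κ : ℕ} (hκ : κ ≤ 1) : Nice (dens₁ κ) :=
  ⟨dens₁_measurable κ, (gam κ).1, dens₁_bdd hκ⟩

theorem fd_nice [NeZero q] (hq : 2 ≤ q) {κ : ℕ} (β : ℕ → ℝ) (N : ℕ)
    (χ : DirichletCharacter ℂ q) (hχ : χ ≠ 1) (hκ : IsPar κ χ) : Nice (fd κ β N χ) :=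
  Nice.sum _ fun _ _ => Nice.sum _ fun _ _ => ((dens_nice hq χ hχ hκ).shift _).const_mul _

theorem Dd_nice [NeZero q] (hq : 2 ≤ q) {κ : ℕ} (β : ℕ → ℝ) (N : ℕ)
    (χ : DirichletCharacter ℂ q) (hχ : χ ≠ 1) (hκ : IsPar κ χ) : Nice (Dd κ β N χ) :=
  Nice.sum _ fun _ _ => Nice.sum _ fun _ _ => ((dens_nice hq χ hχ hκ).shift _).const_mul _

theorem hat_dens [NeZero q] {κ : ℕ} (χ : DirichletCharacter ℂ q)
    (hχ : χ ≠ 1) (hκ : IsPar κ χ) (t : ℝ) :
    hat (dens κ 1 χ) t = DirichletCharacter.completedLFunction χ (1 / 2 + t * I) :=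
  ((rep χ hχ κ hκ).2 t).symm

theorem hat_dens₁ (κ : ℕ) (t : ℝ) : hat (dens₁ κ) t = Gammaℝ (1 / 2 + κ + t * I) :=
  ((gam κ).2 t).symm

theorem natpow_eq {n : ℕ} (hn : 0 < n) (t : ℝ) :
    (n : ℂ) ^ (-(1 / 2 + t * I) : ℂ) = ((1 / √n : ℝ) : ℂ) * cexp (-(t * Real.log n * I)) := by
  rw [pow_half hn]
  have h : (n : ℂ) ≠ 0 := by exact_mod_cast hn.ne'
  rw [Complex.cpow_def_of_ne_zero h, ← Complex.natCast_log]
  congr 1
  · push_cast; rw [one_div]
  · congr 1; ring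

theorem hat_fd [NeZero q] (hq : 2 ≤ q) {κ : ℕ} (β : ℕ → ℝ) (N : ℕ)
    (χ : DirichletCharacter ℂ q) (hχ : χ ≠ 1) (hκ : IsPar κ χ) (t : ℝ) :
    hat (fd κ β N χ) t = (q : ℂ) ^ ((t : ℂ) * I / 2) *
      DirichletCharacter.completedLFunction χ (1 / 2 + t * I) *
        (moll β N χ t * starRingEnd ℂ (moll β N χ t)) := by
  have hn := dens_nice hq χ hχ hκ
  unfold fd
  rw [hat_sum _ fun k _ => (Nice.sum _ fun l _ => (hn.shift _).const_mul _).int]
  have hqpos : 0 < q := by omega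
  have hq0' : (q : ℂ) ≠ 0 := by exact_mod_cast hqpos.ne'
  rw [moll, map_sum, Finset.sum_mul_sum, Finset.mul_sum]
  refine Finset.sum_congr rfl fun k hk => ?_
  rw [hat_sum _ fun l _ => ((hn.shift _).const_mul _).int, Finset.mul_sum]
  refine Finset.sum_congr rfl fun l hl => ?_
  have hk0 : 0 < k := (Finset.mem_Ico.1 hk).1
  have hl0 : 0 < l := (Finset.mem_Ico.1 hl).1
  rw [hat_const_mul, hat_shift, hat_dens χ hχ hκ, natpow_eq hk0, natpow_eq hl0]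
  simp only [map_mul, Complex.conj_ofReal]
  rw [← Complex.exp_conj]
  have e1 : starRingEnd ℂ (-(t * Real.log l * I) : ℂ) = t * Real.log l * I := by
    rw [map_neg, map_mul, map_mul, Complex.conj_ofReal, Complex.conj_ofReal, Complex.conj_I]
    ring
  rw [e1]
  have e2 : cexp (-(t * ((Real.log k - Real.log l - Real.log q / 2 : ℝ) : ℂ) * I)) =
      (q : ℂ) ^ ((t : ℂ) * I / 2) * (cexp (-(t * Real.log k * I)) * cexp (t * Real.log l * I)) := by
    rw [Complex.cpow_def_of_ne_zero hq0', ← Complex.exp_add, ← Complex.exp_add,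
      ← Complex.natCast_log]
    congr 1
    push_cast
    ring
  rw [e2]
  push_cast
  have hk1 : ((√k : ℝ) : ℂ) ≠ 0 := by
    have : 0 < √(k : ℝ) := Real.sqrt_pos.2 (by exact_mod_cast hk0)
    exact_mod_cast this.ne'
  have hl1 : ((√l : ℝ) : ℂ) ≠ 0 := by
    have : 0 < √(l : ℝ) := Real.sqrt_pos.2 (by exact_mod_cast hl0)
    exact_mod_cast this.ne'
  field_simp

theorem hat_Dd [NeZero q] (hq : 2 ≤ q) {κ : ℕ} (β : ℕ → ℝ) (N : ℕ)
    (χ : DirichletCharacter ℂ q) (hχ : χ ≠ 1) (hκ : IsPar κ χ) (t : ℝ) :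
    hat (Dd κ β N χ) t = DirichletCharacter.completedLFunction χ (1 / 2 + t * I) *
        (moll β N χ t * moll β N χ t) := by
  have hn := dens_nice hq χ hχ hκ
  unfold Dd
  rw [hat_sum _ fun k _ => (Nice.sum _ fun l _ => (hn.shift _).const_mul _).int]
  rw [moll, Finset.sum_mul_sum, Finset.mul_sum]
  refine Finset.sum_congr rfl fun k hk => ?_
  rw [hat_sum _ fun l _ => ((hn.shift _).const_mul _).int, Finset.mul_sum]
  refine Finset.sum_congr rfl fun l hl => ?_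
  have hk0 : 0 < k := (Finset.mem_Ico.1 hk).1
  have hl0 : 0 < l := (Finset.mem_Ico.1 hl).1
  rw [hat_const_mul, hat_shift, hat_dens χ hχ hκ, natpow_eq hk0, natpow_eq hl0]
  have e2 : cexp (-(t * ((Real.log k + Real.log l : ℝ) : ℂ) * I)) =
      cexp (-(t * Real.log k * I)) * cexp (-(t * Real.log l * I)) := by
    rw [← Complex.exp_add]
    congr 1
    push_cast
    ring
  rw [e2]
  push_cast
  have hk1 : ((√k : ℝ) : ℂ) ≠ 0 := by
    have : 0 < √(k : ℝ) := Real.sqrt_pos.2 (by exact_mod_cast hk0)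
    exact_mod_cast this.ne'
  have hl1 : ((√l : ℝ) : ℂ) ≠ 0 := by
    have : 0 < √(l : ℝ) := Real.sqrt_pos.2 (by exact_mod_cast hl0)
    exact_mod_cast this.ne'
  field_simp

theorem norm_hat_fd [NeZero q] (hq : 2 ≤ q) {κ : ℕ} (β : ℕ → ℝ) (N : ℕ)
    (χ : DirichletCharacter ℂ q) (hχ : χ ≠ 1) (hκ : IsPar κ χ) (t : ℝ) :
    ‖hat (fd κ β N χ) t‖ = ‖hat (Dd κ β N χ) t‖ := by
  rw [hat_fd hq β N χ hχ hκ, hat_Dd hq β N χ hχ hκ]
  simp only [norm_mul, RCLike.norm_conj]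
  rw [Complex.norm_natCast_cpow_of_pos (by omega)]
  simp

/-- energy identity -/
theorem energy [NeZero q] (hq : 2 ≤ q) {κ : ℕ} (β : ℕ → ℝ) (N : ℕ)
    (χ : DirichletCharacter ℂ q) (hχ : χ ≠ 1) (hκ : IsPar κ χ) :
    ∫ u, ‖Dd κ β N χ u‖ ^ 2 = ∫ v, ‖fd κ β N χ v‖ ^ 2 := by
  have h1 := (PL1 _ (Dd_nice hq β N χ hχ hκ).int (Dd_nice hq β N χ hχ hκ).sq).2
  have h2 := (PL1 _ (fd_nice hq β N χ hχ hκ).int (fd_nice hq β N χ hχ hκ).sq).2
  have h3 : ∫ t, ‖hat (fd κ β N χ) t‖ ^ 2 = ∫ t, ‖hat (Dd κ β N χ) t‖ ^ 2 := by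
    congr 1; funext t; rw [norm_hat_fd hq β N χ hχ hκ]
  rw [h1, h2] at h3
  have := Real.pi_pos
  exact (mul_left_cancel₀ (by positivity) h3).symm

/-- the functional equation in `f` -/
theorem fd_symm' [NeZero q] (hq : 2 ≤ q) {κ : ℕ} (β : ℕ → ℝ) (N : ℕ)
    (χ : DirichletCharacter ℂ q) (hχ : χ.IsPrimitive) (hχ1 : χ ≠ 1) (hκ : IsPar κ χ) :
    ∃ W : ℂ, ‖W‖ = 1 ∧ ∀ᵐ v : ℝ, fd κ β N χ v = W * starRingEnd ℂ (fd κ β N χ (-v)) := by
  obtain ⟨W, hW, hfe⟩ := fe_phase hq χ hχ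
  refine ⟨W, hW, ?_⟩
  have hn := fd_nice hq β N χ hχ1 hκ
  have hn2 := hn.conj_neg.const_mul W
  have hh := hn.sub hn2
  have hz : ∀ t, hat (fun v => fd κ β N χ v - W * starRingEnd ℂ (fd κ β N χ (-v))) t = 0 := by
    intro t
    rw [hat_sub hn.int hn2.int, hat_const_mul, hat_conj_neg, hat_fd hq β N χ hχ1 hκ,
      map_mul (starRingEnd ℂ) ((q : ℂ) ^ ((t : ℂ) * I / 2) *
        DirichletCharacter.completedLFunction χ (1 / 2 + t * I)), ← mul_assoc W, ← hfe t,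
      map_mul, Complex.conj_conj]
    ring
  have h1 := (PL1 _ hh.int hh.sq).2
  simp only [hz, norm_zero, ne_eq, OfNat.ofNat_ne_zero, not_false_eq_true, zero_pow,
    integral_zero] at h1
  have h2 : ∫ v, ‖fd κ β N χ v - W * starRingEnd ℂ (fd κ β N χ (-v))‖ ^ 2 = 0 := by
    have := Real.pi_pos
    rcases mul_eq_zero.1 h1.symm with h | h
    · exact absurd h (by positivity)
    · exact h
  rw [integral_eq_zero_iff_of_nonneg (fun v => by positivity) hh.sq] at h2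
  filter_upwards [h2] with v hv
  have : ‖fd κ β N χ v - W * starRingEnd ℂ (fd κ β N χ (-v))‖ = 0 := by
    simpa using hv
  exact sub_eq_zero.1 (norm_eq_zero.1 this)

/-- the functional equation in `f`, absolute values -/
theorem fd_symm [NeZero q] (hq : 2 ≤ q) {κ : ℕ} (β : ℕ → ℝ) (N : ℕ)
    (χ : DirichletCharacter ℂ q) (hχ : χ.IsPrimitive) (hχ1 : χ ≠ 1) (hκ : IsPar κ χ) :
    ∀ᵐ v : ℝ, ‖fd κ β N χ (-v)‖ = ‖fd κ β N χ v‖ := by
  obtain ⟨W, hW, h⟩ := fd_symm' hq β N χ hχ hχ1 hκ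
  filter_upwards [h] with v hv
  rw [hv, norm_mul, hW, one_mul, RCLike.norm_conj]

end Pool.Agent.SQS
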