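import Pool.Agent.Lib_helper24.SQ.Sec2A

/-!
# Section 2: the window and the mean squares
-/

noncomputable section

namespace Pool.Agent.SQS

open Complex MeasureTheory Filter Topology Pool.Agent.GRH

/-- the window `∫_0^H e^{isv} ds` -/
def win (H : ℝ) (v : ℝ) : ℂ := ∫ s in (0 : ℝ)..H, cexp (v * s * I)

theorem win_continuous (H : ℝ) : Continuous (win H) := by
  unfold win
  apply intervalIntegral.continuous_parametric_intervalIntegral_of_continuous'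
  fun_prop

theorem win_le {H : ℝ} (hH : 0 ≤ H) (v : ℝ) : ‖win H v‖ ≤ H := by
  unfold win
  have := intervalIntegral.norm_integral_le_of_norm_le_const (a := 0) (b := H) (C := 1)
    (f := fun s : ℝ => cexp (v * s * I)) (fun s _ => (expI_norm v s).le)
  simpa [abs_of_nonneg hH] using this

theorem win_le' (H : ℝ) {v : ℝ} (hv : v ≠ 0) : ‖win H v‖ ≤ 2 / |v| := by
  unfold win
  have hc : (v * I : ℂ) ≠ 0 := mul_ne_zero (by exact_mod_cast hv) I_ne_zero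
  have e : (fun s : ℝ => cexp (v * s * I)) = fun s : ℝ => cexp (v * I * s) := by
    funext s; congr 1; ring
  rw [e, integral_exp_mul_complex hc, norm_div]
  have h1 : ‖(v * I : ℂ)‖ = |v| := by simp
  rw [h1]
  have h2 : ‖cexp (v * I * H) - cexp (v * I * (0 : ℝ))‖ ≤ 2 := by
    refine (norm_sub_le _ _).trans ?_
    have e1 : (v * I * H : ℂ) = v * H * I := by ring
    have e2 : (v * I * (0 : ℝ) : ℂ) = v * (0 : ℝ) * I := by ring
    rw [e1, e2, expI_norm, expI_norm]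
    norm_num
  gcongr

theorem win_neg {H : ℝ} (hH : 0 ≤ H) (v : ℝ) : ‖win H (-v)‖ = ‖win H v‖ := by
  have : win H (-v) = starRingEnd ℂ (win H v) := by
    unfold win
    rw [intervalIntegral.integral_of_le hH, intervalIntegral.integral_of_le hH, ← integral_conj]
    congr 1
    funext s
    rw [← Complex.exp_conj]
    congr 1
    simp
  rw [this, RCLike.norm_conj]

theorem win_sq {H : ℝ} (hH : 0 ≤ H) : Integrable (fun v => ‖win H v‖ ^ 2) ∧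
    ∫ v, ‖win H v‖ ^ 2 = 2 * Real.pi * H := by
  set g : ℝ → ℂ := Set.indicator (Set.Ioc 0 H) (fun _ => 1) with hg
  have hgi : Integrable g := by
    rw [hg, integrable_indicator_iff measurableSet_Ioc]
    exact integrableOn_const (by simp)
  have hg2 : (fun u => ‖g u‖ ^ 2) = Set.indicator (Set.Ioc 0 H) (fun _ => (1 : ℝ)) := by
    funext u
    by_cases hu : u ∈ Set.Ioc 0 H
    · simp [hg, Set.indicator_of_mem hu]
    · simp [hg, Set.indicator_of_notMem hu]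
  have hg2i : Integrable (fun u => ‖g u‖ ^ 2) := by
    rw [hg2, integrable_indicator_iff measurableSet_Ioc]
    exact integrableOn_const (by simp)
  have hhat : ∀ v, hat g v = win H v := by
    intro v
    unfold hat win
    rw [intervalIntegral.integral_of_le hH, ← integral_indicator measurableSet_Ioc]
    congr 1
    funext u
    by_cases hu : u ∈ Set.Ioc 0 H
    · simp [hg, Set.indicator_of_mem hu]
    · simp [hg, Set.indicator_of_notMem hu]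
  have := PL1 g hgi hg2i
  simp only [hhat] at this
  refine ⟨this.1, this.2.trans ?_⟩
  congr 1
  rw [hg2, integral_indicator measurableSet_Ioc]
  simp [hH]

theorem hat_mul_win {f : ℝ → ℂ} (hf : Integrable f) {H : ℝ} (hH : 0 ≤ H) (t : ℝ) :
    hat (fun u => f u * win H u) t = ∫ s in t..(t + H), hat f s := by
  have e0 : ∫ s in t..(t + H), hat f s = ∫ s in (0 : ℝ)..H, hat f (t + s) := by
    rw [intervalIntegral.integral_comp_add_left (fun s => hat f s) t]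
    simp
  rw [e0]
  unfold hat win
  simp only [intervalIntegral.integral_of_le hH]
  have hint : Integrable (Function.uncurry fun (u s : ℝ) =>
      f u * cexp (((t + s : ℝ) : ℂ) * u * I))
      (volume.prod (volume.restrict (Set.Ioc 0 H))) := by
    have h1 : Integrable (fun p : ℝ × ℝ => f p.1 * (1 : ℂ))
        (volume.prod (volume.restrict (Set.Ioc 0 H))) :=
      hf.mul_prod (integrable_const (1 : ℂ))
    have h2 := h1.mul_bdd (c := 1) (g := fun p : ℝ × ℝ => cexp (((t + p.2 : ℝ) : ℂ) * p.1 * I))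
      (Continuous.aestronglyMeasurable (by fun_prop))
      (Eventually.of_forall fun p => (expI_norm _ _).le)
    refine h2.congr (Eventually.of_forall fun p => ?_)
    simp [Function.uncurry]
  rw [← integral_integral_swap hint]
  congr 1
  funext u
  rw [← integral_const_mul, ← integral_mul_const]
  congr 1
  funext s
  rw [mul_assoc, ← Complex.exp_add]
  congr 2
  push_cast
  ring

theorem Nice.mul_win {f : ℝ → ℂ} (F : Nice f) {H : ℝ} (hH : 0 ≤ H) :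
    Nice (fun u => f u * win H u) := by
  refine ⟨F.meas.mul (win_continuous H).measurable, ?_, ?_⟩
  · exact F.int.mul_bdd (c := H) (win_continuous H).aestronglyMeasurable
      (Eventually.of_forall fun u => win_le hH u)
  · obtain ⟨B, hB⟩ := F.bdd
    refine ⟨B * H, fun u => ?_⟩
    rw [norm_mul]
    exact mul_le_mul (hB u) (win_le hH u) (norm_nonneg _) ((norm_nonneg _).trans (hB u))

theorem even_integral {g : ℝ → ℝ} (hg : Integrable g) (hs : ∀ᵐ v, g (-v) = g v) :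
    ∫ v, g v = 2 * ∫ v in Set.Ioi 0, g v := by
  have h1 : ∫ v, g v = (∫ v in Set.Iic 0, g v) + ∫ v in Set.Ioi 0, g v :=
    (intervalIntegral.integral_Iic_add_Ioi hg.integrableOn hg.integrableOn).symm
  have h2 : ∫ v in Set.Iic 0, g v = ∫ v in Set.Ioi 0, g v := by
    have h3 := integral_comp_neg_Ioi (0 : ℝ) g
    rw [neg_zero] at h3
    rw [← h3]
    exact setIntegral_congr_ae measurableSet_Ioi (hs.mono fun v hv _ => hv)
  rw [h1, h2]; ring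

/-- pointwise splitting -/
theorem split_bound {A G Lc H v : ℝ} (hA : 0 ≤ A) (hG : 0 ≤ G) (hL : 0 < Lc) (_hH : 0 ≤ H)
    (h : |v| ≤ Lc → G ≤ A) :
    G * ‖win H v‖ ^ 2 ≤ A * ‖win H v‖ ^ 2 + 4 / Lc ^ 2 * G := by
  rcases le_or_gt |v| Lc with hv | hv
  · have h1 : G * ‖win H v‖ ^ 2 ≤ A * ‖win H v‖ ^ 2 := by
      gcongr; exact h hv
    have h2 : 0 ≤ 4 / Lc ^ 2 * G := by positivity
    linarith
  · have hv0 : v ≠ 0 := by
      rintro rfl; rw [abs_zero] at hv; linarith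
    have h1 := win_le' H hv0
    have h2 : ‖win H v‖ ^ 2 ≤ 4 / Lc ^ 2 := by
      have h3 : ‖win H v‖ ≤ 2 / Lc := h1.trans (by gcongr)
      calc ‖win H v‖ ^ 2 ≤ (2 / Lc) ^ 2 := by gcongr
        _ = 4 / Lc ^ 2 := by rw [div_pow]; norm_num
    have h4 : G * ‖win H v‖ ^ 2 ≤ 4 / Lc ^ 2 * G := by
      rw [mul_comm]; gcongr
    have h5 : 0 ≤ A * ‖win H v‖ ^ 2 := by positivity
    linarith

/-- (U) for one character -/
theorem U_one {q : ℕ} [NeZero q] (hq : 2 ≤ q) {κ : ℕ} (β : ℕ → ℝ) (N : ℕ)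
    (χ : DirichletCharacter ℂ q) (hχ : χ.IsPrimitive) (hχ1 : χ ≠ 1) (hκ : IsPar κ χ)
    {H : ℝ} (hH : 0 ≤ H) :
    Integrable (fun t => ‖hat (fun u => fd κ β N χ u * win H u) t‖ ^ 2) ∧
    ∫ t, ‖hat (fun u => fd κ β N χ u * win H u) t‖ ^ 2 =
      4 * Real.pi * ∫ v in Set.Ioi 0, ‖fd κ β N χ v‖ ^ 2 * ‖win H v‖ ^ 2 := by
  have hn := (fd_nice hq β N χ hχ1 hκ).mul_win hH
  obtain ⟨h1, h2⟩ := PL1 _ hn.int hn.sq
  refine ⟨h1, ?_⟩
  have h3 : ∫ u, ‖fd κ β N χ u * win H u‖ ^ 2 =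
      2 * ∫ v in Set.Ioi 0, ‖fd κ β N χ v * win H v‖ ^ 2 := by
    refine even_integral hn.sq ?_
    filter_upwards [fd_symm hq β N χ hχ hχ1 hκ] with v hv
    rw [norm_mul, norm_mul, hv, win_neg hH]
  rw [h2, h3]
  simp only [norm_mul, mul_pow]
  ring

/-- (V) for one character -/
theorem V_one {q : ℕ} [NeZero q] (hq : 2 ≤ q) {κ : ℕ} (β : ℕ → ℝ) (N : ℕ)
    (χ : DirichletCharacter ℂ q) (hχ1 : χ ≠ 1) (hκ : IsPar κ χ)
    {H : ℝ} (hH : 0 ≤ H) :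
    Integrable (fun t => ‖hat (fun u => (Dd κ β N χ u - dens₁ κ u) * win H u) t‖ ^ 2) ∧
    ∫ t, ‖hat (fun u => (Dd κ β N χ u - dens₁ κ u) * win H u) t‖ ^ 2 =
      2 * Real.pi * ∫ v, ‖Dd κ β N χ v - dens₁ κ v‖ ^ 2 * ‖win H v‖ ^ 2 := by
  have hn := ((Dd_nice hq β N χ hχ1 hκ).sub (dens₁_nice hκ.le)).mul_win hH
  obtain ⟨h1, h2⟩ := PL1 _ hn.int hn.sq
  refine ⟨h1, ?_⟩
  rw [h2]
  simp only [norm_mul, mul_pow]

theorem energy_half {q : ℕ} [NeZero q] (hq : 2 ≤ q) {κ : ℕ} (β : ℕ → ℝ) (N : ℕ)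
    (χ : DirichletCharacter ℂ q) (hχ : χ.IsPrimitive) (hχ1 : χ ≠ 1) (hκ : IsPar κ χ) :
    ∫ u, ‖Dd κ β N χ u‖ ^ 2 = 2 * ∫ v in Set.Ioi 0, ‖fd κ β N χ v‖ ^ 2 := by
  rw [energy hq β N χ hχ1 hκ]
  refine even_integral (fd_nice hq β N χ hχ1 hκ).sq ?_
  filter_upwards [fd_symm hq β N χ hχ hχ1 hκ] with v hv
  rw [hv]

/-- (U) summed over characters -/
theorem U_sum {q : ℕ} [NeZero q] (hq : 2 ≤ q) {κ : ℕ} (β : ℕ → ℝ) (N : ℕ)
    (S : Finset (DirichletCharacter ℂ q)) (hS : ∀ χ ∈ S, χ.IsPrimitive ∧ χ ≠ 1 ∧ IsPar κ χ)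
    {H Lc A1 A2 : ℝ} (hH : 0 ≤ H) (hL : 0 < Lc) (hA1 : 0 ≤ A1)
    (M1 : ∀ v, 0 ≤ v → v ≤ Lc → ∑ χ ∈ S, ‖fd κ β N χ v‖ ^ 2 ≤ A1)
    (M2 : ∑ χ ∈ S, ∫ v in Set.Ioi 0, ‖fd κ β N χ v‖ ^ 2 ≤ A2) :
    ∑ χ ∈ S, ∫ t, ‖hat (fun u => fd κ β N χ u * win H u) t‖ ^ 2 ≤
      4 * Real.pi * (A1 * (2 * Real.pi * H) + 4 / Lc ^ 2 * A2) := by
  have hpi := Real.pi_pos
  have hfi : ∀ χ ∈ S, Integrable (fun v => ‖fd κ β N χ v‖ ^ 2) := fun χ hχ =>
    (fd_nice hq β N χ (hS χ hχ).2.1 (hS χ hχ).2.2).sq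
  have hfwi : ∀ χ ∈ S, Integrable (fun v => ‖fd κ β N χ v‖ ^ 2 * ‖win H v‖ ^ 2) := by
    intro χ hχ
    have := ((fd_nice hq β N χ (hS χ hχ).2.1 (hS χ hχ).2.2).mul_win hH).sq
    simpa only [norm_mul, mul_pow] using this
  have e1 : ∑ χ ∈ S, ∫ t, ‖hat (fun u => fd κ β N χ u * win H u) t‖ ^ 2 =
      4 * Real.pi * ∫ v in Set.Ioi 0, ∑ χ ∈ S, ‖fd κ β N χ v‖ ^ 2 * ‖win H v‖ ^ 2 := by
    rw [integral_finsetSum _ fun χ hχ => (hfwi χ hχ).integrableOn, Finset.mul_sum]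
    refine Finset.sum_congr rfl fun χ hχ => ?_
    exact (U_one hq β N χ (hS χ hχ).1 (hS χ hχ).2.1 (hS χ hχ).2.2 hH).2
  rw [e1]
  refine mul_le_mul_of_nonneg_left ?_ (by positivity)
  obtain ⟨hwi, hw⟩ := win_sq hH
  have hsum : Integrable (fun v => ∑ χ ∈ S, ‖fd κ β N χ v‖ ^ 2) :=
    integrable_finsetSum _ hfi
  have hsumw : Integrable (fun v => ∑ χ ∈ S, ‖fd κ β N χ v‖ ^ 2 * ‖win H v‖ ^ 2) :=
    integrable_finsetSum _ hfwi
  calc ∫ v in Set.Ioi 0, ∑ χ ∈ S, ‖fd κ β N χ v‖ ^ 2 * ‖win H v‖ ^ 2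
      ≤ ∫ v in Set.Ioi 0, (A1 * ‖win H v‖ ^ 2 + 4 / Lc ^ 2 * ∑ χ ∈ S, ‖fd κ β N χ v‖ ^ 2) := by
        refine setIntegral_mono_on hsumw.integrableOn
          ((hwi.const_mul _).add (hsum.const_mul _)).integrableOn measurableSet_Ioi ?_
        intro v hv
        rw [← Finset.sum_mul]
        refine split_bound hA1 (by positivity) hL hH fun hv' => M1 v (le_of_lt hv) ?_
        exact (le_abs_self v).trans hv'
    _ = A1 * (∫ v in Set.Ioi 0, ‖win H v‖ ^ 2) +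
        4 / Lc ^ 2 * ∑ χ ∈ S, ∫ v in Set.Ioi 0, ‖fd κ β N χ v‖ ^ 2 := by
        rw [integral_add (hwi.const_mul _).integrableOn (hsum.const_mul _).integrableOn,
          integral_const_mul, integral_const_mul,
          integral_finsetSum _ fun χ hχ => (hfi χ hχ).integrableOn]
    _ ≤ _ := by
        have h1 : (∫ v in Set.Ioi 0, ‖win H v‖ ^ 2) ≤ 2 * Real.pi * H := by
          rw [← hw]
          exact setIntegral_le_integral hwi (Eventually.of_forall fun v => by positivity)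
        gcongr

/-- (V) summed over characters -/
theorem V_sum {q : ℕ} [NeZero q] (hq : 2 ≤ q) {κ : ℕ} (hκ : κ ≤ 1) (β : ℕ → ℝ) (N : ℕ)
    (S : Finset (DirichletCharacter ℂ q)) (hS : ∀ χ ∈ S, χ.IsPrimitive ∧ χ ≠ 1 ∧ IsPar κ χ)
    {H Lc A1 A2 : ℝ} (hH : 0 ≤ H) (hL : 0 < Lc) (hA1 : 0 ≤ A1)
    (M3 : ∀ u, |u| ≤ Lc → ∑ χ ∈ S, ‖Dd κ β N χ u - dens₁ κ u‖ ^ 2 ≤ A1)
    (M2 : ∑ χ ∈ S, ∫ v in Set.Ioi 0, ‖fd κ β N χ v‖ ^ 2 ≤ A2) :
    ∑ χ ∈ S, ∫ t, ‖hat (fun u => (Dd κ β N χ u - dens₁ κ u) * win H u) t‖ ^ 2 ≤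
      2 * Real.pi * (A1 * (2 * Real.pi * H) +
        4 / Lc ^ 2 * (4 * A2 + S.card * (2 * ∫ u, ‖dens₁ κ u‖ ^ 2))) := by
  have hpi := Real.pi_pos
  have hDi : ∀ χ ∈ S, Integrable (fun v => ‖Dd κ β N χ v‖ ^ 2) := fun χ hχ =>
    (Dd_nice hq β N χ (hS χ hχ).2.1 (hS χ hχ).2.2).sq
  have h1i := (dens₁_nice hκ).sq
  have hfi : ∀ χ ∈ S, Integrable (fun v => ‖Dd κ β N χ v - dens₁ κ v‖ ^ 2) := fun χ hχ =>
    ((Dd_nice hq β N χ (hS χ hχ).2.1 (hS χ hχ).2.2).sub (dens₁_nice hκ)).sq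
  have hfwi : ∀ χ ∈ S, Integrable
      (fun v => ‖Dd κ β N χ v - dens₁ κ v‖ ^ 2 * ‖win H v‖ ^ 2) := by
    intro χ hχ
    have := (((Dd_nice hq β N χ (hS χ hχ).2.1 (hS χ hχ).2.2).sub
      (dens₁_nice hκ)).mul_win hH).sq
    simpa only [norm_mul, mul_pow] using this
  have e1 : ∑ χ ∈ S, ∫ t, ‖hat (fun u => (Dd κ β N χ u - dens₁ κ u) * win H u) t‖ ^ 2 =
      2 * Real.pi * ∫ v, ∑ χ ∈ S, ‖Dd κ β N χ v - dens₁ κ v‖ ^ 2 * ‖win H v‖ ^ 2 := by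
    rw [integral_finsetSum _ fun χ hχ => (hfwi χ hχ), Finset.mul_sum]
    refine Finset.sum_congr rfl fun χ hχ => ?_
    exact (V_one hq β N χ (hS χ hχ).2.1 (hS χ hχ).2.2 hH).2
  rw [e1]
  refine mul_le_mul_of_nonneg_left ?_ (by positivity)
  obtain ⟨hwi, hw⟩ := win_sq hH
  have hsum : Integrable (fun v => ∑ χ ∈ S, ‖Dd κ β N χ v - dens₁ κ v‖ ^ 2) :=
    integrable_finsetSum _ hfi
  have hsumw : Integrable
      (fun v => ∑ χ ∈ S, ‖Dd κ β N χ v - dens₁ κ v‖ ^ 2 * ‖win H v‖ ^ 2) :=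
    integrable_finsetSum _ hfwi
  have hen : ∀ χ ∈ S, ∫ v, ‖Dd κ β N χ v - dens₁ κ v‖ ^ 2 ≤
      4 * (∫ v in Set.Ioi 0, ‖fd κ β N χ v‖ ^ 2) + 2 * ∫ u, ‖dens₁ κ u‖ ^ 2 := by
    intro χ hχ
    have h2 := energy_half hq β N χ (hS χ hχ).1 (hS χ hχ).2.1 (hS χ hχ).2.2
    calc ∫ v, ‖Dd κ β N χ v - dens₁ κ v‖ ^ 2
        ≤ ∫ v, (2 * ‖Dd κ β N χ v‖ ^ 2 + 2 * ‖dens₁ κ v‖ ^ 2) := by
          refine integral_mono (hfi χ hχ) (((hDi χ hχ).const_mul 2).add (h1i.const_mul 2)) ?_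
          intro v
          show ‖Dd κ β N χ v - dens₁ κ v‖ ^ 2 ≤ 2 * ‖Dd κ β N χ v‖ ^ 2 + 2 * ‖dens₁ κ v‖ ^ 2
          have h3 := norm_sub_le (Dd κ β N χ v) (dens₁ κ v)
          have h4 : ‖Dd κ β N χ v - dens₁ κ v‖ ^ 2 ≤
              (‖Dd κ β N χ v‖ + ‖dens₁ κ v‖) ^ 2 := by gcongr
          nlinarith [sq_nonneg (‖Dd κ β N χ v‖ - ‖dens₁ κ v‖)]
      _ = _ := by
          rw [integral_add ((hDi χ hχ).const_mul 2) (h1i.const_mul 2), integral_const_mul,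
            integral_const_mul, h2]
          ring
  calc ∫ v, ∑ χ ∈ S, ‖Dd κ β N χ v - dens₁ κ v‖ ^ 2 * ‖win H v‖ ^ 2
      ≤ ∫ v, (A1 * ‖win H v‖ ^ 2 +
          4 / Lc ^ 2 * ∑ χ ∈ S, ‖Dd κ β N χ v - dens₁ κ v‖ ^ 2) := by
        refine integral_mono hsumw ((hwi.const_mul _).add (hsum.const_mul _)) ?_
        intro v
        show ∑ χ ∈ S, ‖Dd κ β N χ v - dens₁ κ v‖ ^ 2 * ‖win H v‖ ^ 2 ≤ A1 * ‖win H v‖ ^ 2 +
          4 / Lc ^ 2 * ∑ χ ∈ S, ‖Dd κ β N χ v - dens₁ κ v‖ ^ 2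
        rw [← Finset.sum_mul]
        exact split_bound hA1 (by positivity) hL hH fun hv' => M3 v hv'
    _ = A1 * (∫ v, ‖win H v‖ ^ 2) +
        4 / Lc ^ 2 * ∑ χ ∈ S, ∫ v, ‖Dd κ β N χ v - dens₁ κ v‖ ^ 2 := by
        rw [integral_add (hwi.const_mul _) (hsum.const_mul _),
          integral_const_mul, integral_const_mul, integral_finsetSum _ hfi]
    _ ≤ _ := by
        rw [hw]
        have h5 : ∑ χ ∈ S, ∫ v, ‖Dd κ β N χ v - dens₁ κ v‖ ^ 2 ≤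
            4 * A2 + S.card * (2 * ∫ u, ‖dens₁ κ u‖ ^ 2) := by
          refine (Finset.sum_le_sum hen).trans ?_
          rw [Finset.sum_add_distrib, ← Finset.mul_sum, Finset.sum_const, nsmul_eq_mul]
          gcongr
        gcongr

end Pool.Agent.SQS
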