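import Pool.Agent.Lib_helper24.SQ.Sec2B

/-!
# Section 2: no odd zero in a window, the lower bound for the Gamma factor, counting
-/

noncomputable section

namespace Pool.Agent.SQS

open Complex MeasureTheory Filter Topology Pool.Agent.GRH
open scoped ENNReal

/-- ordinates of the odd order zeros on the critical line -/
def oddZ {q : ℕ} [NeZero q] (χ : DirichletCharacter ℂ q) : Set ℝ :=
  {t : ℝ | Odd (analyticOrderNatAt (DirichletCharacter.completedLFunction χ) (1 / 2 + t * I))}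

theorem continuous_hat {h : ℝ → ℂ} (h1 : Integrable h) : Continuous (hat h) := by
  have hc : Continuous (FourierTransform.fourier h) :=
    VectorFourier.fourierIntegral_continuous Real.continuous_fourierChar continuous_inner h1
  rw [hat_eq_comp]
  exact hc.comp (by fun_prop)

theorem gamma_line_continuous (κ : ℕ) :
    Continuous (fun t : ℝ => Gammaℝ (1 / 2 + κ + t * I)) := by
  have : (fun t : ℝ => Gammaℝ (1 / 2 + κ + t * I)) = hat (dens₁ κ) := by
    funext t; rw [hat_dens₁]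
  rw [this]
  exact continuous_hat (gam κ).1

theorem gamma_line_ne_zero (κ : ℕ) (t : ℝ) : Gammaℝ (1 / 2 + κ + t * I) ≠ 0 := by
  apply Gammaℝ_ne_zero_of_re_pos
  simp
  positivity

/-- lower bound for the averages of the Gamma factor -/
theorem gamma_low (κ : ℕ) (T : ℝ) : ∃ c : ℝ, 0 < c ∧ ∃ H₀ : ℝ, 0 < H₀ ∧
    ∀ t : ℝ, -T ≤ t → t ≤ T → ∀ H : ℝ, 0 ≤ H → H ≤ H₀ →
      c * H ≤ ‖∫ s in t..(t + H), Gammaℝ (1 / 2 + κ + s * I)‖ := by
  set γ : ℝ → ℂ := fun t => Gammaℝ (1 / 2 + κ + t * I) with hγ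
  have hc : Continuous γ := gamma_line_continuous κ
  by_cases hT : 0 ≤ T
  swap
  · refine ⟨1, one_pos, 1, one_pos, fun t h1 h2 => ?_⟩
    exact absurd (h1.trans h2) (by push Not at hT ⊢; linarith)
  have hK : IsCompact (Set.Icc (-T) (T + 1)) := isCompact_Icc
  obtain ⟨t₀, ht₀, hmin⟩ := hK.exists_isMinOn ⟨0, by constructor <;> linarith⟩
    (hc.norm.continuousOn)
  set m : ℝ := ‖γ t₀‖ with hm
  have hm0 : 0 < m := norm_pos_iff.2 (gamma_line_ne_zero κ t₀)
  have hmin' : ∀ t ∈ Set.Icc (-T) (T + 1), m ≤ ‖γ t‖ := fun t ht => hmin ht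
  have huc := hK.uniformContinuousOn_of_continuous hc.continuousOn
  rw [Metric.uniformContinuousOn_iff] at huc
  obtain ⟨δ, hδ, hδ'⟩ := huc (m / 2) (by positivity)
  refine ⟨m / 2, by positivity, min (δ / 2) 1, by positivity, fun t h1 h2 H hH hH' => ?_⟩
  have hHδ : H < δ := by
    have := hH'.trans (min_le_left _ _); linarith
  have hH1 : H ≤ 1 := hH'.trans (min_le_right _ _)
  have e1 : ∫ s in t..(t + H), γ s = (∫ s in t..(t + H), (γ s - γ t)) + H * γ t := by
    rw [intervalIntegral.integral_sub (hc.intervalIntegrable _ _)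
      (continuous_const.intervalIntegrable _ _)]
    simp
  have e2 : ‖∫ s in t..(t + H), (γ s - γ t)‖ ≤ m / 2 * |t + H - t| := by
    refine intervalIntegral.norm_integral_le_of_norm_le_const fun s hs => ?_
    rw [Set.uIoc_of_le (by linarith)] at hs
    have := hδ' s ⟨by linarith [hs.1], by linarith [hs.2]⟩ t ⟨h1, by linarith⟩ (by
      rw [Real.dist_eq, abs_of_pos (by linarith [hs.1])]; linarith [hs.2])
    rw [dist_eq_norm] at this
    exact this.le
  have e3 : ‖(H : ℂ) * γ t‖ = H * ‖γ t‖ := by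
    rw [norm_mul, Complex.norm_real, Real.norm_of_nonneg hH]
  have e4 := hmin' t ⟨h1, by linarith⟩
  have e5 : ‖(H : ℂ) * γ t‖ ≤ ‖∫ s in t..(t + H), γ s‖ + ‖∫ s in t..(t + H), (γ s - γ t)‖ := by
    rw [e1]
    have := norm_sub_le ((∫ s in t..(t + H), (γ s - γ t)) + H * γ t)
      (∫ s in t..(t + H), (γ s - γ t))
    simpa using this
  have e6 : m / 2 * |t + H - t| = m / 2 * H := by
    rw [add_sub_cancel_left, abs_of_nonneg hH]
  rw [e6] at e2
  rw [e3] at e5
  have e7 : H * m ≤ H * ‖γ t‖ := by gcongr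
  show m / 2 * H ≤ ‖∫ s in t..(t + H), γ s‖
  nlinarith

/-- WINDOW -/
theorem window {q : ℕ} [NeZero q] (hq : 2 ≤ q) {κ : ℕ} (β : ℕ → ℝ) (N : ℕ)
    (χ : DirichletCharacter ℂ q) (hχ : χ.IsPrimitive) (hχ1 : χ ≠ 1) (hκ : IsPar κ χ)
    {t H : ℝ} (hH : 0 ≤ H) (h : ∀ s ∈ Set.Ioo t (t + H), s ∉ oddZ χ) :
    ‖∫ s in t..(t + H), Gammaℝ (1 / 2 + κ + s * I)‖ ≤
      ‖hat (fun u => fd κ β N χ u * win H u) t‖ +
      ‖hat (fun u => (Dd κ β N χ u - dens₁ κ u) * win H u) t‖ := by
  obtain ⟨θ, hθ, hph⟩ := phase_odd hq χ hχ t (t + H) h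
  have hle : t ≤ t + H := by linarith
  rw [hat_mul_win (fd_nice hq β N χ hχ1 hκ).int hH,
    hat_mul_win ((Dd_nice hq β N χ hχ1 hκ).sub (dens₁_nice hκ.le)).int hH]
  set Λ : ℝ → ℂ := fun s => DirichletCharacter.completedLFunction χ (1 / 2 + s * I) with hΛ
  have hΛc : Continuous Λ := continuous_line hχ1
  have hmc : Continuous (moll β N χ) := by
    unfold moll
    refine continuous_finsetSum _ fun n hn => continuous_const.mul ?_
    exact continuous_natpow n (Finset.mem_Ico.1 hn).1 _ (by fun_prop)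
  set Y : ℝ → ℝ := fun s => ‖Λ s * (moll β N χ s * moll β N χ s)‖ with hY
  have hYc : Continuous Y := (hΛc.mul (hmc.mul hmc)).norm
  have e1 : ∫ s in t..(t + H), hat (fd κ β N χ) s = θ * ((∫ s in t..(t + H), Y s : ℝ) : ℂ) := by
    rw [← intervalIntegral.integral_ofReal, ← intervalIntegral.integral_const_mul]
    rw [intervalIntegral.integral_of_le hle, intervalIntegral.integral_of_le hle,
      integral_Ioc_eq_integral_Ioo, integral_Ioc_eq_integral_Ioo]
    refine setIntegral_congr_fun measurableSet_Ioo fun s hs => ?_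
    show hat (fd κ β N χ) s = θ * ((Y s : ℝ) : ℂ)
    rw [hat_fd hq β N χ hχ1 hκ, hph s hs, Complex.mul_conj, Complex.normSq_eq_norm_sq, hY]
    simp only [norm_mul]
    push_cast
    ring
  have e2 : ‖∫ s in t..(t + H), hat (fd κ β N χ) s‖ = ∫ s in t..(t + H), Y s := by
    rw [e1, norm_mul, hθ, one_mul, Complex.norm_real, Real.norm_of_nonneg]
    exact intervalIntegral.integral_nonneg hle fun s _ => norm_nonneg _
  have e3 : ‖∫ s in t..(t + H), Λ s * (moll β N χ s * moll β N χ s)‖ ≤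
      ∫ s in t..(t + H), Y s :=
    intervalIntegral.norm_integral_le_integral_norm hle
  have hγc := gamma_line_continuous κ
  have e4 : ∫ s in t..(t + H), hat (fun u => Dd κ β N χ u - dens₁ κ u) s =
      (∫ s in t..(t + H), Λ s * (moll β N χ s * moll β N χ s)) -
        ∫ s in t..(t + H), Gammaℝ (1 / 2 + κ + s * I) := by
    have hi1 : IntervalIntegrable (fun s => Λ s * (moll β N χ s * moll β N χ s)) volume t (t + H) :=
      (hΛc.mul (hmc.mul hmc)).intervalIntegrable _ _
    rw [← intervalIntegral.integral_sub hi1 (hγc.intervalIntegrable _ _)]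
    congr 1
    funext s
    rw [hat_sub (Dd_nice hq β N χ hχ1 hκ).int (dens₁_nice hκ.le).int, hat_Dd hq β N χ hχ1 hκ,
      hat_dens₁]
  rw [e2, e4]
  have e5 := norm_sub_norm_le (∫ s in t..(t + H), Gammaℝ (1 / 2 + κ + s * I))
    (∫ s in t..(t + H), Λ s * (moll β N χ s * moll β N χ s))
  rw [norm_sub_rev] at e5
  linarith

end Pool.Agent.SQS
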