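import Pool.Agent.Lib_helper24.SQ.Sec2C

/-!
# Section 2: counting
-/

noncomputable section

namespace Pool.Agent.SQS

open Complex MeasureTheory Filter Topology Pool.Agent.GRH
open scoped ENNReal

/-- one bad character -/
theorem bad_one {q : ℕ} [NeZero q] (hq : 2 ≤ q) {κ : ℕ} (β : ℕ → ℝ) (N : ℕ)
    (χ : DirichletCharacter ℂ q) (hχ : χ.IsPrimitive) (hχ1 : χ ≠ 1) (hκ : IsPar κ χ)
    {T h c H x : ℝ} (hc : 0 ≤ c) (hH : 0 < H)
    (hlow : ∀ t : ℝ, -T ≤ t → t ≤ T →
      c * H ≤ ‖∫ s in t..(t + H), Gammaℝ (1 / 2 + κ + s * I)‖)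
    (hx : -T ≤ x) (hx' : x + h ≤ T) (hHh : H ≤ h / 8) (Z : Finset ℝ)
    (hZ : ∀ t ∈ oddZ χ ∩ Set.Ioo x (x + h), t ∈ Z) (hZc : Z.card * H ≤ 3 / 8 * h) :
    (c * H) ^ 2 * (h / 2) ≤
      2 * (∫ t, ‖hat (fun u => fd κ β N χ u * win H u) t‖ ^ 2) +
      2 * ∫ t, ‖hat (fun u => (Dd κ β N χ u - dens₁ κ u) * win H u) t‖ ^ 2 := by
  obtain ⟨hU, -⟩ := U_one hq β N χ hχ hχ1 hκ hH.le
  obtain ⟨hV, -⟩ := V_one hq β N χ hχ1 hκ hH.le
  set A : ℝ → ℝ := fun t => ‖hat (fun u => fd κ β N χ u * win H u) t‖ with hA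
  set B : ℝ → ℝ := fun t => ‖hat (fun u => (Dd κ β N χ u - dens₁ κ u) * win H u) t‖ with hB
  set U : Set ℝ := ⋃ z ∈ Z, Set.Ioo (z - H) z with hUd
  set S : Set ℝ := Set.Icc x (x + h - H) \ U with hS
  have hUm : MeasurableSet U := Z.measurableSet_biUnion fun z _ => measurableSet_Ioo
  have hSm : MeasurableSet S := measurableSet_Icc.diff hUm
  have hSfin : volume S ≠ ∞ :=
    ((measure_mono Set.diff_subset).trans_lt (by rw [Real.volume_Icc]; exact ENNReal.ofReal_lt_top)).ne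
  have hUfin : volume U ≠ ∞ := by
    refine ((measure_biUnion_finset_le Z _).trans_lt ?_).ne
    refine ENNReal.sum_lt_top.2 fun z _ => ?_
    rw [Real.volume_Ioo]; exact ENNReal.ofReal_lt_top
  have hUle : volume.real U ≤ Z.card * H := by
    refine (measureReal_biUnion_finset_le Z _).trans ?_
    refine le_of_eq ?_
    have : ∀ z ∈ Z, volume.real (Set.Ioo (z - H) z) = H := by
      intro z _
      rw [Real.volume_real_Ioo_of_le (by linarith)]; ring
    rw [Finset.sum_congr rfl this, Finset.sum_const, nsmul_eq_mul]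
  have hSge : h / 2 ≤ volume.real S := by
    have h1 : volume.real (Set.Icc x (x + h - H)) ≤ volume.real (S ∪ U) := by
      refine measureReal_mono ?_ (measure_union_lt_top hSfin.lt_top hUfin.lt_top).ne
      intro t ht
      by_cases htU : t ∈ U
      · exact Or.inr htU
      · exact Or.inl ⟨ht, htU⟩
    have h2 := measureReal_union_le (μ := volume) S U
    rw [Real.volume_real_Icc_of_le (by linarith)] at h1
    linarith
  have hpt : ∀ t ∈ S, (c * H) ^ 2 ≤ 2 * A t ^ 2 + 2 * B t ^ 2 := by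
    intro t ht
    have hno : ∀ s ∈ Set.Ioo t (t + H), s ∉ oddZ χ := by
      intro s hs hs'
      have hsZ : s ∈ Z := hZ s ⟨hs', ⟨by linarith [ht.1.1, hs.1], by linarith [ht.1.2, hs.2]⟩⟩
      apply ht.2
      rw [hUd]
      simp only [Set.mem_iUnion]
      exact ⟨s, hsZ, ⟨by linarith [hs.2], hs.1⟩⟩
    have h1 := window hq β N χ hχ hχ1 hκ hH.le hno
    have h2 := hlow t (by linarith [ht.1.1]) (by linarith [ht.1.2])
    have h3 : c * H ≤ A t + B t := h2.trans h1
    have h4 : (c * H) ^ 2 ≤ (A t + B t) ^ 2 := by gcongr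
    nlinarith [sq_nonneg (A t - B t)]
  have hint : Integrable (fun t => 2 * A t ^ 2 + 2 * B t ^ 2) := (hU.const_mul 2).add (hV.const_mul 2)
  have h5 : ∫ t in S, (c * H) ^ 2 ≤ ∫ t in S, (2 * A t ^ 2 + 2 * B t ^ 2) := by
    refine setIntegral_mono_on (integrableOn_const hSfin) hint.integrableOn hSm hpt
  have h6 : ∫ t in S, (2 * A t ^ 2 + 2 * B t ^ 2) ≤ ∫ t, (2 * A t ^ 2 + 2 * B t ^ 2) :=
    setIntegral_le_integral hint (Eventually.of_forall fun t => by positivity)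
  rw [setIntegral_const, smul_eq_mul] at h5
  rw [integral_add (hU.const_mul 2) (hV.const_mul 2), integral_const_mul, integral_const_mul] at h6
  calc (c * H) ^ 2 * (h / 2) ≤ volume.real S * (c * H) ^ 2 := by
        rw [mul_comm]; gcongr
    _ ≤ _ := h5.trans h6

end Pool.Agent.SQS
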