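import Pool.Agent.Lib_helper24.SQ.Sec2D

/-!
# Section 2: the final theorem from the three mean values
-/

noncomputable section

namespace Pool.Agent.SQS

open Complex MeasureTheory Filter Topology Pool.Agent.GRH
open scoped ENNReal

open Classical in
/-- the characters of parity `κ` whose count of odd critical zeros is small somewhere -/
def Bad (q : ℕ) [NeZero q] (κ : ℕ) (T h c : ℝ) : Finset (DirichletCharacter ℂ q) :=
  Finset.univ.filter (fun χ => χ.IsPrimitive ∧ IsPar κ χ ∧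
    ∃ x : ℝ, -T ≤ x ∧ x + h ≤ T ∧ (oddZ χ ∩ Set.Ioo x (x + h)).encard < ⌈c * Real.log q⌉₊)

theorem prim_ne_one {q : ℕ} [NeZero q] (hq : 2 ≤ q) {χ : DirichletCharacter ℂ q}
    (h : χ.IsPrimitive) : χ ≠ 1 := by
  rintro rfl
  rw [DirichletCharacter.isPrimitive_def, DirichletCharacter.conductor_one] at h
  omega

/-- Markov for the bad characters of parity `κ` at one modulus -/
theorem bad_card {q : ℕ} [NeZero q] (hq : 2 ≤ q) {κ : ℕ} (hκ : κ ≤ 1) (β : ℕ → ℝ) (N : ℕ)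
    {T h c c' H Lc A1 A2 : ℝ} (hc : 0 ≤ c) (hH : 0 < H) (_hh : 0 < h) (hL : 0 < Lc) (hA1 : 0 ≤ A1)
    (hlow : ∀ t : ℝ, -T ≤ t → t ≤ T →
      c * H ≤ ‖∫ s in t..(t + H), Gammaℝ (1 / 2 + κ + s * I)‖)
    (hHh : H ≤ h / 8) (hc' : c' * Real.log q * H ≤ 3 / 8 * h)
    (M1 : ∀ v, 0 ≤ v → v ≤ Lc → ∑ χ ∈ Bad q κ T h c', ‖fd κ β N χ v‖ ^ 2 ≤ A1)
    (M2 : ∑ χ ∈ Bad q κ T h c', ∫ v in Set.Ioi 0, ‖fd κ β N χ v‖ ^ 2 ≤ A2)
    (M3 : ∀ u, |u| ≤ Lc → ∑ χ ∈ Bad q κ T h c', ‖Dd κ β N χ u - dens₁ κ u‖ ^ 2 ≤ A1) :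
    (Bad q κ T h c').card * ((c * H) ^ 2 * (h / 2)) ≤
      2 * (4 * Real.pi * (A1 * (2 * Real.pi * H) + 4 / Lc ^ 2 * A2)) +
      2 * (2 * Real.pi * (A1 * (2 * Real.pi * H) +
        4 / Lc ^ 2 * (4 * A2 + (Bad q κ T h c').card * (2 * ∫ u, ‖dens₁ κ u‖ ^ 2)))) := by
  classical
  have hS : ∀ χ ∈ Bad q κ T h c', χ.IsPrimitive ∧ χ ≠ 1 ∧ IsPar κ χ := by
    intro χ hχ
    obtain ⟨_, h1, h2, _⟩ := Finset.mem_filter.1 hχ
    exact ⟨h1, prim_ne_one hq h1, h2⟩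
  have hU := U_sum hq β N (Bad q κ T h c') hS hH.le hL hA1 M1 M2
  have hV := V_sum hq hκ β N (Bad q κ T h c') hS hH.le hL hA1 M3 M2
  have hone : ∀ χ ∈ Bad q κ T h c', (c * H) ^ 2 * (h / 2) ≤
      2 * (∫ t, ‖hat (fun u => fd κ β N χ u * win H u) t‖ ^ 2) +
      2 * ∫ t, ‖hat (fun u => (Dd κ β N χ u - dens₁ κ u) * win H u) t‖ ^ 2 := by
    intro χ hχ
    obtain ⟨_, h1, h2, x, hx, hx', hlt⟩ := Finset.mem_filter.1 hχ
    have hfin : (oddZ χ ∩ Set.Ioo x (x + h)).Finite := by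
      rw [← Set.encard_lt_top_iff]
      exact hlt.trans (ENat.natCast_lt_top _)
    refine bad_one hq β N χ h1 (prim_ne_one hq h1) h2 hc hH hlow hx hx' hHh hfin.toFinset
      (fun t ht => by simpa using ht) ?_
    rw [hfin.encard_eq_coe_toFinset_card] at hlt
    have h3 : hfin.toFinset.card < ⌈c' * Real.log q⌉₊ := by exact_mod_cast hlt
    have h4 : (hfin.toFinset.card : ℝ) < c' * Real.log q := Nat.lt_ceil.1 h3
    refine le_trans ?_ hc'
    gcongr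
  calc (Bad q κ T h c').card * ((c * H) ^ 2 * (h / 2))
      = ∑ χ ∈ Bad q κ T h c', (c * H) ^ 2 * (h / 2) := by
        rw [Finset.sum_const, nsmul_eq_mul]
    _ ≤ ∑ χ ∈ Bad q κ T h c',
        (2 * (∫ t, ‖hat (fun u => fd κ β N χ u * win H u) t‖ ^ 2) +
          2 * ∫ t, ‖hat (fun u => (Dd κ β N χ u - dens₁ κ u) * win H u) t‖ ^ 2) :=
        Finset.sum_le_sum hone
    _ ≤ _ := by
        rw [Finset.sum_add_distrib, ← Finset.mul_sum, ← Finset.mul_sum]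
        gcongr

/-- the three mean values, for one modulus -/
structure Means (κ q : ℕ) [NeZero q] (C : ℝ) (β : ℕ → ℝ) (N : ℕ) : Prop where
  M1 : ∀ v, 0 ≤ v → v ≤ Real.log q / 64 →
    ∑ χ : DirichletCharacter ℂ q, ‖fd κ β N χ v‖ ^ 2 ≤ C * q.totient / Real.log q
  M2i : IntegrableOn (fun v => ∑ χ : DirichletCharacter ℂ q, ‖fd κ β N χ v‖ ^ 2) (Set.Ioi 0)
  M2 : ∫ v in Set.Ioi (0 : ℝ), ∑ χ : DirichletCharacter ℂ q, ‖fd κ β N χ v‖ ^ 2 ≤
    C * q.totient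
  M3 : ∀ u, |u| ≤ Real.log q / 64 →
    ∑ χ : DirichletCharacter ℂ q, ‖Dd κ β N χ u - dens₁ κ u‖ ^ 2 ≤ C * q.totient / Real.log q

theorem mem_Bad {q : ℕ} [NeZero q] {κ : ℕ} {T h c : ℝ} {χ : DirichletCharacter ℂ q} :
    χ ∈ Bad q κ T h c ↔ χ.IsPrimitive ∧ IsPar κ χ ∧
      ∃ x : ℝ, -T ≤ x ∧ x + h ≤ T ∧
        (oddZ χ ∩ Set.Ioo x (x + h)).encard < ⌈c * Real.log q⌉₊ := by
  classical
  unfold Bad
  rw [Finset.mem_filter]
  simp

theorem alg_bound {π C φ X Y E n : ℝ} (hπ : 0 ≤ π) (hC : 0 ≤ C) (hφ : 0 ≤ φ) (hX : 0 ≤ X)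
    (hY : 0 ≤ Y) (hE : 0 ≤ E) (hn : n ≤ φ) :
    2 * (4 * π * (C * (2 * π) * φ * X + 4 * 64 ^ 2 * Y * (C * φ))) +
      2 * (2 * π * (C * (2 * π) * φ * X + 4 * 64 ^ 2 * Y * (4 * (C * φ) + n * (2 * E)))) ≤
    (2 * (4 * π * (C * (2 * π) + 4 * 64 ^ 2 * C)) +
      2 * (2 * π * (C * (2 * π) + 4 * 64 ^ 2 * (4 * C + 2 * E)))) * φ * (X + Y) := by
  have h1 : 4 * 64 ^ 2 * Y * (4 * (C * φ) + n * (2 * E)) ≤
      4 * 64 ^ 2 * Y * (4 * (C * φ) + φ * (2 * E)) := by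
    apply mul_le_mul_of_nonneg_left _ (by positivity)
    have := mul_le_mul_of_nonneg_right hn (show 0 ≤ 2 * E by positivity)
    linarith
  have h2 : 2 * (2 * π * (C * (2 * π) * φ * X + 4 * 64 ^ 2 * Y * (4 * (C * φ) + n * (2 * E)))) ≤
      2 * (2 * π * (C * (2 * π) * φ * X + 4 * 64 ^ 2 * Y * (4 * (C * φ) + φ * (2 * E)))) := by
    apply mul_le_mul_of_nonneg_left _ (by norm_num)
    apply mul_le_mul_of_nonneg_left _ (by positivity)
    linarith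
  have h3 : (2 * (4 * π * (C * (2 * π) + 4 * 64 ^ 2 * C)) +
      2 * (2 * π * (C * (2 * π) + 4 * 64 ^ 2 * (4 * C + 2 * E)))) * φ * (X + Y) -
      (2 * (4 * π * (C * (2 * π) * φ * X + 4 * 64 ^ 2 * Y * (C * φ))) +
      2 * (2 * π * (C * (2 * π) * φ * X + 4 * 64 ^ 2 * Y * (4 * (C * φ) + φ * (2 * E))))) =
      8 * π * (2 * π * C * φ * Y + 4 * 64 ^ 2 * C * φ * X) +
      4 * π * (2 * π * C * φ * Y + 4 * 64 ^ 2 * (4 * C + 2 * E) * φ * X) := by ring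
  have h4 : 0 ≤ 8 * π * (2 * π * C * φ * Y + 4 * 64 ^ 2 * C * φ * X) +
      4 * π * (2 * π * C * φ * Y + 4 * 64 ^ 2 * (4 * C + 2 * E) * φ * X) := by positivity
  linarith

theorem bad_kappa {κ : ℕ} (hκ : κ ≤ 1) {C : ℝ} (hC : 0 ≤ C)
    (hM : ∃ Q₀ : ℕ, ∀ (q : ℕ) [NeZero q], Q₀ ≤ q → ∃ β : ℕ → ℝ, ∃ N : ℕ, Means κ q C β N)
    (T : ℝ) {h ε : ℝ} (hh : 0 < h) (hε : 0 < ε) :
    ∃ c : ℝ, 0 < c ∧ ∃ Q : ℕ, ∀ (q : ℕ) [NeZero q], Q ≤ q →
      ((Bad q κ T h c).card : ℝ) ≤ ε * q.totient := by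
  obtain ⟨Q₀, hM⟩ := hM
  obtain ⟨c₀, hc₀, H₀, hH₀, hlow⟩ := gamma_low κ T
  have hpi := Real.pi_pos
  set E : ℝ := ∫ u, ‖dens₁ κ u‖ ^ 2 with hE
  have hE0 : 0 ≤ E := integral_nonneg fun u => by positivity
  -- total constant
  set K : ℝ := 2 * (4 * Real.pi * (C * (2 * Real.pi) + 4 * 64 ^ 2 * C)) +
    2 * (2 * Real.pi * (C * (2 * Real.pi) + 4 * 64 ^ 2 * (4 * C + 2 * E))) with hK
  have hK0 : 0 ≤ K := by positivity
  set A : ℝ := 1 + 2 * K / (c₀ ^ 2 * (h / 2) * ε) with hA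
  have hA1 : 1 ≤ A := by
    rw [hA]; have : 0 ≤ 2 * K / (c₀ ^ 2 * (h / 2) * ε) := by positivity
    linarith
  have hA0 : 0 < A := by linarith
  refine ⟨3 / 8 * h / A, by positivity, ?_⟩
  have htend : Tendsto (fun q : ℕ => Real.log q) atTop atTop :=
    Real.tendsto_log_atTop.comp tendsto_natCast_atTop_atTop
  obtain ⟨Q₁, hQ₁⟩ := (tendsto_atTop.1 htend (max (max 1 (A / H₀)) (8 * A / h))).exists_forall_of_atTop
  refine ⟨max 2 (max Q₀ Q₁), fun q _ hq => ?_⟩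
  have hq2 : 2 ≤ q := (le_max_left _ _).trans hq
  have hq0 : Q₀ ≤ q := ((le_max_left _ _).trans (le_max_right _ _)).trans hq
  have hlog := hQ₁ q (((le_max_right _ _).trans (le_max_right _ _)).trans hq)
  set L : ℝ := Real.log q with hL
  have hL1 : 1 ≤ L := ((le_max_left _ _).trans (le_max_left _ _)).trans hlog
  have hL2 : A / H₀ ≤ L := ((le_max_right _ _).trans (le_max_left _ _)).trans hlog
  have hL3 : 8 * A / h ≤ L := (le_max_right _ _).trans hlog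
  have hL0 : 0 < L := by linarith
  obtain ⟨β, N, hm⟩ := hM q hq0
  set H : ℝ := A / L with hH
  have hHpos : 0 < H := by positivity
  have hHH₀ : H ≤ H₀ := by
    rw [hH, div_le_iff₀ hL0]
    rw [div_le_iff₀ hH₀] at hL2
    linarith
  have hHh : H ≤ h / 8 := by
    rw [hH, div_le_iff₀ hL0]
    rw [div_le_iff₀ hh] at hL3
    linarith
  set c' : ℝ := 3 / 8 * h / A with hc'
  have hfin : ∀ χ ∈ Bad q κ T h c', χ.IsPrimitive ∧ χ ≠ 1 ∧ IsPar κ χ := by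
    intro χ hχ
    obtain ⟨h1, h2, _⟩ := mem_Bad.1 hχ
    exact ⟨h1, prim_ne_one hq2 h1, h2⟩
  have hφ : (0 : ℝ) ≤ q.totient := by positivity
  have hsub : ∀ g : DirichletCharacter ℂ q → ℝ, (∀ χ, 0 ≤ g χ) →
      ∑ χ ∈ Bad q κ T h c', g χ ≤ ∑ χ : DirichletCharacter ℂ q, g χ := fun g hg =>
    Finset.sum_le_sum_of_subset_of_nonneg (Finset.subset_univ _) fun χ _ _ => hg χ
  have key := bad_card hq2 hκ β N (T := T) (h := h) (c := c₀) (c' := c') (H := H)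
    (Lc := L / 64) (A1 := C * q.totient / L) (A2 := C * q.totient) hc₀.le hHpos hh
    (by positivity) (by positivity)
    (fun t h1 h2 => hlow t h1 h2 H hHpos.le hHH₀) hHh (by
      rw [hH, hc', ← hL]
      apply le_of_eq
      field_simp)
    (fun v h1 h2 => (hsub _ fun χ => by positivity).trans (hm.M1 v h1 h2))
    (by
      rw [← integral_finsetSum _ fun χ hχ =>
        (fd_nice hq2 β N χ (hfin χ hχ).2.1 (hfin χ hχ).2.2).sq.integrableOn]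
      refine le_trans ?_ hm.M2
      refine setIntegral_mono_on (integrable_finsetSum _ fun χ hχ =>
        (fd_nice hq2 β N χ (hfin χ hχ).2.1 (hfin χ hχ).2.2).sq.integrableOn) hm.M2i
        measurableSet_Ioi fun v _ => hsub _ fun χ => by positivity)
    (fun u h1 => (hsub _ fun χ => by positivity).trans (hm.M3 u h1))
  have hcard : ((Bad q κ T h c').card : ℝ) ≤ q.totient := by
    have h1 : (Bad q κ T h c').card ≤ Fintype.card (DirichletCharacter ℂ q) :=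
      Finset.card_le_univ _
    have h2 : Fintype.card (DirichletCharacter ℂ q) = q.totient := by
      rw [← Nat.card_eq_fintype_card]
      exact DirichletCharacter.card_eq_totient_of_hasEnoughRootsOfUnity ℂ q
    rw [h2] at h1
    exact_mod_cast h1
  set n : ℝ := ((Bad q κ T h c').card : ℝ) with hn
  have hn0 : 0 ≤ n := by positivity
  have hHL : H / L + 1 / L ^ 2 ≤ 2 * (H ^ 2 / A) := by
    have h1 : H / L = H ^ 2 / A := by rw [hH]; field_simp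
    have h2 : 1 / L ^ 2 = H ^ 2 / A ^ 2 := by rw [hH]; field_simp
    have h3 : H ^ 2 / A ^ 2 ≤ H ^ 2 / A := by
      gcongr
      nlinarith
    linarith
  have step : n * ((c₀ * H) ^ 2 * (h / 2)) ≤ K * q.totient * (H / L + 1 / L ^ 2) := by
    refine key.trans ?_
    have h64 : (4 : ℝ) / (L / 64) ^ 2 = 4 * 64 ^ 2 * (1 / L ^ 2) := by
      field_simp
    rw [h64]
    have e1 : C * q.totient / L * (2 * Real.pi * H) = C * (2 * Real.pi) * q.totient * (H / L) := by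
      field_simp
    rw [e1]
    exact alg_bound hpi.le hC hφ (by positivity) (by positivity) hE0 hcard
  have step2 : n * ((c₀ * H) ^ 2 * (h / 2)) ≤ K * q.totient * (2 * (H ^ 2 / A)) :=
    step.trans (by gcongr)
  have hH2 : 0 < H ^ 2 := by positivity
  have step3 : n * (c₀ ^ 2 * (h / 2)) ≤ 2 * K * q.totient / A := by
    have e2 : n * ((c₀ * H) ^ 2 * (h / 2)) = (n * (c₀ ^ 2 * (h / 2))) * H ^ 2 := by ring
    have e3 : K * q.totient * (2 * (H ^ 2 / A)) = (2 * K * q.totient / A) * H ^ 2 := by ring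
    rw [e2, e3] at step2
    exact le_of_mul_le_mul_right step2 hH2
  have hAK : 2 * K / A ≤ c₀ ^ 2 * (h / 2) * ε := by
    have hD : 0 < c₀ ^ 2 * (h / 2) * ε := by positivity
    have e : c₀ ^ 2 * (h / 2) * ε * A = c₀ ^ 2 * (h / 2) * ε + 2 * K := by
      rw [hA]; field_simp
    rw [div_le_iff₀ hA0, e]
    linarith
  have step4 : n * (c₀ ^ 2 * (h / 2)) ≤ (ε * q.totient) * (c₀ ^ 2 * (h / 2)) := by
    calc n * (c₀ ^ 2 * (h / 2)) ≤ 2 * K * q.totient / A := step3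
      _ = 2 * K / A * q.totient := by ring
      _ ≤ c₀ ^ 2 * (h / 2) * ε * q.totient := by gcongr
      _ = _ := by ring
  exact le_of_mul_le_mul_right step4 (by positivity)

end Pool.Agent.SQS
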